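import Pool.Agent.Helper660.FU.Num3

set_option autoImplicit false

namespace Pool.Agent.Helper660.FU

open Finset

/-- A symmetric ternary relation (3-uniform hypergraph) with no repeated disjoint union. -/
structure Sys (V : Type) where
  E : V → V → V → Prop
  s1 : ∀ a b c, E a b c → E b a c
  s2 : ∀ a b c, E a b c → E a c b
  irr : ∀ a b, ¬ E a a b
  val : ∀ x y p q r s, x ≠ y → E x p q → E y p q → E x r s → E y r s →
    p = r ∨ p = s ∨ q = r ∨ q = s

variable {V : Type} (S : Sys V)

namespace Sys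

theorem c12 (a b c : V) : S.E a b c = S.E b a c := propext ⟨S.s1 _ _ _, S.s1 _ _ _⟩
theorem c23 (a b c : V) : S.E a b c = S.E a c b := propext ⟨S.s2 _ _ _, S.s2 _ _ _⟩

theorem ne12 {a b c : V} (h : S.E a b c) : a ≠ b := by
  rintro rfl; exact S.irr _ _ h
theorem ne13 {a b c : V} (h : S.E a b c) : a ≠ c := S.ne12 (S.s2 _ _ _ h)
theorem ne23 {a b c : V} (h : S.E a b c) : b ≠ c := S.ne13 (S.s1 _ _ _ h)

variable [Fintype V]

open Classical in
/-- codegree of a and b in the link graph of k -/
noncomputable def co (k a b : V) : ℕ := (univ.filter (fun x => S.E k a x ∧ S.E k b x)).card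

open Classical in
noncomputable def Nn (a b : V) : Finset V := univ.filter (fun x => S.E a b x)

open Classical in
noncomputable def Ns (i j k : V) : Finset V := univ.filter (fun w => w ≠ i ∧ S.E j k w)

open Classical in
noncomputable def Pt (i j k : V) : Finset V :=
  univ.filter (fun w => w ≠ i ∧ S.E j k w ∧ 2 ≤ S.co k i w ∧ S.co j i w = 1)

open Classical in
noncomputable def Tt (i j k : V) : Finset V :=
  univ.filter (fun w => w ≠ i ∧ S.E j k w ∧ 2 ≤ S.co k i w ∧ 2 ≤ S.co j i w)

open Classical in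
noncomputable def St (i j k : V) : Finset V :=
  univ.filter (fun w => w ≠ i ∧ S.E j k w ∧ S.co k i w = 1 ∧ S.co j i w = 1)

open Classical in
noncomputable def Xs (j k v : V) : Finset V :=
  univ.filter (fun x => S.E x j k ∧ S.E x j v ∧ S.E x k v)

def Third (i j k w v : V) : Prop :=
  v ≠ j ∧ v ≠ k ∧ S.E i j v ∧ S.E i k v ∧ S.E w j v ∧ S.E w k v

open Classical in
noncomputable def Zt (i j k : V) : Finset V :=
  (S.Pt j i k).filter (fun v => ∃ w ∈ S.Tt i j k, S.E k w v)

theorem mem_Pt (i j k w : V) :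
    w ∈ S.Pt i j k ↔ w ≠ i ∧ S.E j k w ∧ 2 ≤ S.co k i w ∧ S.co j i w = 1 := by
  unfold Pt; simp
theorem mem_Tt (i j k w : V) :
    w ∈ S.Tt i j k ↔ w ≠ i ∧ S.E j k w ∧ 2 ≤ S.co k i w ∧ 2 ≤ S.co j i w := by
  unfold Tt; simp
theorem mem_St (i j k w : V) :
    w ∈ S.St i j k ↔ w ≠ i ∧ S.E j k w ∧ S.co k i w = 1 ∧ S.co j i w = 1 := by
  unfold St; simp
theorem mem_Ns (i j k w : V) : w ∈ S.Ns i j k ↔ w ≠ i ∧ S.E j k w := by
  unfold Ns; simp
theorem mem_Nn (a b w : V) : w ∈ S.Nn a b ↔ S.E a b w := by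
  unfold Nn; simp
theorem mem_Xs (j k v x : V) : x ∈ S.Xs j k v ↔ S.E x j k ∧ S.E x j v ∧ S.E x k v := by
  unfold Xs; simp
theorem mem_Zt (i j k v : V) :
    v ∈ S.Zt i j k ↔ v ∈ S.Pt j i k ∧ ∃ w ∈ S.Tt i j k, S.E k w v := by
  unfold Zt; simp

theorem co_symm (k a b : V) : S.co k a b = S.co k b a := by
  unfold co
  congr 1
  ext x
  simp only [mem_filter]
  tauto

theorem co_pos {k a b x : V} (h1 : S.E k a x) (h2 : S.E k b x) : 1 ≤ S.co k a b := by
  unfold co
  apply Finset.card_pos.2
  exact ⟨x, by simp [h1, h2]⟩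

theorem two_le_co {k a b x y : V} (hxy : x ≠ y) (h1 : S.E k a x) (h2 : S.E k b x)
    (h3 : S.E k a y) (h4 : S.E k b y) : 2 ≤ S.co k a b := by
  unfold co
  apply Finset.one_lt_card.2
  exact ⟨x, by simp [h1, h2], y, by simp [h3, h4], hxy⟩

theorem exists_of_two_le {k a b : V} (x : V) (h : 2 ≤ S.co k a b) :
    ∃ y, y ≠ x ∧ S.E k a y ∧ S.E k b y := by
  unfold co at h
  obtain ⟨y, hy, hne⟩ := Finset.exists_mem_ne h x
  simp at hy
  exact ⟨y, hne, hy⟩

theorem unique_of_co_one {k a b x y : V} (h : S.co k a b = 1) (h1 : S.E k a x) (h2 : S.E k b x)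
    (h3 : S.E k a y) (h4 : S.E k b y) : x = y := by
  by_contra hne
  have := S.two_le_co hne h1 h2 h3 h4
  omega

theorem co_le {k a b : V} (T : Finset V) (h : ∀ x, S.E k a x → S.E k b x → x ∈ T) :
    S.co k a b ≤ T.card := by
  unfold co
  apply Finset.card_le_card
  intro x hx
  simp at hx
  exact h x hx.1 hx.2

/-- edges of the bipartite graph at centre k force codegree two on both sides -/
theorem edge_co {i j k v w : V} (h : S.E i j k) (hw : w ≠ i) (hjkw : S.E j k w) (hv : v ≠ j)
    (hikv : S.E i k v) (he : S.E k w v) : 2 ≤ S.co k i w ∧ 2 ≤ S.co k j v := by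
  constructor
  · apply S.two_le_co hv.symm (x := j) (y := v)
    · simpa only [S.c12, S.c23] using h
    · simpa only [S.c12, S.c23] using hjkw
    · simpa only [S.c12, S.c23] using hikv
    · simpa only [S.c12, S.c23] using he
  · apply S.two_le_co hw.symm (x := i) (y := w)
    · simpa only [S.c12, S.c23] using h
    · simpa only [S.c12, S.c23] using hikv
    · simpa only [S.c12, S.c23] using hjkw
    · simpa only [S.c12, S.c23] using he

theorem co_one_k {i j k w : V} (h : S.E i j k) (hjkw : S.E j k w) : 1 ≤ S.co k i w := by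
  apply S.co_pos (x := j)
  · simpa only [S.c12, S.c23] using h
  · simpa only [S.c12, S.c23] using hjkw

theorem co_one_j {i j k w : V} (h : S.E i j k) (hjkw : S.E j k w) : 1 ≤ S.co j i w := by
  apply S.co_pos (x := k)
  · simpa only [S.c12, S.c23] using h
  · simpa only [S.c12, S.c23] using hjkw

/-- the third vertex of a triangle-type element -/
theorem exists_third {i j k w : V} (h : S.E i j k) (hw : w ∈ S.Tt i j k) :
    ∃ v, S.Third i j k w v := by
  rw [mem_Tt] at hw
  obtain ⟨hwi, hjkw, h1, h2⟩ := hw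
  obtain ⟨v, hvj, hv1, hv2⟩ := S.exists_of_two_le j h1
  obtain ⟨v', hvk, hv3, hv4⟩ := S.exists_of_two_le k h2
  have hval := S.val i w k v j v' hwi.symm
    (by simpa only [S.c12, S.c23] using hv1) (by simpa only [S.c12, S.c23] using hv2)
    (by simpa only [S.c12, S.c23] using hv3) (by simpa only [S.c12, S.c23] using hv4)
  have hkj : k ≠ j := (S.ne23 h).symm
  have hvv : v = v' := by
    rcases hval with h | h | h | h
    · exact absurd h hkj
    · exact absurd h hvk.symm
    · exact absurd h hvj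
    · exact h
  subst hvv
  refine ⟨v, hvj, hvk, ?_, ?_, ?_, ?_⟩
  · simpa only [S.c12, S.c23] using hv3
  · simpa only [S.c12, S.c23] using hv1
  · simpa only [S.c12, S.c23] using hv4
  · simpa only [S.c12, S.c23] using hv2

theorem third_nbr_k {i j k w v x : V} (h : S.E i j k) (hwi : w ≠ i)
    (ht : S.Third i j k w v) (h1 : S.E k i x) (h2 : S.E k w x) : x = j ∨ x = v := by
  obtain ⟨hvj, hvk, h3, h4, h5, h6⟩ := ht
  have hval := S.val i w k x j v hwi.symm
    (by simpa only [S.c12, S.c23] using h1) (by simpa only [S.c12, S.c23] using h2) h3 h5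
  rcases hval with h' | h' | h' | h'
  · exact absurd h' (S.ne23 h).symm
  · exact absurd h' hvk.symm
  · exact Or.inl h'
  · exact Or.inr h'

theorem Third.swap {i j k w v : V} {S : Sys V} (ht : S.Third i j k w v) : S.Third i k j w v := by
  obtain ⟨hvj, hvk, h3, h4, h5, h6⟩ := ht
  exact ⟨hvk, hvj, h4, h3, h6, h5⟩

theorem third_nbr_j {i j k w v x : V} (h : S.E i j k) (hwi : w ≠ i)
    (ht : S.Third i j k w v) (h1 : S.E j i x) (h2 : S.E j w x) : x = k ∨ x = v :=
  S.third_nbr_k (S.s2 _ _ _ h) hwi ht.swap h1 h2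

theorem third_unique {i j k w v v' : V} (h : S.E i j k) (hwi : w ≠ i)
    (ht : S.Third i j k w v) (ht' : S.Third i j k w v') : v = v' := by
  have := S.third_nbr_k h hwi ht' (x := v)
    (by simpa only [S.c12, S.c23] using ht.2.2.2.1) (by simpa only [S.c12, S.c23] using ht.2.2.2.2.2)
  rcases this with h' | h'
  · exact absurd h' ht.1
  · exact h'

theorem mem_Tt_of_third {i j k w v : V} (h : S.E i j k) (hwi : w ≠ i) (hjkw : S.E j k w)
    (ht : S.Third i j k w v) : w ∈ S.Tt i j k := by
  rw [mem_Tt]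
  obtain ⟨hvj, hvk, h3, h4, h5, h6⟩ := ht
  refine ⟨hwi, hjkw, ?_, ?_⟩
  · apply S.two_le_co hvj.symm (x := j) (y := v)
    · simpa only [S.c12, S.c23] using h
    · simpa only [S.c12, S.c23] using hjkw
    · simpa only [S.c12, S.c23] using h4
    · simpa only [S.c12, S.c23] using h6
  · apply S.two_le_co hvk.symm (x := k) (y := v)
    · simpa only [S.c12, S.c23] using h
    · simpa only [S.c12, S.c23] using hjkw
    · simpa only [S.c12, S.c23] using h3
    · simpa only [S.c12, S.c23] using h5

/-- two triangle-type elements either share the third vertex or are swapped -/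
theorem third_pair {i j k w w' v v' : V} (h : S.E i j k) (hwi : w ≠ i) (hwi' : w' ≠ i)
    (ht : S.Third i j k w v) (ht' : S.Third i j k w' v') (hne : v ≠ v') : v' = w ∧ v = w' := by
  obtain ⟨hvj, hvk, h3, h4, h5, h6⟩ := ht
  obtain ⟨hvj', hvk', h3', h4', h5', h6'⟩ := ht'
  have hjk : j ≠ k := S.ne23 h
  have hiv : i ≠ v := S.ne13 h3
  have hiv' : i ≠ v' := S.ne13 h3'
  constructor
  · -- pairs (w,v) and (i,v')
    have hval := S.val j k w v i v' hjk
      (by simpa only [S.c12, S.c23] using h5) (by simpa only [S.c12, S.c23] using h6)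
      (by simpa only [S.c12, S.c23] using h3') (by simpa only [S.c12, S.c23] using h4')
    rcases hval with h' | h' | h' | h'
    · exact absurd h' hwi
    · exact h'.symm
    · exact absurd h'.symm hiv
    · exact absurd h' hne
  · have hval := S.val j k w' v' i v hjk
      (by simpa only [S.c12, S.c23] using h5') (by simpa only [S.c12, S.c23] using h6')
      (by simpa only [S.c12, S.c23] using h3) (by simpa only [S.c12, S.c23] using h4)
    rcases hval with h' | h' | h' | h'
    · exact absurd h' hwi'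
    · exact h'.symm
    · exact absurd h'.symm hiv'
    · exact absurd h'.symm hne

theorem mem_side_j {i j k w v : V} (ht : S.Third i j k w v) : v ≠ j ∧ S.E i k v :=
  ⟨ht.1, ht.2.2.2.1⟩

theorem mem_side_k {i j k w v : V} (ht : S.Third i j k w v) : v ≠ k ∧ S.E i j v :=
  ⟨ht.2.1, ht.2.2.1⟩

/-- codegree bound for a pure element not attached to a triangle-type element -/
theorem coPt_le {i j k v : V} (h : S.E i j k) (hv : v ∈ S.Pt j i k) (hz : v ∉ S.Zt i j k) :
    S.co k j v ≤ 1 + (S.Pt i j k).card := by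
  classical
  have hv' := hv
  rw [mem_Pt] at hv'
  obtain ⟨hvj, hikv, _, _⟩ := hv'
  have := S.co_le (k := k) (a := j) (b := v) (insert i (S.Pt i j k)) (by
    intro x hx1 hx2
    rw [Finset.mem_insert]
    by_cases hxi : x = i
    · exact Or.inl hxi
    right
    have hjkx : S.E j k x := by simpa only [S.c12, S.c23] using hx1
    have hkxv : S.E k x v := by simpa only [S.c12, S.c23] using hx2
    have hco := (S.edge_co h hxi hjkx hvj hikv hkxv).1
    have h1 : 1 ≤ S.co j i x := S.co_one_j h hjkx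
    rcases Nat.lt_or_ge (S.co j i x) 2 with h2 | h2
    · rw [mem_Pt]
      exact ⟨hxi, hjkx, hco, by omega⟩
    · exfalso
      apply hz
      rw [mem_Zt]
      exact ⟨hv, x, (S.mem_Tt i j k x).2 ⟨hxi, hjkx, hco, h2⟩, hkxv⟩)
  refine this.trans ((Finset.card_insert_le _ _).trans ?_)
  omega

theorem coPt_le_t {i j k v : V} (h : S.E i j k) (hv : v ∈ S.Pt j i k) (T : Finset V)
    (hT : ∀ w ∈ S.Tt i j k, S.E k w v → w ∈ T) :
    S.co k j v ≤ 1 + T.card + (S.Pt i j k).card := by
  classical
  have hv' := hv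
  rw [mem_Pt] at hv'
  obtain ⟨hvj, hikv, _, _⟩ := hv'
  have := S.co_le (k := k) (a := j) (b := v) (insert i (T ∪ S.Pt i j k)) (by
    intro x hx1 hx2
    rw [Finset.mem_insert, Finset.mem_union]
    by_cases hxi : x = i
    · exact Or.inl hxi
    right
    have hjkx : S.E j k x := by simpa only [S.c12, S.c23] using hx1
    have hkxv : S.E k x v := by simpa only [S.c12, S.c23] using hx2
    have hco := (S.edge_co h hxi hjkx hvj hikv hkxv).1
    have h1 : 1 ≤ S.co j i x := S.co_one_j h hjkx
    rcases Nat.lt_or_ge (S.co j i x) 2 with h2 | h2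
    · right
      rw [mem_Pt]
      exact ⟨hxi, hjkx, hco, by omega⟩
    · left
      exact hT x ((S.mem_Tt i j k x).2 ⟨hxi, hjkx, hco, h2⟩) hkxv)
  refine this.trans ((Finset.card_insert_le _ _).trans ?_)
  have := Finset.card_union_le T (S.Pt i j k)
  omega

end Sys

end Pool.Agent.Helper660.FU
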