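import Pool.Agent.Helper660.FU.CaseB

set_option autoImplicit false

namespace Pool.Agent.Helper660.FU

open Finset

variable {V : Type} (S : Sys V)

namespace Sys

variable [Fintype V]

theorem inact_co {i j k v : V} (hn : ¬ S.Act i j k) (hv : v ≠ j) (hikv : S.E i k v) :
    ¬ 2 ≤ S.co i j v := by
  intro h2
  obtain ⟨w, hw, h3, h4⟩ := S.exists_of_two_le k h2
  exact hn ⟨v, w, hv, hw, hikv, h3, h4⟩

theorem inact_Pt {i j k : V} (hn : ¬ S.Act i j k) : S.Pt j k i = ∅ := by
  apply Finset.eq_empty_of_forall_notMem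
  intro v hv
  rw [mem_Pt] at hv
  exact S.inact_co hn hv.1 (by simpa only [S.c12, S.c23] using hv.2.1) hv.2.2.1

theorem inact_Tt {i j k : V} (hn : ¬ S.Act i j k) : S.Tt j i k = ∅ := by
  apply Finset.eq_empty_of_forall_notMem
  intro v hv
  rw [mem_Tt] at hv
  exact S.inact_co hn hv.1 hv.2.1 hv.2.2.2

theorem f_ge_J {i j k : V} (h : S.E i j k) :
    S.W i j k + (S.W j i k + (S.Hs i j k + S.Hs j i k) / 2)
      + (S.W k i j + (S.Hs i k j + S.Hs k i j) / 2) ≤ S.f i j k := by
  have h1 : S.E j k i := by simpa only [S.c12, S.c23] using h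
  have h2 : S.E k i j := by simpa only [S.c12, S.c23] using h
  unfold f
  rw [S.g_eq h, S.g_eq h1, S.g_eq h2, S.W_comm j k i]
  have e1 := S.Hs_nonneg j k i
  have e2 := S.Hs_nonneg k j i
  linarith

theorem W_nonneg {i j k : V} (h : S.E i j k) : 0 ≤ S.W i j k := by
  have h1 := S.W_lower i j k
  have h2 := S.TS_nonneg i j k h
  have h3 : 0 ≤ 1 / (1 + ((S.Pt i j k).card : ℝ) + (S.Pt i k j).card + (S.Tt i j k).card) := by
    positivity
  linarith

theorem Zt_empty_of_Tt {i j k : V} (h0 : S.Tt i j k = ∅) : S.Zt i j k = ∅ := by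
  apply Finset.eq_empty_of_forall_notMem
  intro v hv
  rw [mem_Zt] at hv
  obtain ⟨_, w, hw, _⟩ := hv
  rw [h0] at hw
  exact absurd hw (Finset.notMem_empty _)

theorem inact_none {i j k : V} (h : S.E i j k) (hn : ¬ S.Act i j k) (h0 : S.Tt i j k = ∅) :
    2 ≤ S.f i j k := by
  have hikj : S.E i k j := S.s2 _ _ _ h
  have hn' : ¬ S.Act i k j := fun ha => hn (S.Act_comm ha)
  have j1 := S.J_lower h (S.inact_Pt hn) (S.inact_Tt hn)
  have j2 := S.J_lower hikj (S.inact_Pt hn') (S.inact_Tt hn')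
  rw [S.Zt_empty_of_Tt h0] at j1
  rw [S.Zt_empty_of_Tt (by rw [← S.Tt_comm]; exact h0)] at j2
  simp only [Finset.sum_empty, zero_div, sub_zero] at j1 j2
  have h3 := S.f_ge_J h
  have h4 := S.W_nonneg h
  linarith

/-- J bound in the one-third-vertex case, P ≥ 1 -/
theorem J_one_pos {i j k v : V} (h : S.E i j k) (hn : ¬ S.Act i j k) (hZ : S.Zt i j k = {v})
    (hb : S.co k j v ≤ 2 + (S.Pt i j k).card) (hb1 : 2 ≤ S.co k j v)
    (hP : 1 ≤ (S.Pt i j k).card) :
    11 / 12 ≤ S.W j i k + (S.Hs i j k + S.Hs j i k) / 2 := by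
  have j1 := S.J_lower h (S.inact_Pt hn) (S.inact_Tt hn)
  rw [hZ, Finset.sum_singleton] at j1
  have h1 : 1 / (2 + ((S.Pt i j k).card : ℝ)) ≤ 1 / (S.co k j v : ℝ) := by
    apply inv_le_cast (by omega)
    exact_mod_cast hb
  have hp : (1 : ℝ) ≤ (S.Pt i j k).card := by exact_mod_cast hP
  have h2 : 1 / (1 + ((S.Pt i j k).card : ℝ)) - 1 / (2 + ((S.Pt i j k).card : ℝ)) ≤ 1 / 6 := by
    have e : 1 / (1 + ((S.Pt i j k).card : ℝ)) - 1 / (2 + ((S.Pt i j k).card : ℝ))
        = 1 / ((1 + ((S.Pt i j k).card : ℝ)) * (2 + ((S.Pt i j k).card : ℝ))) := by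
      have : (1 + ((S.Pt i j k).card : ℝ)) ≠ 0 := by positivity
      have : (2 + ((S.Pt i j k).card : ℝ)) ≠ 0 := by positivity
      field_simp
      ring
    rw [e]
    apply one_div_le_one_div_of_le (by norm_num)
    nlinarith
  linarith

theorem J_one_zero {i j k v : V} (h : S.E i j k) (hn : ¬ S.Act i j k) (hZ : S.Zt i j k = {v})
    (hb : S.co k j v ≤ 2 + (S.Pt i j k).card) (hb1 : 2 ≤ S.co k j v)
    (hP : (S.Pt i j k).card = 0) :
    3 / 4 ≤ S.W j i k + (S.Hs i j k + S.Hs j i k) / 2 := by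
  have j1 := S.J_lower h (S.inact_Pt hn) (S.inact_Tt hn)
  rw [hZ, Finset.sum_singleton, hP] at j1
  have h1 : S.co k j v = 2 := by omega
  rw [h1] at j1
  norm_num at j1
  linarith

theorem inact_one_cond {i j k w v : V} (h : S.E i j k) (hn : ¬ S.Act i j k)
    (hT : S.Tt i j k = {w}) (ht : S.Third i j k w v)
    (hp : v ∈ S.Pt j i k) (hp' : v ∈ S.Pt k i j)
    (c1 : S.E i j w) (h0 : (S.Pt i k j).card = 0) (hTS : S.TS i j k = 1 / 6) :
    2 ≤ S.f i j k := by
  have hikj : S.E i k j := S.s2 _ _ _ h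
  have hkij : S.E k i j := by simpa only [S.c12, S.c23] using h
  have hn' : ¬ S.Act i k j := fun ha => hn (S.Act_comm ha)
  have hw : w ∈ S.Tt i j k := by rw [hT]; simp
  have hw' : w ∈ S.Tt i k j := by rw [← S.Tt_comm]; exact hw
  have hall : ∀ x ∈ S.Tt i j k, S.Third i j k x v := by
    intro x hx; rw [hT, Finset.mem_singleton] at hx; subst hx; exact ht
  have hall' : ∀ x ∈ S.Tt i k j, S.Third i k j x v := by
    intro x hx; rw [← S.Tt_comm] at hx; exact (hall x hx).swap
  have hw0 := hw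
  rw [mem_Tt] at hw0
  have hwk : w ≠ k := (S.ne23 hw0.2.1).symm
  -- w is a single element on side k
  have hst : w ∈ S.St k i j := by
    rw [mem_St]
    have e1 : 1 ≤ S.co i k w := by
      apply S.co_pos (x := j)
      · exact hikj
      · simpa only [S.c12, S.c23] using c1
    have e2 : ¬ 2 ≤ S.co i k w := S.inact_co hn' hwk c1
    have e3 : 1 ≤ S.co j k w := by
      apply S.co_pos (x := i)
      · simpa only [S.c12, S.c23] using h
      · simpa only [S.c12, S.c23] using c1
    have e4 : ¬ 2 ≤ S.co j k w := by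
      intro e4
      obtain ⟨x, hxi, hx1, hx2⟩ := S.exists_of_two_le i e4
      -- x on side i, at centre j adjacent to w
      have hc := S.edge_co (i := i) (j := k) (k := j) (w := x) (v := w) hikj hxi
        (by simpa only [S.c12, S.c23] using hx1) hwk c1
        (by simpa only [S.c12, S.c23] using hx2)
      have hkx : 1 ≤ S.co k i x := by
        apply S.co_pos (x := j)
        · simpa only [S.c12, S.c23] using h
        · simpa only [S.c12, S.c23] using hx1
      rcases Nat.lt_or_ge (S.co k i x) 2 with h5 | h5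
      · have : x ∈ S.Pt i k j := by
          rw [mem_Pt]
          exact ⟨hxi, by simpa only [S.c12, S.c23] using hx1, hc.1, by omega⟩
        rw [Finset.card_eq_zero.1 h0] at this
        exact absurd this (Finset.notMem_empty _)
      · have : x ∈ S.Tt i j k := by
          rw [mem_Tt]
          exact ⟨hxi, hx1, h5, hc.1⟩
        rw [hT, Finset.mem_singleton] at this
        subst this
        exact absurd rfl (S.ne23 hx2)
    exact ⟨hwk, c1, by omega, by omega⟩
  have hPk : (S.Pt k i j).card = 1 := S.card_one_of_zero hikj hw' hall' hp' h0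
  have hPkv : S.Pt k i j = {v} := by
    obtain ⟨y, hy⟩ := Finset.card_eq_one.1 hPk
    rw [hy] at hp'
    rw [hy, Finset.mem_singleton.1 hp']
  have hco : S.co j k v = 2 := by
    have h1 := S.co_le_one hikj hp'
    rw [← S.Tt_comm, hT, Finset.card_singleton, h0] at h1
    rw [mem_Pt] at hp'
    omega
  have hHs : S.Hs k i j = 1 / 2 := by
    unfold Hs
    rw [hPkv, Finset.sum_singleton, hco]
    norm_num
  have hσ : 1 ≤ (S.St k i j).card := Finset.card_pos.2 ⟨w, hst⟩
  have hW : 5 / 6 ≤ S.W k i j := by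
    unfold W
    have hTS0 : S.TS k i j = 0 := by
      unfold TS; rw [S.inact_Tt hn']; simp
    rw [hPk, S.inact_Pt hn', S.inact_Tt hn', hTS0]
    simp only [card_empty, Nat.cast_zero, add_zero, Nat.cast_one]
    have hs : (1 : ℝ) ≤ (S.St k i j).card := by exact_mod_cast hσ
    rcases Nat.lt_or_ge (S.St k i j).card 2 with h5 | h5
    · have : (S.St k i j).card = 1 := by omega
      rw [this]; norm_num
    · have h6 : (2 : ℝ) ≤ (S.St k i j).card := by exact_mod_cast h5
      have : 0 ≤ 1 / (1 + 1 + ((S.St k i j).card : ℝ)) := by positivity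
      linarith
  have hH0 := S.Hs_nonneg i k j
  have hf := S.f_ge_J h
  have hWi := S.W_lower i j k
  rw [hTS, h0, hT] at hWi
  have hZ := S.Zt_one h hw hall hp
  have hb := S.co_le_one h hp
  rw [hT, Finset.card_singleton] at hb
  have hb1 : 2 ≤ S.co k j v := by
    rw [mem_Pt] at hp; exact hp.2.2.1
  by_cases hP : (S.Pt i j k).card = 0
  · have hJ := S.J_one_zero h hn hZ (by omega) hb1 hP
    rw [hP] at hWi
    norm_num at hWi
    linarith
  · have hJ := S.J_one_pos h hn hZ (by omega) hb1 (by omega)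
    have : 0 ≤ 1 / (1 + ((S.Pt i j k).card : ℝ) + ((0 : ℕ) : ℝ) + (({w} : Finset V).card : ℝ)) := by
      positivity
    linarith

theorem inact_one {i j k w v : V} (h : S.E i j k) (hn : ¬ S.Act i j k)
    (hw : w ∈ S.Tt i j k) (hall : ∀ x ∈ S.Tt i j k, S.Third i j k x v)
    (hp : v ∈ S.Pt j i k) (hp' : v ∈ S.Pt k i j) : 2 ≤ S.f i j k := by
  have hikj : S.E i k j := S.s2 _ _ _ h
  have hn' : ¬ S.Act i k j := fun ha => hn (S.Act_comm ha)
  have hw' : w ∈ S.Tt i k j := by rw [← S.Tt_comm]; exact hw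
  have hall' : ∀ x ∈ S.Tt i k j, S.Third i k j x v := by
    intro x hx; rw [← S.Tt_comm] at hx; exact (hall x hx).swap
  have ht := hall w hw
  have hw0 := hw
  rw [mem_Tt] at hw0
  have hwk : w ≠ k := (S.ne23 hw0.2.1).symm
  have hwj : w ≠ j := (S.ne13 hw0.2.1).symm
  have hZ := S.Zt_one h hw hall hp
  have hZ' := S.Zt_one hikj hw' hall' hp'
  have b1 := S.co_le_one h hp
  have b2 := S.co_le_one hikj hp'
  rw [← S.Tt_comm] at b2
  have hpos : 1 ≤ (S.Tt i j k).card := Finset.card_pos.2 ⟨w, hw⟩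
  have l1 : 2 ≤ S.co k j v := (S.third_side h hw ht).2.2.1
  have l2 : 2 ≤ S.co j k v := (S.third_side hikj hw' (hall' w hw')).2.2.1
  have hW := S.W_lower i j k
  have hf := S.f_ge_J h
  have j1 := S.J_lower h (S.inact_Pt hn) (S.inact_Tt hn)
  have j2 := S.J_lower hikj (S.inact_Pt hn') (S.inact_Tt hn')
  rw [hZ, Finset.sum_singleton] at j1
  rw [hZ', Finset.sum_singleton] at j2
  rcases Nat.lt_or_ge (S.Tt i j k).card 2 with h2 | h2
  · have hT1 : (S.Tt i j k).card = 1 := by omega
    obtain ⟨y, hT⟩ := Finset.card_eq_one.1 hT1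
    have hwy : w = y := by rw [hT] at hw; exact Finset.mem_singleton.1 hw
    subst hwy
    rw [hT1] at b1 b2
    have hTS : S.TS i j k = S.bt i w j k v := by
      unfold TS
      rw [hT, Finset.sum_singleton]
      exact S.sh_eq h hw ht
    by_cases hc : S.Cond i w j k v
    · rw [S.bt_cond hc] at hTS
      have hX := S.Xs_eq h hw hall
      rw [hT1] at hX
      have hc' : S.E i j w ∧ S.E i k w := by
        rcases hc with hc | hc | hc | hc
        · omega
        · exact hc
        · exact absurd ⟨v, w, ht.1, hwk, ht.2.2.2.1, hc.1, hc.2⟩ hn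
        · exact absurd ⟨w, v, hwj, ht.2.1, hc.1, ht.2.2.1, S.s2 _ _ _ hc.2⟩ hn
      by_cases hP : (S.Pt i j k).card = 0
      · rw [S.f_comm']
        refine S.inact_one_cond hikj hn' (w := w) (v := v) ?_ ht.swap hp' hp hc'.2 hP ?_
        · rw [← S.Tt_comm]; exact hT
        · have : S.TS i k j = S.TS i j k := by
            unfold TS
            rw [← S.Tt_comm]
            apply Finset.sum_congr rfl
            intro x _
            exact (S.sh_comm i x j k).symm
          rw [this]; exact hTS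
      by_cases hP' : (S.Pt i k j).card = 0
      · exact S.inact_one_cond h hn hT ht hp hp' hc'.1 hP' hTS
      have k1 := S.J_one_pos h hn hZ (by omega) l1 (by omega)
      have k2 := S.J_one_pos hikj hn' hZ' (by omega) l2 (by omega)
      rw [hTS] at hW
      have : 0 ≤ 1 / (1 + ((S.Pt i j k).card : ℝ) + ((S.Pt i k j).card : ℝ) + ((S.Tt i j k).card : ℝ)) := by
        positivity
      linarith
    · rw [S.bt_need hc] at hTS
      rw [hTS, hT1] at hW
      have := zJ (S.Pt i j k).card (S.Pt i k j).card (S.co j k v) (S.co k j v) l2 (by omega) l1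
        (by omega)
      have eqd : (1 : ℝ) + ((S.Pt i j k).card : ℝ) + (S.Pt i k j).card + ((1 : ℕ) : ℝ)
          = 2 + ((S.Pt i j k).card : ℝ) + (S.Pt i k j).card := by
        push_cast; ring
      rw [eqd] at hW
      linarith
  · have hTS : S.TS i j k = ((1 + (S.Tt i j k).card : ℕ) - 1 : ℝ) / 6 := by
      rcases S.TS_one h hw hall with hT | ⟨hT1, _, _⟩
      · exact hT
      · omega
    rw [hTS] at hW
    have := uJ (S.Pt i j k).card (S.Pt i k j).card (1 + (S.Tt i j k).card) (S.co j k v)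
      (S.co k j v) (by omega) (by omega) b2 (by omega) b1
    have eqd : (1 : ℝ) + ((S.Pt i j k).card : ℝ) + (S.Pt i k j).card + (S.Tt i j k).card
        = ((1 + (S.Tt i j k).card : ℕ) : ℝ) + (S.Pt i j k).card + (S.Pt i k j).card := by
      push_cast; ring
    rw [eqd] at hW
    linarith

theorem J_two {i j k a b : V} (h : S.E i j k) (hn : ¬ S.Act i j k)
    (ha : a ∈ S.Tt i j k) (hb : b ∈ S.Tt i j k) (hab : S.Third i j k a b)
    (hba : S.Third i j k b a) (hne : a ≠ b) (hp : a ∈ S.Pt j i k) (hp' : b ∈ S.Pt j i k) :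
    5 / 6 ≤ S.W j i k + (S.Hs i j k + S.Hs j i k) / 2 := by
  classical
  have hZ := S.Zt_two h ha hb hab hba hne hp hp'
  have p1 := S.co_two h ha hb hab hba hne hp
  have p2 := S.co_two h hb ha hba hab hne.symm hp'
  have q1 : 2 ≤ S.co k j a := by rw [mem_Pt] at hp; exact hp.2.2.1
  have q2 : 2 ≤ S.co k j b := by rw [mem_Pt] at hp'; exact hp'.2.2.1
  have r1 : 1 / (2 + ((S.Pt i j k).card : ℝ)) ≤ 1 / (S.co k j a : ℝ) := by
    apply inv_le_cast (by omega)
    exact_mod_cast p1
  have r2 : 1 / (2 + ((S.Pt i j k).card : ℝ)) ≤ 1 / (S.co k j b : ℝ) := by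
    apply inv_le_cast (by omega)
    exact_mod_cast p2
  by_cases hP : (S.Pt i j k).card = 0
  · have hPj : S.Pt j i k = {a, b} := by rw [← S.Pt_eq_Zt h hP, hZ]
    have hHs : 1 ≤ S.Hs j i k := by
      unfold Hs
      rw [hPj, Finset.sum_pair hne]
      rw [hP] at r1 r2
      norm_num at r1 r2
      norm_num
      linarith
    have hHi := S.Hs_nonneg i j k
    have hW := S.W_lower j i k
    have hTS0 : S.TS j i k = 0 := by
      unfold TS; rw [S.inact_Tt hn]; simp
    rw [hPj, S.inact_Pt hn, S.inact_Tt hn, hTS0, Finset.card_pair hne] at hW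
    norm_num at hW
    linarith
  · have j1 := S.J_lower h (S.inact_Pt hn) (S.inact_Tt hn)
    rw [hZ, Finset.sum_pair hne] at j1
    have hp : (1 : ℝ) ≤ (S.Pt i j k).card := by
      exact_mod_cast Nat.one_le_iff_ne_zero.2 hP
    have h2 : 1 / (1 + ((S.Pt i j k).card : ℝ)) - 1 / (2 + ((S.Pt i j k).card : ℝ)) ≤ 1 / 6 := by
      have e : 1 / (1 + ((S.Pt i j k).card : ℝ)) - 1 / (2 + ((S.Pt i j k).card : ℝ))
          = 1 / ((1 + ((S.Pt i j k).card : ℝ)) * (2 + ((S.Pt i j k).card : ℝ))) := by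
        have : (1 + ((S.Pt i j k).card : ℝ)) ≠ 0 := by positivity
        have : (2 + ((S.Pt i j k).card : ℝ)) ≠ 0 := by positivity
        field_simp
        ring
      rw [e]
      apply one_div_le_one_div_of_le (by norm_num)
      nlinarith
    linarith

theorem inact_two {i j k a b : V} (h : S.E i j k) (hn : ¬ S.Act i j k)
    (ha : a ∈ S.Tt i j k) (hb : b ∈ S.Tt i j k) (hab : S.Third i j k a b)
    (hba : S.Third i j k b a) (hne : a ≠ b) (hp : a ∈ S.Pt j i k) (hp' : b ∈ S.Pt j i k)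
    (hq : a ∈ S.Pt k i j) (hq' : b ∈ S.Pt k i j) : 2 ≤ S.f i j k := by
  have hikj : S.E i k j := S.s2 _ _ _ h
  have hn' : ¬ S.Act i k j := fun ha => hn (S.Act_comm ha)
  have ha' : a ∈ S.Tt i k j := by rw [← S.Tt_comm]; exact ha
  have hb' : b ∈ S.Tt i k j := by rw [← S.Tt_comm]; exact hb
  have j1 := S.J_two h hn ha hb hab hba hne hp hp'
  have j2 := S.J_two hikj hn' ha' hb' hab.swap hba.swap hne hq hq'
  have hW := S.W_two h ha hb hab hba hne
  have hf := S.f_ge_J h
  have : 0 ≤ 1 / (3 + ((S.Pt i j k).card : ℝ) + (S.Pt i k j).card) := by positivity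
  linarith

/-- an inactive centre gives the local inequality -/
theorem inactive {i j k : V} (h : S.E i j k) (hn : ¬ S.Act i j k) : 2 ≤ S.f i j k := by
  rcases Finset.eq_empty_or_nonempty (S.Tt i j k) with h0 | ⟨w, hw⟩
  · exact S.inact_none h hn h0
  have hikj : S.E i k j := S.s2 _ _ _ h
  have hn' : ¬ S.Act i k j := fun ha => hn (S.Act_comm ha)
  have hpure : ∀ x y, x ∈ S.Tt i j k → S.Third i j k x y → y ∈ S.Pt j i k ∧ y ∈ S.Pt k i j := by
    intro x y hx hxy
    constructor
    · rcases S.third_pure_or_T h hx hxy with h1 | h1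
      · exact h1
      · rw [S.inact_Tt hn] at h1
        exact absurd h1 (Finset.notMem_empty _)
    · rcases S.third_pure_or_T hikj (by rw [← S.Tt_comm]; exact hx) hxy.swap with h1 | h1
      · exact h1
      · rw [S.inact_Tt hn'] at h1
        exact absurd h1 (Finset.notMem_empty _)
  obtain ⟨v, hv⟩ := S.exists_third h hw
  obtain ⟨p1, p2⟩ := hpure w v hw hv
  rcases S.dichotomy h hw hv with hall | ⟨hvT, hvw, hne⟩
  · exact S.inact_one h hn hw hall p1 p2
  · obtain ⟨q1, q2⟩ := hpure v w hvT hvw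
    exact S.inact_two h hn hw hvT hv hvw hne q1 p1 q2 p2

theorem local_ineq {i j k : V} (h : S.E i j k) : 2 ≤ S.f i j k := by
  have hjik : S.E j i k := by simpa only [S.c12, S.c23] using h
  have hkij : S.E k i j := by simpa only [S.c12, S.c23] using h
  by_cases ai : S.Act i j k
  swap
  · exact S.inactive h ai
  by_cases aj : S.Act j i k
  swap
  · rw [S.f_comm]; exact S.inactive hjik aj
  by_cases ak : S.Act k i j
  swap
  · rw [S.f_comm', S.f_comm]; exact S.inactive hkij ak
  exact S.all_active h ai aj ak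

end Sys

end Pool.Agent.Helper660.FU
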