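import Pool.Agent.Helper660.FU.CaseC

set_option autoImplicit false

namespace Pool.Agent.Helper660.FU

open Finset

variable {V : Type} (S : Sys V)

namespace Sys

variable [Fintype V]

/-- no adjacent triangle-type elements on sides i and j at centre k -/
def NoTT (i j k : V) : Prop := ∀ w ∈ S.Tt i j k, ∀ v ∈ S.Tt j i k, ¬ S.E k w v

theorem NoTT_comm {i j k : V} (h : S.NoTT i j k) : S.NoTT j i k := by
  intro w hw v hv he
  exact h v hv w hw (by simpa only [S.c12, S.c23] using he)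

theorem pure_third {i j k w v : V} (h : S.E i j k) (n1 : S.NoTT i j k) (n2 : S.NoTT i k j)
    (hw : w ∈ S.Tt i j k) (ht : S.Third i j k w v) : v ∈ S.Pt j i k ∧ v ∈ S.Pt k i j := by
  have h' : S.E i k j := S.s2 _ _ _ h
  have hw' : w ∈ S.Tt i k j := by rw [← S.Tt_comm]; exact hw
  constructor
  · rcases S.third_pure_or_T h hw ht with h1 | h1
    · exact h1
    · exact absurd (by simpa only [S.c12, S.c23] using ht.2.2.2.2.2) (n1 w hw v h1)
  · rcases S.third_pure_or_T h' hw' ht.swap with h1 | h1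
    · exact h1
    · exact absurd (by simpa only [S.c12, S.c23] using ht.2.2.2.2.1) (n2 w hw' v h1)

theorem dichotomy {i j k w v : V} (h : S.E i j k) (hw : w ∈ S.Tt i j k)
    (ht : S.Third i j k w v) :
    (∀ x ∈ S.Tt i j k, S.Third i j k x v) ∨ (v ∈ S.Tt i j k ∧ S.Third i j k v w ∧ w ≠ v) := by
  by_cases hall : ∀ x ∈ S.Tt i j k, S.Third i j k x v
  · exact Or.inl hall
  right
  rw [not_forall] at hall
  simp only [exists_prop, not_forall] at hall
  obtain ⟨x, hx, hnx⟩ := hall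
  obtain ⟨y, hy⟩ := S.exists_third h hx
  have hx0 := hx
  rw [mem_Tt] at hw hx0
  have hvy : v ≠ y := by
    rintro rfl; exact hnx hy
  obtain ⟨e1, e2⟩ := S.third_pair h hw.1 hx0.1 ht hy hvy
  subst e2
  rw [e1] at hy
  exact ⟨hx, hy, fun e => hvy (by rw [e1, e])⟩

theorem side_T {i j k w : V} (h : S.E i j k) (hw : w ∈ S.Tt i j k)
    (n1 : S.NoTT i j k) (n2 : S.NoTT i k j) :
    1 / 2 ≤ S.Side i j k ∧ (1 ≤ (S.Pt i j k).card → 7 / 12 ≤ S.Side i j k) ∧
    (1 ≤ (S.Pt i k j).card → 7 / 12 ≤ S.Side i j k) ∧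
    (1 ≤ (S.Pt i j k).card → 1 ≤ (S.Pt i k j).card → 2 / 3 ≤ S.Side i j k) ∧
    (2 / 3 ≤ S.Side i j k ∨ ∃ v, ∀ x ∈ S.Tt i j k, S.Third i j k x v) := by
  have h' : S.E i k j := S.s2 _ _ _ h
  have hw' : w ∈ S.Tt i k j := by rw [← S.Tt_comm]; exact hw
  obtain ⟨v, hv⟩ := S.exists_third h hw
  obtain ⟨p1, p2⟩ := S.pure_third h n1 n2 hw hv
  rcases S.dichotomy h hw hv with hall | ⟨hvT, hvw, hne⟩
  · have hall' : ∀ x ∈ S.Tt i k j, S.Third i k j x v := by
      intro x hx; rw [← S.Tt_comm] at hx; exact (hall x hx).swap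
    obtain ⟨a1, a2, a3⟩ := S.side_one h hw hall p1 p2
    obtain ⟨b1, b2, b3⟩ := S.side_one h' hw' hall' p2 p1
    refine ⟨a1, a2, ?_, a3, Or.inr ⟨v, hall⟩⟩
    intro h1
    rw [S.Side_comm]; exact b2 h1
  · obtain ⟨q1, q2⟩ := S.pure_third h n1 n2 hvT hvw
    have := S.side_two h hw hvT hv hvw hne q1 p1 q2 p2
    refine ⟨by linarith, fun _ => by linarith, fun _ => by linarith, fun _ _ => this, Or.inl this⟩

theorem card_one_of_zero {i j k w v : V} (h : S.E i j k) (hw : w ∈ S.Tt i j k)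
    (hall : ∀ x ∈ S.Tt i j k, S.Third i j k x v) (hp : v ∈ S.Pt j i k)
    (h0 : (S.Pt i j k).card = 0) : (S.Pt j i k).card = 1 := by
  rw [← S.Pt_eq_Zt h h0, S.Zt_one h hw hall hp, Finset.card_singleton]

/-- two sides with triangle-type elements -/
theorem two_sided {i j k w w' : V} (h : S.E i j k) (ai : S.Act i j k) (aj : S.Act j i k)
    (n1 : S.NoTT i j k) (n2 : S.NoTT i k j) (n3 : S.NoTT j k i)
    (hw : w ∈ S.Tt i j k) (hw' : w' ∈ S.Tt j i k) (hk : S.Tt k i j = ∅) : 2 ≤ S.f i j k := by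
  have hikj : S.E i k j := S.s2 _ _ _ h
  have hjik : S.E j i k := by simpa only [S.c12, S.c23] using h
  have hjki : S.E j k i := by simpa only [S.c12, S.c23] using h
  have hkij : S.E k i j := by simpa only [S.c12, S.c23] using h
  have hwikj : w ∈ S.Tt i k j := by rw [← S.Tt_comm]; exact hw
  have hwjki : w' ∈ S.Tt j k i := by rw [← S.Tt_comm]; exact hw'
  obtain ⟨v, hv⟩ := S.exists_third h hw
  obtain ⟨v', hv'⟩ := S.exists_third hjik hw'
  obtain ⟨p1, p2⟩ := S.pure_third h n1 n2 hw hv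
  obtain ⟨q1, q2⟩ := S.pure_third hjik (S.NoTT_comm n1) n3 hw' hv'
  have c1 : 1 ≤ (S.Pt j i k).card := Finset.card_pos.2 ⟨v, p1⟩
  have c2 : 1 ≤ (S.Pt k i j).card := Finset.card_pos.2 ⟨v, p2⟩
  have c3 : 1 ≤ (S.Pt i j k).card := Finset.card_pos.2 ⟨v', q1⟩
  have c4 : 1 ≤ (S.Pt k j i).card := Finset.card_pos.2 ⟨v', q2⟩
  obtain ⟨_, a2, _, a4, a5⟩ := S.side_T h hw n1 n2
  obtain ⟨_, b2, _, b4, b5⟩ := S.side_T hjik hw' (S.NoTT_comm n1) n3
  have sk : 3 / 4 ≤ S.Side k i j :=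
    S.side_none_act hkij hk (S.Act_comm ai) (S.Act_comm aj)
  have hf := S.f_ge_sides h
  have a2' := a2 c3
  have b2' := b2 c1
  by_cases hA : 2 / 3 ≤ S.Side i j k
  · linarith
  by_cases hB : 2 / 3 ≤ S.Side j i k
  · linarith
  have zi : (S.Pt i k j).card = 0 := by
    by_contra hne
    exact hA (a4 c3 (Nat.one_le_iff_ne_zero.2 hne))
  have zj : (S.Pt j k i).card = 0 := by
    by_contra hne
    exact hB (b4 c1 (Nat.one_le_iff_ne_zero.2 hne))
  have hall := a5.resolve_left hA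
  have hall' := b5.resolve_left hB
  obtain ⟨y, hy⟩ := hall
  obtain ⟨y', hy'⟩ := hall'
  have k1 : (S.Pt k i j).card = 1 := by
    apply S.card_one_of_zero hikj hwikj (v := y) _ _ zi
    · intro x hx; rw [← S.Tt_comm] at hx; exact (hy x hx).swap
    · exact (S.pure_third h n1 n2 hw (hy w hw)).2
  have k2 : (S.Pt k j i).card = 1 := by
    apply S.card_one_of_zero hjki hwjki (v := y') _ _ zj
    · intro x hx; rw [← S.Tt_comm] at hx; exact (hy' x hx).swap
    · exact (S.pure_third hjik (S.NoTT_comm n1) n3 hw' (hy' w' hw')).2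
  have sk2 := S.side_none hk
  rw [k1, k2] at sk2
  have : ph 1 = 1 / 2 := by unfold ph; norm_num
  rw [this] at sk2
  norm_num at sk2
  linarith

/-- one side with triangle-type elements -/
theorem one_sided {i j k w : V} (h : S.E i j k) (ai : S.Act i j k) (aj : S.Act j i k)
    (ak : S.Act k i j)
    (n1 : S.NoTT i j k) (n2 : S.NoTT i k j)
    (hw : w ∈ S.Tt i j k) (hj : S.Tt j i k = ∅) (hk : S.Tt k i j = ∅) : 2 ≤ S.f i j k := by
  have hjik : S.E j i k := by simpa only [S.c12, S.c23] using h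
  have hkij : S.E k i j := by simpa only [S.c12, S.c23] using h
  have s1 := (S.side_T h hw n1 n2).1
  have s2 : 3 / 4 ≤ S.Side j i k := S.side_none_act hjik hj ai (S.Act_comm ak)
  have s3 : 3 / 4 ≤ S.Side k i j := S.side_none_act hkij hk (S.Act_comm ai) (S.Act_comm aj)
  have hf := S.f_ge_sides h
  linarith

theorem three_sided {i j k w w' w'' : V} (h : S.E i j k)
    (n1 : S.NoTT i j k) (n2 : S.NoTT i k j) (n3 : S.NoTT j k i)
    (hw : w ∈ S.Tt i j k) (hw' : w' ∈ S.Tt j i k) (hw'' : w'' ∈ S.Tt k i j) : 2 ≤ S.f i j k := by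
  have hjik : S.E j i k := by simpa only [S.c12, S.c23] using h
  have hkij : S.E k i j := by simpa only [S.c12, S.c23] using h
  obtain ⟨v, hv⟩ := S.exists_third h hw
  obtain ⟨v', hv'⟩ := S.exists_third hjik hw'
  obtain ⟨v'', hv''⟩ := S.exists_third hkij hw''
  have n2' : S.NoTT k i j := S.NoTT_comm n2
  have n3' : S.NoTT k j i := S.NoTT_comm n3
  obtain ⟨p1, p2⟩ := S.pure_third h n1 n2 hw hv
  obtain ⟨q1, q2⟩ := S.pure_third hjik (S.NoTT_comm n1) n3 hw' hv'
  obtain ⟨r1, r2⟩ := S.pure_third hkij n2' n3' hw'' hv''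
  have c1 : 1 ≤ (S.Pt j i k).card := Finset.card_pos.2 ⟨v, p1⟩
  have c2 : 1 ≤ (S.Pt k i j).card := Finset.card_pos.2 ⟨v, p2⟩
  have c3 : 1 ≤ (S.Pt i j k).card := Finset.card_pos.2 ⟨v', q1⟩
  have c4 : 1 ≤ (S.Pt k j i).card := Finset.card_pos.2 ⟨v', q2⟩
  have c5 : 1 ≤ (S.Pt i k j).card := Finset.card_pos.2 ⟨v'', r1⟩
  have c6 : 1 ≤ (S.Pt j k i).card := Finset.card_pos.2 ⟨v'', r2⟩
  have s1 := (S.side_T h hw n1 n2).2.2.2.1 c3 c5
  have s2 := (S.side_T hjik hw' (S.NoTT_comm n1) n3).2.2.2.1 c1 c6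
  have s3 := (S.side_T hkij hw'' n2' n3').2.2.2.1 c2 c4
  have hf := S.f_ge_sides h
  linarith

theorem all_active {i j k : V} (h : S.E i j k) (ai : S.Act i j k) (aj : S.Act j i k)
    (ak : S.Act k i j) : 2 ≤ S.f i j k := by
  have hikj : S.E i k j := S.s2 _ _ _ h
  have hjik : S.E j i k := by simpa only [S.c12, S.c23] using h
  have hjki : S.E j k i := by simpa only [S.c12, S.c23] using h
  have hkij : S.E k i j := by simpa only [S.c12, S.c23] using h
  by_cases n1 : S.NoTT i j k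
  swap
  · unfold NoTT at n1
    rw [not_forall] at n1
    simp only [not_forall, not_not, exists_prop] at n1
    obtain ⟨w, hw, v, hv, he⟩ := n1
    exact S.TT_all h hw hv he ai aj
  by_cases n2 : S.NoTT i k j
  swap
  · unfold NoTT at n2
    rw [not_forall] at n2
    simp only [not_forall, not_not, exists_prop] at n2
    obtain ⟨w, hw, v, hv, he⟩ := n2
    rw [S.f_comm']
    exact S.TT_all hikj hw hv he (S.Act_comm ai) ak
  by_cases n3 : S.NoTT j k i
  swap
  · unfold NoTT at n3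
    rw [not_forall] at n3
    simp only [not_forall, not_not, exists_prop] at n3
    obtain ⟨w, hw, v, hv, he⟩ := n3
    rw [S.f_comm, S.f_comm']
    exact S.TT_all hjki hw hv he (S.Act_comm aj) (S.Act_comm ak)
  have hf := S.f_ge_sides h
  rcases Finset.eq_empty_or_nonempty (S.Tt i j k) with hi | ⟨w, hw⟩ <;>
  rcases Finset.eq_empty_or_nonempty (S.Tt j i k) with hj | ⟨w', hw'⟩ <;>
  rcases Finset.eq_empty_or_nonempty (S.Tt k i j) with hk | ⟨w'', hw''⟩
  · have s1 := S.side_none_act h hi aj ak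
    have s2 := S.side_none_act hjik hj ai (S.Act_comm ak)
    have s3 := S.side_none_act hkij hk (S.Act_comm ai) (S.Act_comm aj)
    linarith
  · -- only k
    rw [S.f_comm', S.f_comm]
    refine S.one_sided hkij ak (S.Act_comm ai) (S.Act_comm aj) (S.NoTT_comm n2) (S.NoTT_comm n3) hw'' ?_ ?_
    · rw [← S.Tt_comm]; exact hi
    · rw [← S.Tt_comm]; exact hj
  · -- only j
    rw [S.f_comm]
    refine S.one_sided hjik aj ai (S.Act_comm ak) (S.NoTT_comm n1) n3 hw' hi ?_
    rw [← S.Tt_comm]; exact hk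
  · -- j and k
    rw [S.f_comm, S.f_comm']
    refine S.two_sided hjki (S.Act_comm aj) (S.Act_comm ak) n3 (S.NoTT_comm n1) (S.NoTT_comm n2)
      (w := w') (w' := w'') ?_ ?_ hi
    · rw [← S.Tt_comm]; exact hw'
    · rw [← S.Tt_comm]; exact hw''
  · exact S.one_sided h ai aj ak n1 n2 hw hj hk
  · -- i and k
    rw [S.f_comm']
    refine S.two_sided hikj (S.Act_comm ai) ak n2 n1 (S.NoTT_comm n3) (w := w) (w' := w'') ?_ hw'' ?_
    · rw [← S.Tt_comm]; exact hw
    · exact hj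
  · exact S.two_sided h ai aj n1 n2 n3 hw hw' hk
  · exact S.three_sided h n1 n2 n3 hw hw' hw''

end Sys

end Pool.Agent.Helper660.FU
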