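import Pool.Agent.Helper660.FU.Sides2

set_option autoImplicit false

namespace Pool.Agent.Helper660.FU

open Finset

variable {V : Type} (S : Sys V)

namespace Sys

variable [Fintype V]

theorem f_comm (i j k : V) : S.f i j k = S.f j i k := by
  unfold f
  rw [S.g_comm j k i, S.g_comm i j k, S.g_comm k i j]
  ring

theorem f_comm' (i j k : V) : S.f i j k = S.f i k j := by
  unfold f
  rw [S.g_comm i j k, S.g_comm j k i, S.g_comm k i j]
  ring

theorem Tt_not_Pt {i j k x : V} (h : x ∈ S.Tt i j k) : x ∉ S.Pt i j k := by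
  rw [mem_Tt] at h
  rw [mem_Pt]
  omega

theorem Tt_not_Pt' {i j k x : V} (h : x ∈ S.Tt i j k) : x ∉ S.Pt i k j := by
  rw [S.Tt_comm] at h
  exact S.Tt_not_Pt h

/-- centre i is active -/
def Act (i j k : V) : Prop :=
  ∃ v w, v ≠ j ∧ w ≠ k ∧ S.E i k v ∧ S.E i j w ∧ S.E i v w

theorem Act_comm {i j k : V} (h : S.Act i j k) : S.Act i k j := by
  obtain ⟨v, w, h1, h2, h3, h4, h5⟩ := h
  exact ⟨w, v, h2, h1, h4, h3, S.s2 _ _ _ h5⟩

/-- an active centre i produces on side j an element of centre type i -/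
theorem act_side {i j k : V} (h : S.E i j k) (ha : S.Act i j k) (h0 : S.Tt j i k = ∅) :
    1 ≤ (S.Pt j k i).card := by
  obtain ⟨v, w, h1, h2, h3, h4, h5⟩ := ha
  have hjki : S.E j k i := by simpa only [S.c12, S.c23] using h
  have hc := S.edge_co (i := j) (j := k) (k := i) (v := w) (w := v) hjki h1
    (by simpa only [S.c12, S.c23] using h3) h2 (by simpa only [S.c12, S.c23] using h4)
    (by simpa only [S.c12, S.c23] using h5)
  have hco : 2 ≤ S.co i j v := hc.1
  have hkv : 1 ≤ S.co k j v := by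
    apply S.co_pos (x := i)
    · simpa only [S.c12, S.c23] using h
    · simpa only [S.c12, S.c23] using h3
  apply Finset.card_pos.2
  refine ⟨v, ?_⟩
  rw [mem_Pt]
  refine ⟨h1, by simpa only [S.c12, S.c23] using h3, hco, ?_⟩
  rcases Nat.lt_or_ge (S.co k j v) 2 with h6 | h6
  · omega
  · exfalso
    have : v ∈ S.Tt j i k := by
      rw [mem_Tt]
      exact ⟨h1, h3, h6, hco⟩
    rw [h0] at this
    exact absurd this (Finset.notMem_empty _)

theorem side_none_act {i j k : V} (h : S.E i j k) (h0 : S.Tt i j k = ∅)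
    (hj : S.Act j i k) (hk : S.Act k i j) : 3 / 4 ≤ S.Side i j k := by
  have h1 := S.side_none h0
  have hjik : S.E j i k := by simpa only [S.c12, S.c23] using h
  have hkij : S.E k i j := by simpa only [S.c12, S.c23] using h
  have p1 := S.act_side hkij hk (by rw [S.Tt_comm]; exact h0)
  have p2 := S.act_side hjik hj h0
  have := n2 (S.Pt i j k).card (S.Pt i k j).card p1 p2
  linarith

theorem third_of_TT {i j k w v : V} (h : S.E i j k) (hw : w ∈ S.Tt i j k) (hv : v ∈ S.Tt j i k)
    (he : S.E k w v) : S.Third i j k w v := by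
  obtain ⟨x, hx⟩ := S.exists_third h hw
  rw [mem_Tt] at hw hv
  rcases S.third_nbr_k h hw.1 hx (x := v) (by simpa only [S.c12, S.c23] using hv.2.1) he with h' | h'
  · exact absurd h' hv.1
  · rw [h']; exact hx

/-- facts from a pair of adjacent triangle-type elements -/
theorem TT_single_i {i j k w v : V} (h : S.E i j k) (hw : w ∈ S.Tt i j k) (hv : v ∈ S.Tt j i k)
    (he : S.E k w v) (hn : ¬ S.E j k v) : S.Tt i j k = {w} := by
  have hjik : S.E j i k := by simpa only [S.c12, S.c23] using h
  have t1 := S.third_of_TT h hw hv he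
  have t2 := S.third_of_TT hjik hv hw (by simpa only [S.c12, S.c23] using he)
  have hw0 := hw
  have hv0 := hv
  rw [mem_Tt] at hw0 hv0
  ext x
  rw [Finset.mem_singleton]
  constructor
  · intro hx
    obtain ⟨y, hy⟩ := S.exists_third h hx
    rw [mem_Tt] at hx
    by_cases hvy : v = y
    · subst hvy
      have := S.third_nbr_k hjik hv0.1 t2 (x := x) (by simpa only [S.c12, S.c23] using hx.2.1)
        (by simpa only [S.c12, S.c23] using hy.2.2.2.2.2)
      rcases this with h' | h'
      · exact absurd h' hx.1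
      · exact h'
    · exfalso
      have := S.third_pair h hw0.1 hx.1 t1 hy hvy
      apply hn
      rw [this.2]
      exact hx.2.1
  · rintro rfl; exact hw

theorem TT_single_j {i j k w v : V} (h : S.E i j k) (hw : w ∈ S.Tt i j k) (hv : v ∈ S.Tt j i k)
    (he : S.E k w v) (hn : ¬ S.E j k v) : S.Tt j i k = {v} := by
  have hjik : S.E j i k := by simpa only [S.c12, S.c23] using h
  have t1 := S.third_of_TT h hw hv he
  have t2 := S.third_of_TT hjik hv hw (by simpa only [S.c12, S.c23] using he)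
  have hw0 := hw
  have hv0 := hv
  rw [mem_Tt] at hw0 hv0
  ext x
  rw [Finset.mem_singleton]
  constructor
  · intro hx
    obtain ⟨y, hy⟩ := S.exists_third hjik hx
    rw [mem_Tt] at hx
    by_cases hvy : w = y
    · subst hvy
      have := S.third_nbr_k h hw0.1 t1 (x := x) (by simpa only [S.c12, S.c23] using hx.2.1)
        (by simpa only [S.c12, S.c23] using hy.2.2.2.2.2)
      rcases this with h' | h'
      · exact absurd h' hx.1
      · exact h'
    · exfalso
      have := S.third_pair hjik hv0.1 hx.1 t2 hy hvy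
      -- y = v, w = x
      apply hn
      have h3 := hy.2.2.2.1
      rw [this.1] at h3
      exact h3
  · rintro rfl; exact hv

theorem TT_side_i {i j k w v : V} (h : S.E i j k) (hw : w ∈ S.Tt i j k) (hv : v ∈ S.Tt j i k)
    (he : S.E k w v) (hn : ¬ S.E j k v) : 2 / 3 ≤ S.Side i j k := by
  have hjik : S.E j i k := by simpa only [S.c12, S.c23] using h
  have t1 := S.third_of_TT h hw hv he
  have t2 := S.third_of_TT hjik hv hw (by simpa only [S.c12, S.c23] using he)
  apply S.side_tt h (S.TT_single_i h hw hv he hn) t1 _ (S.Tt_not_Pt hv)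
  right; right; left
  exact ⟨by simpa only [S.c12, S.c23] using t2.2.2.1, by simpa only [S.c12, S.c23] using t2.2.2.2.2.1⟩

theorem TT_side_j {i j k w v : V} (h : S.E i j k) (hw : w ∈ S.Tt i j k) (hv : v ∈ S.Tt j i k)
    (he : S.E k w v) (hn : ¬ S.E j k v) : 2 / 3 ≤ S.Side j i k := by
  have hjik : S.E j i k := by simpa only [S.c12, S.c23] using h
  have t1 := S.third_of_TT h hw hv he
  have t2 := S.third_of_TT hjik hv hw (by simpa only [S.c12, S.c23] using he)
  apply S.side_tt hjik (S.TT_single_j h hw hv he hn) t2 _ (S.Tt_not_Pt hw)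
  right; right; left
  exact ⟨by simpa only [S.c12, S.c23] using t1.2.2.1, by simpa only [S.c12, S.c23] using t1.2.2.2.2.1⟩

/-- case C9 -/
theorem TT_c9 {i j k w v : V} (h : S.E i j k) (hw : w ∈ S.Tt i j k) (hv : v ∈ S.Tt j i k)
    (he : S.E k w v) (hn : ¬ S.E j k v) (hy : S.E i k w) : 2 ≤ S.f i j k := by
  have hjik : S.E j i k := by simpa only [S.c12, S.c23] using h
  have hkij : S.E k i j := by simpa only [S.c12, S.c23] using h
  have t1 := S.third_of_TT h hw hv he
  have t2 := S.third_of_TT hjik hv hw (by simpa only [S.c12, S.c23] using he)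
  have s1 := S.TT_side_i h hw hv he hn
  have s2 := S.TT_side_j h hw hv he hn
  have hw0 := hw
  have hv0 := hv
  rw [mem_Tt] at hw0 hv0
  have hvk : v ≠ k := t1.2.1
  have hwk : w ≠ k := t2.2.1
  have hwj : w ≠ j := (S.ne13 hw0.2.1).symm
  have t3 : S.Third k i j v w := by
    refine ⟨t2.1, hwj, ?_, ?_, ?_, ?_⟩
    · simpa only [S.c12, S.c23] using hy
    · simpa only [S.c12, S.c23] using t2.2.2.2.1
    · simpa only [S.c12, S.c23] using t2.2.2.2.2.1
    · simpa only [S.c12, S.c23] using t1.2.2.2.2.1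
  have hvT : v ∈ S.Tt k i j := S.mem_Tt_of_third hkij hvk
    (by simpa only [S.c12, S.c23] using t1.2.2.1) t3
  have hT : S.Tt k i j = {v} := by
    ext x
    rw [Finset.mem_singleton]
    constructor
    · intro hx
      obtain ⟨y, hy'⟩ := S.exists_third hkij hx
      rw [mem_Tt] at hx
      by_cases hwy : w = y
      · subst hwy
        have := S.third_nbr_j h hw0.1 t1 (x := x) (by simpa only [S.c12, S.c23] using hx.2.1)
          (by simpa only [S.c12, S.c23] using hy'.2.2.2.2.2)
        rcases this with h' | h'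
        · exact absurd h' hx.1
        · exact h'
      · exfalso
        have := S.third_pair hkij hvk hx.1 t3 hy' hwy
        apply hn
        have h3 := hy'.2.2.2.1
        rw [this.1] at h3
        simpa only [S.c12, S.c23] using h3
    · rintro rfl; exact hvT
  have s3 : 2 / 3 ≤ S.Side k i j := by
    apply S.side_tt hkij hT t3
    · right; right; left
      exact ⟨by simpa only [S.c12, S.c23] using t1.2.2.2.1,
        by simpa only [S.c12, S.c23] using t1.2.2.2.2.2⟩
    · exact S.Tt_not_Pt' hw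
  have := S.f_ge_sides h
  linarith

/-- case C8 -/
theorem TT_c8 {i j k w v : V} (h : S.E i j k) (hw : w ∈ S.Tt i j k) (hv : v ∈ S.Tt j i k)
    (he : S.E k w v) (hn : ¬ S.E j k v) (hn' : ¬ S.E i k w) (ai : S.Act i j k) (aj : S.Act j i k) :
    2 ≤ S.f i j k := by
  have hjik : S.E j i k := by simpa only [S.c12, S.c23] using h
  have hkij : S.E k i j := by simpa only [S.c12, S.c23] using h
  have t1 := S.third_of_TT h hw hv he
  have t2 := S.third_of_TT hjik hv hw (by simpa only [S.c12, S.c23] using he)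
  have s1 := S.TT_side_i h hw hv he hn
  have s2 := S.TT_side_j h hw hv he hn
  have hw0 := hw
  have hv0 := hv
  rw [mem_Tt] at hw0 hv0
  have hvk : v ≠ k := t1.2.1
  have hwk : w ≠ k := t2.2.1
  have hT : S.Tt k i j = ∅ := by
    apply Finset.eq_empty_of_forall_notMem
    intro x hx
    obtain ⟨y, hy⟩ := S.exists_third hkij hx
    have hval := S.val i j k y v w (S.ne12 h)
      (by simpa only [S.c12, S.c23] using hy.2.2.1) (by simpa only [S.c12, S.c23] using hy.2.2.2.1)
      (by simpa only [S.c12, S.c23] using t2.2.2.2.2.1) (by simpa only [S.c12, S.c23] using t1.2.2.2.2.1)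
    rcases hval with h' | h' | h' | h'
    · exact hvk h'.symm
    · exact hwk h'.symm
    · apply hn
      have := hy.2.2.2.1
      rw [h'] at this
      simpa only [S.c12, S.c23] using this
    · apply hn'
      have := hy.2.2.1
      rw [h'] at this
      simpa only [S.c12, S.c23] using this
  have s3 : 3 / 4 ≤ S.Side k i j :=
    S.side_none_act hkij hT (S.Act_comm ai) (S.Act_comm aj)
  have := S.f_ge_sides h
  linarith

/-- case C10 -/
theorem TT_c10 {i j k w v : V} (h : S.E i j k) (hw : w ∈ S.Tt i j k) (hv : v ∈ S.Tt j i k)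
    (he : S.E k w v) (hy : S.E j k v) (hy' : S.E i k w) : 2 ≤ S.f i j k := by
  have hjik : S.E j i k := by simpa only [S.c12, S.c23] using h
  have hkij : S.E k i j := by simpa only [S.c12, S.c23] using h
  have t1 := S.third_of_TT h hw hv he
  have t2 := S.third_of_TT hjik hv hw (by simpa only [S.c12, S.c23] using he)
  have hw0 := hw
  have hv0 := hv
  rw [mem_Tt] at hw0 hv0
  have hvk : v ≠ k := t1.2.1
  have hwk : w ≠ k := t2.2.1
  have hwj : w ≠ j := (S.ne13 hw0.2.1).symm
  have hvi : v ≠ i := (S.ne13 hv0.2.1).symm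
  have hwv : w ≠ v := S.ne23 he
  obtain ⟨_, _, a1, a2, a3, a4⟩ := t1
  obtain ⟨_, _, b1, b2, b3, b4⟩ := t2
  have hijw : S.E i j w := by simpa only [S.c12, S.c23] using b1
  have t1 : S.Third i j k w v := ⟨hv0.1, hvk, a1, a2, a3, a4⟩
  have t2 : S.Third j i k v w := ⟨hw0.1, hwk, b1, b2, b3, b4⟩
  have t3 : S.Third i j k v w := ⟨hwj, hwk, hijw, hy', by simpa only [S.c12, S.c23] using a3,
    by simpa only [S.c12, S.c23] using a4⟩
  have t4 : S.Third j i k w v := ⟨hvi, hvk, by simpa only [S.c12, S.c23] using a1, hy,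
    by simpa only [S.c12, S.c23] using b3, by simpa only [S.c12, S.c23] using b4⟩
  have t5 : S.Third k i j v w := ⟨hw0.1, hwj, by simpa only [S.c12, S.c23] using hy',
    by simpa only [S.c12, S.c23] using hw0.2.1, b3, by simpa only [S.c12, S.c23] using a3⟩
  have t6 : S.Third k i j w v := ⟨hvi, hv0.1, by simpa only [S.c12, S.c23] using a2,
    by simpa only [S.c12, S.c23] using hy, by simpa only [S.c12, S.c23] using b3, a3⟩
  have m1 : v ∈ S.Tt i j k := S.mem_Tt_of_third h hvi hy t3
  have m2 : w ∈ S.Tt j i k := S.mem_Tt_of_third hjik hwj hy' t4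
  have m3 : v ∈ S.Tt k i j := S.mem_Tt_of_third hkij hvk a1 t5
  have m4 : w ∈ S.Tt k i j := S.mem_Tt_of_third hkij hwk hijw t6
  have s1 : 2 / 3 ≤ S.Side i j k := S.side_tt2 h hw m1 t1 t3 hwv (S.Tt_not_Pt m2) (S.Tt_not_Pt hv)
    (S.Tt_not_Pt m4) (S.Tt_not_Pt m3)
  have s2 : 2 / 3 ≤ S.Side j i k := S.side_tt2 hjik m2 hv t4 t2 hwv (S.Tt_not_Pt hw) (S.Tt_not_Pt m1)
    (S.Tt_not_Pt' m4) (S.Tt_not_Pt' m3)
  have s3 : 2 / 3 ≤ S.Side k i j := S.side_tt2 hkij m4 m3 t6 t5 hwv (S.Tt_not_Pt' hw) (S.Tt_not_Pt' m1)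
    (S.Tt_not_Pt' m2) (S.Tt_not_Pt' hv)
  have := S.f_ge_sides h
  linarith

theorem TT_all {i j k w v : V} (h : S.E i j k) (hw : w ∈ S.Tt i j k) (hv : v ∈ S.Tt j i k)
    (he : S.E k w v) (ai : S.Act i j k) (aj : S.Act j i k) : 2 ≤ S.f i j k := by
  by_cases h1 : S.E j k v
  · by_cases h2 : S.E i k w
    · exact S.TT_c10 h hw hv he h1 h2
    · rw [S.f_comm]
      exact S.TT_c9 (by simpa only [S.c12, S.c23] using h) hv hw (by simpa only [S.c12, S.c23] using he) h2 h1
  · by_cases h2 : S.E i k w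
    · exact S.TT_c9 h hw hv he h1 h2
    · exact S.TT_c8 h hw hv he h1 h2 ai aj

end Sys

end Pool.Agent.Helper660.FU
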