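import Pool.Agent.Helper660.FU.Share

set_option autoImplicit false

namespace Pool.Agent.Helper660.FU

open Finset

variable {V : Type} (S : Sys V)

namespace Sys

variable [Fintype V]

noncomputable def ak (i j k : V) : ℝ :=
  if (S.Pt i j k).card = 0 then
    ∑ v ∈ S.Zt i j k, 1 / (S.co k j v : ℝ) - ((S.Zt i j k).card : ℝ) / (1 + (S.Zt i j k).card)
  else ph (S.Pt i j k).card
    - ∑ v ∈ S.Zt i j k, (1 / (1 + ((S.Pt i j k).card : ℝ)) - 1 / (S.co k j v : ℝ))

theorem Zt_sub (i j k : V) : S.Zt i j k ⊆ S.Pt j i k := by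
  intro v hv
  rw [mem_Zt] at hv
  exact hv.1

theorem Hs_nonneg (i j k : V) : 0 ≤ S.Hs i j k := by
  unfold Hs
  apply Finset.sum_nonneg
  intro w _
  positivity

theorem Hs_lower {i j k : V} (h : S.E i j k) :
    ((S.Pt j i k).card : ℝ) / (1 + (S.Pt i j k).card)
      - ∑ v ∈ S.Zt i j k, (1 / (1 + ((S.Pt i j k).card : ℝ)) - 1 / (S.co k j v : ℝ))
      ≤ S.Hs j i k := by
  classical
  unfold Hs
  rw [← Finset.sum_sdiff (S.Zt_sub i j k)]
  have h1 : ∀ v ∈ S.Pt j i k \ S.Zt i j k, 1 / (1 + ((S.Pt i j k).card : ℝ)) ≤ 1 / (S.co k j v : ℝ) := by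
    intro v hv
    rw [Finset.mem_sdiff] at hv
    have hle := S.coPt_le h hv.1 hv.2
    have h2 := hv.1
    rw [mem_Pt] at h2
    apply inv_le_cast (by omega)
    exact_mod_cast hle
  have h2 := Finset.sum_le_sum h1
  rw [Finset.sum_const, nsmul_eq_mul] at h2
  have h3 : ((S.Pt j i k \ S.Zt i j k).card : ℝ) = (S.Pt j i k).card - (S.Zt i j k).card := by
    rw [Finset.card_sdiff_of_subset (S.Zt_sub i j k)]
    rw [Nat.cast_sub (Finset.card_le_card (S.Zt_sub i j k))]
  rw [h3] at h2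
  rw [Finset.sum_sub_distrib, Finset.sum_const, nsmul_eq_mul]
  have h4 : ((S.Pt j i k).card : ℝ) / (1 + (S.Pt i j k).card)
      = ((S.Pt j i k).card : ℝ) * (1 / (1 + (S.Pt i j k).card)) := by ring
  rw [h4]
  linarith

theorem Pt_eq_Zt {i j k : V} (h : S.E i j k) (h0 : (S.Pt i j k).card = 0) :
    S.Zt i j k = S.Pt j i k := by
  apply Finset.Subset.antisymm (S.Zt_sub i j k)
  intro v hv
  by_contra hz
  have hle := S.coPt_le h hv hz
  rw [mem_Pt] at hv
  omega

theorem Zt_empty_of_Pt {i j k : V} (h0 : (S.Pt i j k).card = 0) : S.Zt j i k = ∅ := by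
  have := S.Zt_sub j i k
  rw [Finset.card_eq_zero.1 h0] at this
  exact Finset.subset_empty.1 this

theorem center_aux {i j k : V} (h : S.E i j k) (h0 : (S.Pt i j k).card = 0) :
    S.ak i j k + S.ak j i k ≤ S.Hs i j k + S.Hs j i k := by
  have e1 := S.Pt_eq_Zt h h0
  have e2 := S.Zt_empty_of_Pt h0
  have e3 : S.ak i j k = S.Hs j i k - ((S.Pt j i k).card : ℝ) / (1 + (S.Pt j i k).card) := by
    unfold ak Hs
    rw [if_pos h0, e1]
  have e4 : S.ak j i k = ((S.Pt j i k).card : ℝ) / (1 + (S.Pt j i k).card) := by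
    unfold ak
    rw [e2]
    split_ifs with h1
    · rw [h1]; simp
    · simp [ph]
  have := S.Hs_nonneg i j k
  rw [e3, e4]
  linarith

theorem center {i j k : V} (h : S.E i j k) :
    S.ak i j k + S.ak j i k ≤ S.Hs i j k + S.Hs j i k := by
  by_cases h0 : (S.Pt i j k).card = 0
  · exact S.center_aux h h0
  by_cases h1 : (S.Pt j i k).card = 0
  · have := S.center_aux (S.s1 _ _ _ h) h1
    linarith
  have a1 := S.Hs_lower h
  have a2 := S.Hs_lower (S.s1 _ _ _ h)
  have a3 := n1 (S.Pt i j k).card (S.Pt j i k).card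
  unfold ak
  rw [if_neg h0, if_neg h1]
  linarith

theorem sigma_aux (x : ℝ) (hx : 1 ≤ x) (s : ℕ) : 1 / x ≤ 1 / (x + s) + (s : ℝ) / 2 := by
  rcases Nat.eq_zero_or_pos s with h | h
  · subst h; simp
  have hs : (1 : ℝ) ≤ s := by exact_mod_cast h
  rw [← sub_nonneg]
  have : 1 / (x + s) + (s : ℝ) / 2 - 1 / x = (s * (x * (x + s) - 2)) / (2 * x * (x + s)) := by
    have : x ≠ 0 := by positivity
    have : x + s ≠ 0 := by positivity
    field_simp
    ring
  rw [this]
  apply div_nonneg _ (by positivity)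
  apply mul_nonneg (by positivity)
  nlinarith

theorem W_lower (i j k : V) :
    1 / (1 + ((S.Pt i j k).card : ℝ) + (S.Pt i k j).card + (S.Tt i j k).card) + S.TS i j k
      ≤ S.W i j k := by
  unfold W
  have := sigma_aux (1 + ((S.Pt i j k).card : ℝ) + (S.Pt i k j).card + (S.Tt i j k).card)
    (by have h1 : (0 : ℝ) ≤ (S.Pt i j k).card := by positivity
        have h2 : (0 : ℝ) ≤ (S.Pt i k j).card := by positivity
        have h3 : (0 : ℝ) ≤ (S.Tt i j k).card := by positivity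
        linarith) (S.St i j k).card
  linarith

/-- the estimate used when the centre i is inactive -/
theorem J_lower {i j k : V} (h : S.E i j k) (h1 : S.Pt j k i = ∅) (h2 : S.Tt j i k = ∅) :
    1 - (∑ v ∈ S.Zt i j k, (1 / (1 + ((S.Pt i j k).card : ℝ)) - 1 / (S.co k j v : ℝ))) / 2
      ≤ S.W j i k + (S.Hs i j k + S.Hs j i k) / 2 := by
  have w := S.W_lower j i k
  have hTS : S.TS j i k = 0 := by unfold TS; rw [h2]; simp
  rw [h1, h2, hTS] at w
  simp only [card_empty, Nat.cast_zero, add_zero] at w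
  have a1 := S.Hs_lower h
  have a2 := S.Hs_lower (S.s1 _ _ _ h)
  have hZ : S.Zt j i k = ∅ := by
    apply Finset.eq_empty_of_forall_notMem
    intro v hv
    rw [mem_Zt] at hv
    obtain ⟨_, w, hw, _⟩ := hv
    rw [h2] at hw
    exact absurd hw (Finset.notMem_empty _)
  rw [hZ] at a2
  simp only [Finset.sum_empty, sub_zero] at a2
  have a3 := n0 (S.Pt i j k).card (S.Pt j i k).card
  have e : (((S.Pt i j k).card : ℝ) + 2) / (1 + (S.Pt j i k).card)
      = ((S.Pt i j k).card : ℝ) / (1 + (S.Pt j i k).card) + 2 * (1 / (1 + ((S.Pt j i k).card : ℝ))) := by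
    ring
  rw [e] at a3
  linarith

end Sys

end Pool.Agent.Helper660.FU
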