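import Pool.Agent.Helper660.FU.CaseA

set_option autoImplicit false

namespace Pool.Agent.Helper660.FU

open Finset

variable {V : Type} (S : Sys V)

namespace Sys

variable [Fintype V]

open Classical in
/-- common link graph of i and w, as ordered pairs -/
noncomputable def FF (i w : V) : Finset (V × V) :=
  univ.filter (fun p => S.E i p.1 p.2 ∧ S.E w p.1 p.2)

theorem mem_FF (i w : V) (p : V × V) : p ∈ S.FF i w ↔ S.E i p.1 p.2 ∧ S.E w p.1 p.2 := by
  unfold FF; simp

theorem third_ne {i j k w v : V} (ht : S.Third i j k w v) : i ≠ v ∧ w ≠ v :=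
  ⟨S.ne13 ht.2.2.1, S.ne13 ht.2.2.2.2.1⟩

/-- the pairs in the common link when there is a triangle -/
theorem FF_triangle {i j k w v : V} [DecidableEq V] (h : S.E i j k) (hwi : w ≠ i)
    (hjkw : S.E j k w) (ht : S.Third i j k w v) :
    S.FF i w = {(j, k), (k, j), (j, v), (v, j), (k, v), (v, k)} := by
  have hvj := ht.1
  have hvk := ht.2.1
  have hjk : j ≠ k := S.ne23 h
  have hwjk : S.E w j k := by simpa only [S.c12, S.c23] using hjkw
  ext ⟨a, b⟩
  rw [mem_FF]
  simp only [Finset.mem_insert, Finset.mem_singleton, Prod.mk.injEq]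
  constructor
  · rintro ⟨h1, h2⟩
    have hab : a ≠ b := S.ne23 h1
    have v1 := S.val i w a b j k hwi.symm h1 h2 h hwjk
    have v2 := S.val i w a b j v hwi.symm h1 h2 ht.2.2.1 ht.2.2.2.2.1
    have v3 := S.val i w a b k v hwi.symm h1 h2 ht.2.2.2.1 ht.2.2.2.2.2
    rcases v1 with r | r | r | r
    · subst r
      rcases v3 with r | r | r | r
      · exact absurd r hjk
      · exact absurd r.symm hvj
      · subst r; tauto
      · subst r; tauto
    · subst r
      rcases v2 with r | r | r | r
      · exact absurd r.symm hjk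
      · exact absurd r.symm hvk
      · subst r; tauto
      · subst r; tauto
    · subst r
      rcases v3 with r | r | r | r
      · subst r; tauto
      · subst r; tauto
      · exact absurd r hjk
      · exact absurd r.symm hvj
    · subst r
      rcases v2 with r | r | r | r
      · subst r; tauto
      · subst r; tauto
      · exact absurd r.symm hjk
      · exact absurd r.symm hvk
  · have e1 := ht.2.2.1
    have e2 := ht.2.2.2.1
    have e3 := ht.2.2.2.2.1
    have e4 := ht.2.2.2.2.2
    rintro (⟨r1, r2⟩ | ⟨r1, r2⟩ | ⟨r1, r2⟩ | ⟨r1, r2⟩ | ⟨r1, r2⟩ | ⟨r1, r2⟩) <;> subst r1 <;> subst r2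
    · exact ⟨h, hwjk⟩
    · exact ⟨S.s2 _ _ _ h, S.s2 _ _ _ hwjk⟩
    · exact ⟨e1, e3⟩
    · exact ⟨S.s2 _ _ _ e1, S.s2 _ _ _ e3⟩
    · exact ⟨e2, e4⟩
    · exact ⟨S.s2 _ _ _ e2, S.s2 _ _ _ e4⟩

theorem sum_triangle {i j k w v : V} (h : S.E i j k) (hwi : w ≠ i)
    (hjkw : S.E j k w) (ht : S.Third i j k w v) :
    ∑ p ∈ S.FF i w, S.sh i w p.1 p.2 ≤ 1 := by
  classical
  have hvj := ht.1
  have hvk := ht.2.1
  have hjk : j ≠ k := S.ne23 h
  have hwjk : S.E w j k := by simpa only [S.c12, S.c23] using hjkw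
  obtain ⟨hiv, hwv⟩ := S.third_ne ht
  have hij := S.ne12 h
  have hik := S.ne13 h
  have hwj := S.ne12 hwjk
  have hwk := S.ne13 hwjk
  have e1 := ht.2.2.1
  have e2 := ht.2.2.2.1
  have e3 := ht.2.2.2.2.1
  have e4 := ht.2.2.2.2.2
  have m1 : w ∈ S.Tt i j k := S.mem_Tt_of_third h hwi hjkw ht
  have t2 : S.Third i j v w k := ⟨hjk.symm, hvk.symm, h, S.s2 _ _ _ e2, hwjk, S.s2 _ _ _ e4⟩
  have m2 : w ∈ S.Tt i j v := S.mem_Tt_of_third e1 hwi (by simpa only [S.c12, S.c23] using e3) t2
  have t3 : S.Third i k v w j := ⟨hjk, hvj.symm, S.s2 _ _ _ h, S.s2 _ _ _ e1, S.s2 _ _ _ hwjk,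
    S.s2 _ _ _ e3⟩
  have m3 : w ∈ S.Tt i k v := S.mem_Tt_of_third e2 hwi (by simpa only [S.c12, S.c23] using e4) t3
  have s1 := S.sh_eq h m1 ht
  have s2 := S.sh_eq e1 m2 t2
  have s3 := S.sh_eq e2 m3 t3
  rw [S.FF_triangle h hwi hjkw ht]
  rw [Finset.sum_insert (by simp [hjk, hvj.symm, hvk.symm, hvk, hvj, hjk.symm]),
    Finset.sum_insert (by simp [hjk, hvj.symm, hvk.symm, hvk, hvj, hjk.symm]),
    Finset.sum_insert (by simp [hjk, hvj.symm, hvk.symm, hvk, hvj, hjk.symm]),
    Finset.sum_insert (by simp [hjk, hvj.symm, hvk.symm, hvk, hvj, hjk.symm]),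
    Finset.sum_insert (by simp [hjk, hvj.symm, hvk.symm, hvk, hvj, hjk.symm]),
    Finset.sum_singleton]
  simp only
  rw [S.sh_comm i w k j, S.sh_comm i w v j, S.sh_comm i w v k, s1, s2, s3]
  by_cases hc : S.Cond i w j k v
  · have hc2 : S.Cond i w j v k := (S.Cond_comm' _ _ _ _ _).1 hc
    have hc3 : S.Cond i w k v j := (S.Cond_comm' _ _ _ _ _).1 ((S.Cond_comm _ _ _ _ _).1 hc)
    rw [S.bt_cond hc, S.bt_cond hc2, S.bt_cond hc3]
    norm_num
  · have hc2 : ¬ S.Cond i w j v k := fun hh => hc ((S.Cond_comm' _ _ _ _ _).1 hh)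
    have hc3 : ¬ S.Cond i w k v j := fun hh =>
      hc ((S.Cond_comm _ _ _ _ _).1 ((S.Cond_comm' _ _ _ _ _).1 hh))
    rw [S.bt_need hc, S.bt_need hc2, S.bt_need hc3]
    have a1 : 2 ≤ S.co j k v := by
      apply S.two_le_co hwi.symm
      · simpa only [S.c12, S.c23] using h
      · simpa only [S.c12, S.c23] using e1
      · simpa only [S.c12, S.c23] using hwjk
      · simpa only [S.c12, S.c23] using e3
    have a2 : 2 ≤ S.co k j v := by
      apply S.two_le_co hwi.symm
      · simpa only [S.c12, S.c23] using h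
      · simpa only [S.c12, S.c23] using e2
      · simpa only [S.c12, S.c23] using hwjk
      · simpa only [S.c12, S.c23] using e4
    have a3 : 2 ≤ S.co v j k := by
      apply S.two_le_co hwi.symm
      · simpa only [S.c12, S.c23] using e1
      · simpa only [S.c12, S.c23] using e2
      · simpa only [S.c12, S.c23] using e3
      · simpa only [S.c12, S.c23] using e4
    rw [S.co_symm j v k, S.co_symm k v j, S.co_symm v k j]
    have := need_sum (S.co j k v) (S.co k j v) (S.co v j k) a1 a2 a3
    linarith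

theorem FF_card {i j k w : V} (hwi : w ≠ i) (h : S.E i j k) (h' : S.E w j k)
    (h1 : S.co k i w < 2) : (S.FF i w).card ≤ 2 * S.co j i w := by
  classical
  have hsub : S.FF i w ⊆
      ((univ.filter (fun x => S.E j i x ∧ S.E j w x)).image (fun x => (j, x))) ∪
      ((univ.filter (fun x => S.E j i x ∧ S.E j w x)).image (fun x => (x, j))) := by
    rintro ⟨a, b⟩ hab
    rw [mem_FF] at hab
    obtain ⟨p1, p2⟩ := hab
    simp only at p1 p2
    have hv := S.val i w a b j k hwi.symm p1 p2 h h'
    -- either a or b equals j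
    have key : a = j ∨ b = j := by
      rcases hv with r | r | r | r
      · exact Or.inl r
      · right
        subst r
        by_contra hne
        have := S.two_le_co (k := a) (a := i) (b := w) (x := b) (y := j) hne
          (by simpa only [S.c12, S.c23] using p1) (by simpa only [S.c12, S.c23] using p2)
          (by simpa only [S.c12, S.c23] using h) (by simpa only [S.c12, S.c23] using h')
        omega
      · exact Or.inr r
      · left
        subst r
        by_contra hne
        have := S.two_le_co (k := b) (a := i) (b := w) (x := a) (y := j) hne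
          (by simpa only [S.c12, S.c23] using p1) (by simpa only [S.c12, S.c23] using p2)
          (by simpa only [S.c12, S.c23] using h) (by simpa only [S.c12, S.c23] using h')
        omega
    rw [Finset.mem_union]
    rcases key with r | r
    · left
      subst r
      rw [Finset.mem_image]
      refine ⟨b, ?_, rfl⟩
      rw [Finset.mem_filter]
      exact ⟨Finset.mem_univ _, by simpa only [S.c12, S.c23] using p1,
        by simpa only [S.c12, S.c23] using p2⟩
    · right
      subst r
      rw [Finset.mem_image]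
      refine ⟨a, ?_, rfl⟩
      rw [Finset.mem_filter]
      exact ⟨Finset.mem_univ _, by simpa only [S.c12, S.c23] using p1,
        by simpa only [S.c12, S.c23] using p2⟩
  have h2 := Finset.card_le_card hsub
  have h3 := Finset.card_union_le
    ((univ.filter (fun x => S.E j i x ∧ S.E j w x)).image (fun x => (j, x)))
    ((univ.filter (fun x => S.E j i x ∧ S.E j w x)).image (fun x => (x, j)))
  have h4 := Finset.card_image_le (s := univ.filter (fun x => S.E j i x ∧ S.E j w x))
    (f := fun x => (j, x))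
  have h5 := Finset.card_image_le (s := univ.filter (fun x => S.E j i x ∧ S.E j w x))
    (f := fun x => (x, j))
  have h6 : (univ.filter (fun x => S.E j i x ∧ S.E j w x)).card = S.co j i w := rfl
  omega

theorem sum_star {i w : V} (hwi : w ≠ i)
    (hno : ∀ p ∈ S.FF i w, ¬ (2 ≤ S.co p.2 i w ∧ 2 ≤ S.co p.1 i w)) :
    ∑ p ∈ S.FF i w, S.sh i w p.1 p.2 ≤ 1 := by
  rcases Nat.eq_zero_or_pos (S.FF i w).card with h0 | h0
  · rw [Finset.card_eq_zero.1 h0]
    simp
  have key : ∀ p ∈ S.FF i w, S.sh i w p.1 p.2 ≤ 1 / ((S.FF i w).card : ℝ) := by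
    intro p hp
    have hn := hno p hp
    rw [mem_FF] at hp
    unfold sh
    rw [if_neg hn]
    have hle : (S.FF i w).card ≤ 2 * max (S.co p.2 i w) (S.co p.1 i w) := by
      rcases Nat.lt_or_ge (S.co p.2 i w) 2 with h1 | h1
      · have := S.FF_card hwi hp.1 hp.2 h1
        have h2 := le_max_right (S.co p.2 i w) (S.co p.1 i w)
        omega
      · have h2 : S.co p.1 i w < 2 := by
          by_contra h3
          exact hn ⟨h1, by omega⟩
        have := S.FF_card (j := p.2) (k := p.1) hwi (S.s2 _ _ _ hp.1) (S.s2 _ _ _ hp.2) h2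
        have h3 := le_max_left (S.co p.2 i w) (S.co p.1 i w)
        omega
    apply one_div_le_one_div_of_le
    · exact_mod_cast h0
    · exact_mod_cast hle
  have h1 := Finset.sum_le_sum key
  rw [Finset.sum_const, nsmul_eq_mul] at h1
  have h2 : ((S.FF i w).card : ℝ) * (1 / ((S.FF i w).card : ℝ)) = 1 := by
    have : ((S.FF i w).card : ℝ) ≠ 0 := by
      exact_mod_cast h0.ne'
    field_simp
  linarith

theorem sum_pairs {i w : V} (hwi : w ≠ i) : ∑ p ∈ S.FF i w, S.sh i w p.1 p.2 ≤ 1 := by
  by_cases hno : ∀ p ∈ S.FF i w, ¬ (2 ≤ S.co p.2 i w ∧ 2 ≤ S.co p.1 i w)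
  · exact S.sum_star hwi hno
  · rw [not_forall] at hno
    simp only [not_forall, not_not] at hno
    obtain ⟨⟨j, k⟩, hp, h1, h2⟩ := hno
    rw [mem_FF] at hp
    simp only at hp h1 h2
    have hjkw : S.E j k w := by simpa only [S.c12, S.c23] using hp.2
    have hw : w ∈ S.Tt i j k := by
      rw [mem_Tt]; exact ⟨hwi, hjkw, h1, h2⟩
    obtain ⟨v, hv⟩ := S.exists_third hp.1 hw
    exact S.sum_triangle hp.1 hwi hjkw hv

open Classical in
theorem sum_inv : ∑ i, ∑ j, ∑ k, (if S.E i j k then 1 / ((S.Nn j k).card : ℝ) else 0)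
    ≤ (Fintype.card V : ℝ) * ((Fintype.card V : ℝ) - 1) := by
  have h1 : ∑ i, ∑ j, ∑ k, (if S.E i j k then 1 / ((S.Nn j k).card : ℝ) else 0)
      = ∑ j, ∑ k, ∑ i, (if S.E i j k then 1 / ((S.Nn j k).card : ℝ) else 0) := by
    rw [Finset.sum_comm]
    apply Finset.sum_congr rfl
    intro j _
    rw [Finset.sum_comm]
  rw [h1]
  have h2 : ∀ j k : V, ∑ i, (if S.E i j k then 1 / ((S.Nn j k).card : ℝ) else 0)
      ≤ if j ≠ k then 1 else 0 := by
    intro j k
    by_cases hjk : j = k
    · subst hjk
      rw [if_neg (by simp)]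
      apply le_of_eq
      apply Finset.sum_eq_zero
      intro i _
      rw [if_neg]
      intro h
      exact S.ne23 h rfl
    · rw [if_pos hjk, ← Finset.sum_filter, Finset.sum_const, nsmul_eq_mul]
      have : (univ.filter (fun i => S.E i j k)) = S.Nn j k := by
        ext x
        rw [mem_Nn, Finset.mem_filter]
        constructor
        · rintro ⟨_, hx⟩; simpa only [S.c12, S.c23] using hx
        · intro hx; exact ⟨Finset.mem_univ _, by simpa only [S.c12, S.c23] using hx⟩
      rw [this]
      by_cases h0 : ((S.Nn j k).card : ℝ) = 0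
      · rw [h0]; norm_num
      · field_simp
        exact le_refl _
  refine (Finset.sum_le_sum (fun j _ => Finset.sum_le_sum (fun k _ => h2 j k))).trans ?_
  have h3 : ∀ j : V, ∑ k : V, (if j ≠ k then (1 : ℝ) else 0) = (Fintype.card V : ℝ) - 1 := by
    intro j
    rw [← Finset.sum_filter, Finset.sum_const, nsmul_eq_mul, mul_one]
    have : (univ.filter (fun k => j ≠ k)) = univ.erase j := by
      ext x; simp [eq_comm]
    rw [this, Finset.card_erase_of_mem (Finset.mem_univ _), Finset.card_univ]
    rw [Nat.cast_sub (Fintype.card_pos_iff.2 ⟨j⟩)]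
    simp
  simp only [h3]
  rw [Finset.sum_const, nsmul_eq_mul, Finset.card_univ]

open Classical in
theorem sum_shares : ∑ i, ∑ j, ∑ k, (if S.E i j k then ∑ w ∈ S.Ns i j k, S.sh i w j k else 0)
    ≤ (Fintype.card V : ℝ) * ((Fintype.card V : ℝ) - 1) := by
  have h1 : ∑ i, ∑ j, ∑ k, (if S.E i j k then ∑ w ∈ S.Ns i j k, S.sh i w j k else 0)
      = ∑ i, ∑ w, (if i ≠ w then ∑ p ∈ S.FF i w, S.sh i w p.1 p.2 else 0) := by
    apply Finset.sum_congr rfl
    intro i _
    have e1 : ∀ j k : V, (if S.E i j k then ∑ w ∈ S.Ns i j k, S.sh i w j k else 0)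
        = ∑ w, (if i ≠ w then (if S.E i j k ∧ S.E w j k then S.sh i w j k else 0) else 0) := by
      intro j k
      by_cases h : S.E i j k
      · rw [if_pos h]
        unfold Ns
        rw [Finset.sum_filter]
        apply Finset.sum_congr rfl
        intro w _
        by_cases hw : i = w
        · subst hw; simp
        · have hw' : w ≠ i := fun e => hw e.symm
          rw [if_pos hw]
          by_cases hw2 : S.E w j k
          · have hw3 : S.E j k w := by simpa only [S.c12, S.c23] using hw2
            rw [if_pos ⟨hw', hw3⟩, if_pos ⟨h, hw2⟩]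
          · have hw3 : ¬ S.E j k w := fun hh => hw2 (by simpa only [S.c12, S.c23] using hh)
            rw [if_neg (fun hh => hw3 hh.2), if_neg (fun hh => hw2 hh.2)]
      · rw [if_neg h]
        symm
        apply Finset.sum_eq_zero
        intro w _
        simp [h]
    simp only [e1]
    have e2 : ∀ w : V, (if i ≠ w then ∑ p ∈ S.FF i w, S.sh i w p.1 p.2 else 0)
        = ∑ j, ∑ k, (if i ≠ w then (if S.E i j k ∧ S.E w j k then S.sh i w j k else 0) else 0) := by
      intro w
      by_cases hw : i = w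
      · subst hw; simp
      · simp only [ne_eq, not_false_eq_true, hw, if_true]
        unfold FF
        rw [Finset.sum_filter, ← Finset.univ_product_univ, Finset.sum_product]
    simp only [e2]
    have e3 : ∀ j : V, ∑ k, ∑ w, (if i ≠ w then (if S.E i j k ∧ S.E w j k then S.sh i w j k else 0) else 0)
        = ∑ w, ∑ k, (if i ≠ w then (if S.E i j k ∧ S.E w j k then S.sh i w j k else 0) else 0) := by
      intro j; rw [Finset.sum_comm]
    simp only [e3]
    rw [Finset.sum_comm]
  rw [h1]
  have h2 : ∀ i w : V, (if i ≠ w then ∑ p ∈ S.FF i w, S.sh i w p.1 p.2 else 0)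
      ≤ if i ≠ w then (1 : ℝ) else 0 := by
    intro i w
    by_cases hw : i = w
    · subst hw; simp
    · rw [if_pos hw, if_pos hw]
      exact S.sum_pairs (fun e => hw e.symm)
  refine (Finset.sum_le_sum (fun j _ => Finset.sum_le_sum (fun k _ => h2 j k))).trans ?_
  have h3 : ∀ j : V, ∑ k : V, (if j ≠ k then (1 : ℝ) else 0) = (Fintype.card V : ℝ) - 1 := by
    intro j
    rw [← Finset.sum_filter, Finset.sum_const, nsmul_eq_mul, mul_one]
    have : (univ.filter (fun k => j ≠ k)) = univ.erase j := by
      ext x; simp [eq_comm]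
    rw [this, Finset.card_erase_of_mem (Finset.mem_univ _), Finset.card_univ]
    rw [Nat.cast_sub (Fintype.card_pos_iff.2 ⟨j⟩)]
    simp
  simp only [h3]
  rw [Finset.sum_const, nsmul_eq_mul, Finset.card_univ]

open Classical in
/-- number of ordered edges -/
noncomputable def Nord : ℝ := ∑ i, ∑ j, ∑ k, (if S.E i j k then (1 : ℝ) else 0)

open Classical in
theorem Nord_le : S.Nord ≤ 3 * ((Fintype.card V : ℝ) * ((Fintype.card V : ℝ) - 1)) := by
  have h1 : ∑ i, ∑ j, ∑ k, (if S.E i j k then S.g i j k else 0)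
      ≤ 2 * ((Fintype.card V : ℝ) * ((Fintype.card V : ℝ) - 1)) := by
    have e : ∀ i j k : V, (if S.E i j k then S.g i j k else 0)
        = (if S.E i j k then 1 / ((S.Nn j k).card : ℝ) else 0)
          + (if S.E i j k then ∑ w ∈ S.Ns i j k, S.sh i w j k else 0) := by
      intro i j k
      unfold g
      split_ifs
      · rfl
      · simp
    simp only [e, Finset.sum_add_distrib]
    have a1 := S.sum_inv
    have a2 := S.sum_shares
    linarith
  have c1 : ∑ i, ∑ j, ∑ k, (if S.E i j k then S.g j k i else 0)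
      = ∑ i, ∑ j, ∑ k, (if S.E i j k then S.g i j k else 0) := by
    -- (i,j,k) -> (j,k,i)
    have e1 : ∑ i, ∑ j, ∑ k, (if S.E i j k then S.g j k i else 0)
        = ∑ j, ∑ k, ∑ i, (if S.E i j k then S.g j k i else 0) := by
      rw [Finset.sum_comm]
      apply Finset.sum_congr rfl
      intro j _
      rw [Finset.sum_comm]
    rw [e1]
    apply Finset.sum_congr rfl; intro a _
    apply Finset.sum_congr rfl; intro b _
    apply Finset.sum_congr rfl; intro c _
    have : S.E c a b = S.E a b c := by simp only [S.c12, S.c23]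
    simp only [this]
  have c2 : ∑ i, ∑ j, ∑ k, (if S.E i j k then S.g k i j else 0)
      = ∑ i, ∑ j, ∑ k, (if S.E i j k then S.g i j k else 0) := by
    have e1 : ∑ i, ∑ j, ∑ k, (if S.E i j k then S.g k i j else 0)
        = ∑ k, ∑ i, ∑ j, (if S.E i j k then S.g k i j else 0) := by
      have : ∀ i : V, ∑ j, ∑ k, (if S.E i j k then S.g k i j else 0)
          = ∑ k, ∑ j, (if S.E i j k then S.g k i j else 0) := by
        intro i; rw [Finset.sum_comm]
      simp only [this]
      rw [Finset.sum_comm]
    rw [e1]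
    apply Finset.sum_congr rfl; intro a _
    apply Finset.sum_congr rfl; intro b _
    apply Finset.sum_congr rfl; intro c _
    have : S.E b c a = S.E a b c := by simp only [S.c12, S.c23]
    simp only [this]
  have h3 : 2 * S.Nord ≤ ∑ i, ∑ j, ∑ k, (if S.E i j k then S.f i j k else 0) := by
    unfold Nord
    rw [Finset.mul_sum]
    apply Finset.sum_le_sum; intro a _
    rw [Finset.mul_sum]
    apply Finset.sum_le_sum; intro b _
    rw [Finset.mul_sum]
    apply Finset.sum_le_sum; intro c _
    split_ifs with h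
    · have := S.local_ineq h
      linarith
    · simp
  have h4 : ∑ i, ∑ j, ∑ k, (if S.E i j k then S.f i j k else 0)
      = ∑ i, ∑ j, ∑ k, (if S.E i j k then S.g i j k else 0)
        + ∑ i, ∑ j, ∑ k, (if S.E i j k then S.g j k i else 0)
        + ∑ i, ∑ j, ∑ k, (if S.E i j k then S.g k i j else 0) := by
    simp only [← Finset.sum_add_distrib]
    apply Finset.sum_congr rfl; intro a _
    apply Finset.sum_congr rfl; intro b _
    apply Finset.sum_congr rfl; intro c _
    unfold f
    split_ifs
    · rfl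
    · simp
  rw [h4, c1, c2] at h3
  linarith

end Sys

end Pool.Agent.Helper660.FU
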