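import Pool.Agent.Helper660.FU.Global

set_option autoImplicit false

namespace Pool.Agent.Helper660.FU

open Finset

/-- the forbidden configuration -/
def Rep {W : Type} [DecidableEq W] (H : Finset (Finset W)) : Prop :=
  ∃ A ∈ H, ∃ B ∈ H, ∃ C ∈ H, ∃ D ∈ H,
    Disjoint A B ∧ Disjoint C D ∧ A ∪ B = C ∪ D ∧ A ≠ C ∧ A ≠ D

theorem rep_of {W : Type} [DecidableEq W] (H : Finset (Finset W)) {x y p q r s : W}
    (hxy : x ≠ y) (hxp : x ≠ p) (hxq : x ≠ q) (hyp : y ≠ p) (hyq : y ≠ q)
    (hxr : x ≠ r) (hxs : x ≠ s) (hyr : y ≠ r) (hys : y ≠ s)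
    (hpr : p ≠ r) (hps : p ≠ s) (hqr : q ≠ r) (hqs : q ≠ s)
    (h1 : {x, p, q} ∈ H) (h2 : {y, p, q} ∈ H) (h3 : {x, r, s} ∈ H) (h4 : {y, r, s} ∈ H) :
    Rep H := by
  refine ⟨{x, p, q}, h1, {y, r, s}, h4, {y, p, q}, h2, {x, r, s}, h3, ?_, ?_, ?_, ?_, ?_⟩
  · rw [Finset.disjoint_left]
    intro a ha hb
    simp only [Finset.mem_insert, Finset.mem_singleton] at ha hb
    rcases ha with rfl | rfl | rfl <;> rcases hb with rfl | rfl | rfl <;> contradiction
  · rw [Finset.disjoint_left]
    intro a ha hb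
    simp only [Finset.mem_insert, Finset.mem_singleton] at ha hb
    rcases ha with rfl | rfl | rfl <;> rcases hb with rfl | rfl | rfl <;> contradiction
  · ext a
    simp only [Finset.mem_union, Finset.mem_insert, Finset.mem_singleton]
    tauto
  · intro h
    have : x ∈ ({y, p, q} : Finset W) := by rw [← h]; simp
    simp only [Finset.mem_insert, Finset.mem_singleton] at this
    rcases this with h' | h' | h'
    · exact hxy h'
    · exact hxp h'
    · exact hxq h'
  · intro h
    have : p ∈ ({x, r, s} : Finset W) := by rw [← h]; simp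
    simp only [Finset.mem_insert, Finset.mem_singleton] at this
    rcases this with h' | h' | h'
    · exact hxp h'.symm
    · exact hpr h'
    · exact hps h'

/-- the ternary relation of a 3-uniform hypergraph -/
def sysOf {W : Type} [DecidableEq W] (H : Finset (Finset W)) (hH : ¬ Rep H) : Sys W where
  E a b c := a ≠ b ∧ a ≠ c ∧ b ≠ c ∧ {a, b, c} ∈ H
  s1 := by
    rintro a b c ⟨h1, h2, h3, h4⟩
    refine ⟨h1.symm, h3, h2, ?_⟩
    have : ({b, a, c} : Finset W) = {a, b, c} := by
      ext x; simp only [Finset.mem_insert, Finset.mem_singleton]; tauto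
    rw [this]; exact h4
  s2 := by
    rintro a b c ⟨h1, h2, h3, h4⟩
    refine ⟨h2, h1, h3.symm, ?_⟩
    have : ({a, c, b} : Finset W) = {a, b, c} := by
      ext x; simp only [Finset.mem_insert, Finset.mem_singleton]; tauto
    rw [this]; exact h4
  irr := by
    rintro a b ⟨h, _⟩
    exact h rfl
  val := by
    rintro x y p q r s hxy ⟨a1, a2, a3, a4⟩ ⟨b1, b2, b3, b4⟩ ⟨c1, c2, c3, c4⟩ ⟨d1, d2, d3, d4⟩
    by_contra hcon
    simp only [not_or] at hcon
    obtain ⟨e1, e2, e3, e4⟩ := hcon
    exact hH (rep_of H hxy a1 a2 b1 b2 c1 c2 d1 d2 e1 e2 e3 e4 a4 b4 c4 d4)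

theorem six_le {W : Type} [Fintype W] [DecidableEq W] (H : Finset (Finset W)) (hH : ¬ Rep H)
    (h3 : ∀ e ∈ H, e.card = 3) : 6 * (H.card : ℝ) ≤ (sysOf H hH).Nord := by
  classical
  set S := sysOf H hH with hS
  set T : Finset (W × W × W) := univ.filter (fun t => S.E t.1 t.2.1 t.2.2) with hT
  have hN : S.Nord = (T.card : ℝ) := by
    rw [hT, Finset.card_filter]
    unfold Sys.Nord
    push_cast
    rw [← Finset.univ_product_univ, Finset.sum_product]
    apply Finset.sum_congr rfl
    intro i _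
    rw [← Finset.univ_product_univ, Finset.sum_product]
  rw [hN]
  have hmap : ∀ t ∈ T, ({t.1, t.2.1, t.2.2} : Finset W) ∈ H := by
    intro t ht
    rw [hT, Finset.mem_filter] at ht
    exact ht.2.2.2.2
  have hcard := Finset.card_eq_sum_card_fiberwise (f := fun t : W × W × W =>
    ({t.1, t.2.1, t.2.2} : Finset W)) (s := T) (t := H) (fun t ht => hmap t (by simpa using ht))
  have hfib : ∀ e ∈ H, 6 ≤ (T.filter (fun t => ({t.1, t.2.1, t.2.2} : Finset W) = e)).card := by
    intro e he
    obtain ⟨x, y, z, hxy, hxz, hyz, rfl⟩ := Finset.card_eq_three.1 (h3 e he)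
    have hsub : ({(x, y, z), (x, z, y), (y, x, z), (y, z, x), (z, x, y), (z, y, x)} :
        Finset (W × W × W)) ⊆ T.filter (fun t => ({t.1, t.2.1, t.2.2} : Finset W) = {x, y, z}) := by
      have q1 : ({x, z, y} : Finset W) = {x, y, z} := by
        ext a; simp only [Finset.mem_insert, Finset.mem_singleton]; tauto
      have q2 : ({y, x, z} : Finset W) = {x, y, z} := by
        ext a; simp only [Finset.mem_insert, Finset.mem_singleton]; tauto
      have q3 : ({y, z, x} : Finset W) = {x, y, z} := by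
        ext a; simp only [Finset.mem_insert, Finset.mem_singleton]; tauto
      have q4 : ({z, x, y} : Finset W) = {x, y, z} := by
        ext a; simp only [Finset.mem_insert, Finset.mem_singleton]; tauto
      have q5 : ({z, y, x} : Finset W) = {x, y, z} := by
        ext a; simp only [Finset.mem_insert, Finset.mem_singleton]; tauto
      intro t ht
      simp only [Finset.mem_insert, Finset.mem_singleton] at ht
      rw [Finset.mem_filter, hT, Finset.mem_filter]
      rcases ht with rfl | rfl | rfl | rfl | rfl | rfl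
      · exact ⟨⟨Finset.mem_univ _, hxy, hxz, hyz, he⟩, rfl⟩
      · exact ⟨⟨Finset.mem_univ _, hxz, hxy, hyz.symm, by rw [q1]; exact he⟩, q1⟩
      · exact ⟨⟨Finset.mem_univ _, hxy.symm, hyz, hxz, by rw [q2]; exact he⟩, q2⟩
      · exact ⟨⟨Finset.mem_univ _, hyz, hxy.symm, hxz.symm, by rw [q3]; exact he⟩, q3⟩
      · exact ⟨⟨Finset.mem_univ _, hxz.symm, hyz.symm, hxy, by rw [q4]; exact he⟩, q4⟩
      · exact ⟨⟨Finset.mem_univ _, hyz.symm, hxz.symm, hxy.symm, by rw [q5]; exact he⟩, q5⟩
    have hc : ({(x, y, z), (x, z, y), (y, x, z), (y, z, x), (z, x, y), (z, y, x)} :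
        Finset (W × W × W)).card = 6 := by
      rw [Finset.card_insert_of_notMem, Finset.card_insert_of_notMem,
        Finset.card_insert_of_notMem, Finset.card_insert_of_notMem,
        Finset.card_insert_of_notMem, Finset.card_singleton]
      all_goals
        simp only [Finset.mem_insert, Finset.mem_singleton, Prod.mk.injEq]
        tauto
    rw [← hc]
    exact Finset.card_le_card hsub
  have hsum : ∑ e ∈ H, 6 ≤ ∑ e ∈ H, (T.filter (fun t => ({t.1, t.2.1, t.2.2} : Finset W) = e)).card :=
    Finset.sum_le_sum hfib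
  rw [Finset.sum_const, smul_eq_mul] at hsum
  have : H.card * 6 ≤ T.card := by rw [hcard]; exact hsum
  have h' : ((H.card * 6 : ℕ) : ℝ) ≤ (T.card : ℝ) := by exact_mod_cast this
  push_cast at h'
  linarith

/-- **Main bound.** A 3-uniform hypergraph with no repeated disjoint union has at most
`n choose 2` edges. -/
theorem main_bound {W : Type} [Fintype W] [DecidableEq W] (H : Finset (Finset W))
    (h3 : ∀ e ∈ H, e.card = 3) (hH : ¬ Rep H) : H.card ≤ (Fintype.card W).choose 2 := by
  have h1 := six_le H hH h3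
  have h2 := (sysOf H hH).Nord_le
  have h3 : 2 * (H.card : ℝ) ≤ (Fintype.card W : ℝ) * ((Fintype.card W : ℝ) - 1) := by linarith
  rcases Nat.eq_zero_or_pos (Fintype.card W) with h0 | h0
  · rw [h0] at h3 ⊢
    norm_num at h3
    have : (H.card : ℝ) ≤ 0 := by linarith
    have h4 : H.card = 0 := by
      have : H.card ≤ 0 := by exact_mod_cast this
      omega
    rw [h4]; exact Nat.zero_le _
  · have h5 : ((Fintype.card W : ℝ) - 1) = ((Fintype.card W - 1 : ℕ) : ℝ) := by
      rw [Nat.cast_sub h0]; simp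
    rw [h5] at h3
    have h6 : 2 * H.card ≤ Fintype.card W * (Fintype.card W - 1) := by exact_mod_cast h3
    rw [Nat.choose_two_right, Nat.le_div_iff_mul_le (by norm_num)]
    omega

end Pool.Agent.Helper660.FU
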