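import Pool.Agent.Helper660.FU.Glue

set_option autoImplicit false

namespace Pool.Agent.Helper660.FU

open Finset

/-- the set of admissible thresholds -/
def Adm (n : ℕ) : Set ℕ :=
  {m : ℕ | ∀ H : Finset (Finset (Fin n)), (∀ e ∈ H, e.card = 3) → m ≤ H.card → Rep H}

theorem adm_upper (n : ℕ) : n.choose 2 + 1 ∈ Adm n := by
  intro H h3 hm
  by_contra hcon
  have := main_bound H h3 hcon
  rw [Fintype.card_fin] at this
  omega

theorem sInf_le (n : ℕ) : sInf (Adm n) ≤ n.choose 2 + 1 := Nat.sInf_le (adm_upper n)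

/-- the star -/
def star (N : ℕ) : Finset (Finset (Fin (N + 1))) :=
  (Finset.powersetCard 2 ((univ : Finset (Fin (N + 1))).erase 0)).image (fun e => insert 0 e)

theorem star_card (N : ℕ) : (star N).card = N.choose 2 := by
  unfold star
  rw [Finset.card_image_of_injOn]
  · rw [Finset.card_powersetCard, Finset.card_erase_of_mem (Finset.mem_univ _), Finset.card_univ,
      Fintype.card_fin]
    simp
  · intro a ha b hb hab
    rw [Finset.mem_coe, Finset.mem_powersetCard] at ha hb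
    have h1 : (0 : Fin (N + 1)) ∉ a := fun h => by
      have := ha.1 h; simp at this
    have h2 : (0 : Fin (N + 1)) ∉ b := fun h => by
      have := hb.1 h; simp at this
    have : (insert 0 a).erase 0 = (insert 0 b).erase 0 := by
      simp only at hab
      rw [hab]
    rw [Finset.erase_insert h1, Finset.erase_insert h2] at this
    exact this

theorem star_three (N : ℕ) : ∀ e ∈ star N, e.card = 3 := by
  intro e he
  unfold star at he
  rw [Finset.mem_image] at he
  obtain ⟨a, ha, rfl⟩ := he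
  rw [Finset.mem_powersetCard] at ha
  have h1 : (0 : Fin (N + 1)) ∉ a := fun h => by
    have := ha.1 h; simp at this
  rw [Finset.card_insert_of_notMem h1, ha.2]

theorem star_zero (N : ℕ) : ∀ e ∈ star N, (0 : Fin (N + 1)) ∈ e := by
  intro e he
  unfold star at he
  rw [Finset.mem_image] at he
  obtain ⟨a, ha, rfl⟩ := he
  simp

theorem star_not_rep (N : ℕ) : ¬ Rep (star N) := by
  rintro ⟨A, hA, B, hB, _, _, _, _, h, _⟩
  rw [Finset.disjoint_left] at h
  exact h (star_zero N A hA) (star_zero N B hB)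

theorem le_sInf (N : ℕ) : N.choose 2 + 1 ≤ sInf (Adm (N + 1)) := by
  have hmem : sInf (Adm (N + 1)) ∈ Adm (N + 1) := Nat.sInf_mem ⟨_, adm_upper (N + 1)⟩
  by_contra hcon
  have h1 : sInf (Adm (N + 1)) ≤ (star N).card := by
    rw [star_card]; omega
  exact star_not_rep N (hmem (star N) (star_three N) h1)

theorem ratio_bounds (n : ℕ) (hn : 2 ≤ n) :
    1 - 2 / (n : ℝ) ≤ ((sInf (Adm n) : ℕ) : ℝ) / ((n.choose 2 : ℕ) : ℝ) ∧
    ((sInf (Adm n) : ℕ) : ℝ) / ((n.choose 2 : ℕ) : ℝ) ≤ 1 + 2 / (n : ℝ) := by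
  obtain ⟨N, rfl⟩ : ∃ N, n = N + 1 := ⟨n - 1, by omega⟩
  have hN : 1 ≤ N := by omega
  have hNr : (1 : ℝ) ≤ N := by exact_mod_cast hN
  have e1 : (((N + 1).choose 2 : ℕ) : ℝ) = ((N : ℝ) + 1) * N / 2 := by
    rw [Nat.cast_choose_two]
    push_cast
    ring
  have e2 : ((N.choose 2 : ℕ) : ℝ) = (N : ℝ) * (N - 1) / 2 := by
    rw [Nat.cast_choose_two]
  have u : ((sInf (Adm (N + 1)) : ℕ) : ℝ) ≤ ((N : ℝ) + 1) * N / 2 + 1 := by
    rw [← e1]; exact_mod_cast sInf_le (N + 1)
  have l : (N : ℝ) * (N - 1) / 2 + 1 ≤ ((sInf (Adm (N + 1)) : ℕ) : ℝ) := by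
    rw [← e2]; exact_mod_cast le_sInf N
  have hpos : 0 < ((N : ℝ) + 1) * N / 2 := by positivity
  rw [e1]
  push_cast
  constructor
  · rw [le_div_iff₀ hpos]
    have : (1 - 2 / ((N : ℝ) + 1)) * (((N : ℝ) + 1) * N / 2) = (N : ℝ) * (N - 1) / 2 := by
      have : (N : ℝ) + 1 ≠ 0 := by positivity
      field_simp
      ring
    rw [this]
    linarith
  · rw [div_le_iff₀ hpos]
    have : (1 + 2 / ((N : ℝ) + 1)) * (((N : ℝ) + 1) * N / 2) = ((N : ℝ) + 1) * N / 2 + N := by
      have : (N : ℝ) + 1 ≠ 0 := by positivity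
      field_simp
    rw [this]
    linarith

theorem limit_one :
    Filter.Tendsto (fun n : ℕ => ((sInf (Adm n) : ℕ) : ℝ) / ((n.choose 2 : ℕ) : ℝ))
      Filter.atTop (nhds 1) := by
  have h0 : Filter.Tendsto (fun n : ℕ => 2 / (n : ℝ)) Filter.atTop (nhds 0) :=
    tendsto_const_div_atTop_nhds_zero_nat 2
  have h1 : Filter.Tendsto (fun n : ℕ => 1 - 2 / (n : ℝ)) Filter.atTop (nhds 1) := by
    have := (tendsto_const_nhds (x := (1 : ℝ)) (f := (Filter.atTop : Filter ℕ))).sub h0
    simpa using this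
  have h2 : Filter.Tendsto (fun n : ℕ => 1 + 2 / (n : ℝ)) Filter.atTop (nhds 1) := by
    have := (tendsto_const_nhds (x := (1 : ℝ)) (f := (Filter.atTop : Filter ℕ))).add h0
    simpa using this
  apply tendsto_of_tendsto_of_tendsto_of_le_of_le' h1 h2
  · filter_upwards [Filter.eventually_ge_atTop 2] with n hn
    exact (ratio_bounds n hn).1
  · filter_upwards [Filter.eventually_ge_atTop 2] with n hn
    exact (ratio_bounds n hn).2

end Pool.Agent.Helper660.FU
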