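import Mathlib

set_option autoImplicit false

namespace Pool.Agent.Helper660.FU

/-- phi(p) = p/(1+p) -/
noncomputable def ph (p : ℕ) : ℝ := (p : ℝ) / (1 + p)

noncomputable def need (a b : ℕ) : ℝ :=
  if a = 2 ∨ b = 2 then 1 / 2 - 1 / (2 * (a : ℝ)) - 1 / (2 * (b : ℝ))
  else (1 / (2 * ((a : ℝ) - 1)) - 1 / (2 * (a : ℝ))) + (1 / (2 * ((b : ℝ) - 1)) - 1 / (2 * (b : ℝ)))

noncomputable def av (p b : ℕ) : ℝ :=
  if p = 0 then 1 / (b : ℝ) - 1 / 2 else ph p - (1 / (1 + (p : ℝ)) - 1 / (b : ℝ))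

noncomputable def aw (p b c : ℕ) : ℝ :=
  if p = 0 then 1 / (b : ℝ) + 1 / (c : ℝ) - 2 / 3
  else ph p - (1 / (1 + (p : ℝ)) - 1 / (b : ℝ)) - (1 / (1 + (p : ℝ)) - 1 / (c : ℝ))

theorem ph_eq (p : ℕ) : ph p = 1 - 1 / (1 + (p : ℝ)) := by
  unfold ph
  have : (1 + (p : ℝ)) ≠ 0 := by positivity
  field_simp
  ring

theorem ph_nonneg (p : ℕ) : 0 ≤ ph p := by
  unfold ph; positivity

/-- integrality inequality -/
theorem int_sq (p q : ℕ) : (0 : ℝ) ≤ ((p : ℝ) - q) * ((p : ℝ) - q + 1) := by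
  rcases le_or_gt q p with h | h
  · have : (q : ℝ) ≤ p := by exact_mod_cast h
    have h1 : (0 : ℝ) ≤ (p : ℝ) - q := by linarith
    positivity
  · have : (p : ℝ) + 1 ≤ q := by exact_mod_cast h
    have h1 : (p : ℝ) - q ≤ 0 := by linarith
    have h2 : (p : ℝ) - q + 1 ≤ 0 := by linarith
    nlinarith

theorem n0 (p q : ℕ) : (2 : ℝ) ≤ ((p : ℝ) + 2) / (1 + q) + (q : ℝ) / (1 + p) := by
  have h := int_sq p q
  have hp : (0 : ℝ) < 1 + p := by positivity
  have hq : (0 : ℝ) < 1 + q := by positivity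
  rw [div_add_div _ _ hq.ne' hp.ne', le_div_iff₀ (by positivity)]
  nlinarith

theorem n1 (p q : ℕ) : ph p + ph q ≤ (p : ℝ) / (1 + q) + (q : ℝ) / (1 + p) := by
  unfold ph
  have hp : (0 : ℝ) < 1 + p := by positivity
  have hq : (0 : ℝ) < 1 + q := by positivity
  rw [div_add_div _ _ hp.ne' hq.ne', div_add_div _ _ hq.ne' hp.ne', div_le_div_iff₀ (by positivity) (by positivity)]
  nlinarith [mul_nonneg (mul_nonneg hp.le hq.le) (sq_nonneg ((p : ℝ) - q))]

theorem n2 (p q : ℕ) (hp : 1 ≤ p) (hq : 1 ≤ q) :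
    (3 : ℝ) / 4 ≤ ph p / 2 + ph q / 2 + 1 / (1 + p + q) := by
  obtain ⟨a, rfl⟩ := Nat.exists_eq_add_of_le hp
  obtain ⟨b, rfl⟩ := Nat.exists_eq_add_of_le hq
  unfold ph
  push_cast
  have ha : (0 : ℝ) ≤ a := by positivity
  have hb : (0 : ℝ) ≤ b := by positivity
  rw [← sub_nonneg]
  have : (1 + (a : ℝ)) / (1 + (1 + a)) / 2 + (1 + (b : ℝ)) / (1 + (1 + b)) / 2 + 1 / (1 + (1 + a) + (1 + b)) - 3 / 4
      = ((2 * (1 + (a : ℝ)) * (2 + b) * (3 + a + b) + 2 * (1 + (b : ℝ)) * (2 + a) * (3 + a + b) + 4 * (2 + a) * (2 + b) - 3 * (2 + a) * (2 + b) * (3 + a + b))) / (4 * (2 + a) * (2 + b) * (3 + a + b)) := by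
    field_simp
    ring
  rw [this]
  apply div_nonneg _ (by positivity)
  nlinarith [mul_nonneg ha hb, mul_nonneg (mul_nonneg ha hb) ha, mul_nonneg (mul_nonneg ha hb) hb]


/-- adding elements of another centre never hurts -/
theorem add_ph (c : ℝ) (hc : 2 ≤ c) (p : ℕ) : 1 / c ≤ ph p / 2 + 1 / (c + p) := by
  unfold ph
  have hp : (0 : ℝ) ≤ p := by positivity
  have h1 : (0 : ℝ) < 1 + p := by positivity
  have h2 : (0 : ℝ) < c + p := by linarith
  have h3 : (0 : ℝ) < c := by linarith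
  rw [← sub_nonneg]
  have : (p : ℝ) / (1 + p) / 2 + 1 / (c + p) - 1 / c
      = (p * (c * (c + p) - 2 * (1 + p))) / (2 * (1 + p) * (c + p) * c) := by
    field_simp
    ring
  rw [this]
  apply div_nonneg _ (by positivity)
  apply mul_nonneg hp
  nlinarith

theorem tt1 (p q : ℕ) : (2 : ℝ) / 3 ≤ ph p / 2 + ph q / 2 + 1 / (2 + p + q) + 1 / 6 := by
  have h1 := add_ph (2 + p) (by have : (0 : ℝ) ≤ p := by positivity
                                linarith) q
  have h2 := add_ph 2 le_rfl p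
  linarith

theorem tt2 (p q : ℕ) : (2 : ℝ) / 3 ≤ ph p / 2 + ph q / 2 + 1 / (3 + p + q) + 1 / 3 := by
  have h1 := add_ph (3 + p) (by have : (0 : ℝ) ≤ p := by positivity
                                linarith) q
  have h2 := add_ph 3 (by norm_num) p
  linarith

theorem inv_le_cast {b : ℕ} {x : ℝ} (hb : 1 ≤ b) (h : (b : ℝ) ≤ x) : 1 / x ≤ 1 / (b : ℝ) := by
  have : (0 : ℝ) < b := by exact_mod_cast hb
  exact one_div_le_one_div_of_le this h

theorem c1 (p q a : ℕ) (ha : 2 ≤ a) (ha' : a ≤ 2 + q) :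
    (2 : ℝ) / 3 ≤ ph p / 2 + av q a / 2 + 1 / (2 + p + q) + 1 / 6 := by
  have h1 := add_ph (2 + q) (by have : (0 : ℝ) ≤ q := by positivity
                                linarith) p
  have key : (1 : ℝ) / 2 ≤ av q a / 2 + 1 / (2 + q) := by
    unfold av
    split_ifs with h
    · subst h
      have : a = 2 := by omega
      subst this
      norm_num
    · have hq : (1 : ℝ) ≤ q := by exact_mod_cast Nat.one_le_iff_ne_zero.2 h
      have h2 : 1 / (2 + (q : ℝ)) ≤ 1 / (a : ℝ) := inv_le_cast (by omega) (by exact_mod_cast ha')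
      rw [ph_eq]
      have h3 : 1 / (1 + (q : ℝ)) ≤ (3 / 2) * (1 / (2 + (q : ℝ))) := by
        rw [mul_one_div, div_le_div_iff₀ (by positivity) (by positivity)]
        nlinarith
      linarith
  have e : (2 : ℝ) + p + q = 2 + q + p := by ring
  rw [e]
  linarith

theorem n2' (x y : ℝ) (hx : 2 ≤ x) (hy : 2 ≤ y) :
    3 / 4 ≤ 1 - 1 / (2 * x) - 1 / (2 * y) + 1 / (x + y) := by
  rw [← sub_nonneg]
  have : 1 - 1 / (2 * x) - 1 / (2 * y) + 1 / (x + y) - 3 / 4
      = (x ^ 2 * (y - 2) + y ^ 2 * (x - 2)) / (4 * x * y * (x + y)) := by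
    field_simp
    ring
  rw [this]
  have : 0 ≤ x ^ 2 * (y - 2) := mul_nonneg (by positivity) (by linarith)
  have : 0 ≤ y ^ 2 * (x - 2) := mul_nonneg (by positivity) (by linarith)
  positivity

theorem need_left (a b : ℕ) (h : a = 2 ∨ b = 2) :
    need a b = 1 / 2 - 1 / (2 * (a : ℝ)) - 1 / (2 * (b : ℝ)) := by
  unfold need; rw [if_pos h]

theorem need_right (a b : ℕ) (h : ¬ (a = 2 ∨ b = 2)) :
    need a b = (1 / (2 * ((a : ℝ) - 1)) - 1 / (2 * (a : ℝ)))
      + (1 / (2 * ((b : ℝ) - 1)) - 1 / (2 * (b : ℝ))) := by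
  unfold need; rw [if_neg h]

theorem need_symm (a b : ℕ) : need a b = need b a := by
  unfold need
  split_ifs with h1 h2 h2
  · ring
  · tauto
  · tauto
  · ring

theorem half_inv_bound (a : ℕ) (ha : 2 ≤ a) : 1 / (2 * (a : ℝ)) ≤ 1 / 4 := by
  have : (2 : ℝ) ≤ a := by exact_mod_cast ha
  rw [div_le_div_iff₀ (by positivity) (by norm_num)]
  linarith

theorem g_bound (a : ℕ) (ha : 3 ≤ a) :
    1 / (2 * ((a : ℝ) - 1)) - 1 / (2 * (a : ℝ)) ≤ 1 / 12 := by
  have h : (3 : ℝ) ≤ a := by exact_mod_cast ha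
  have h1 : (0 : ℝ) < (a : ℝ) - 1 := by linarith
  have h2 : (0 : ℝ) < (a : ℝ) := by linarith
  rw [div_sub_div _ _ (by positivity) (by positivity), div_le_div_iff₀ (by positivity) (by norm_num)]
  nlinarith

theorem g_nonneg (a : ℕ) (ha : 2 ≤ a) :
    0 ≤ 1 / (2 * ((a : ℝ) - 1)) - 1 / (2 * (a : ℝ)) := by
  have h : (2 : ℝ) ≤ a := by exact_mod_cast ha
  have h1 : (0 : ℝ) < (a : ℝ) - 1 := by linarith
  have h2 : (0 : ℝ) < (a : ℝ) := by linarith
  rw [div_sub_div _ _ (by positivity) (by positivity)]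
  apply div_nonneg _ (by positivity)
  linarith

/-- 1/(2(a-1)) <= 1/a for a >= 2 -/
theorem g_le (a : ℕ) (ha : 2 ≤ a) : 1 / (2 * ((a : ℝ) - 1)) ≤ 2 * (1 / (2 * (a : ℝ))) := by
  have h : (2 : ℝ) ≤ a := by exact_mod_cast ha
  have h1 : (0 : ℝ) < (a : ℝ) - 1 := by linarith
  have h2 : (0 : ℝ) < (a : ℝ) := by linarith
  rw [mul_one_div, div_le_div_iff₀ (by positivity) (by positivity)]
  nlinarith

theorem need_nonneg (a b : ℕ) (ha : 2 ≤ a) (hb : 2 ≤ b) : 0 ≤ need a b := by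
  unfold need
  split_ifs with h
  · have := half_inv_bound a ha
    have := half_inv_bound b hb
    linarith
  · have := g_nonneg a ha
    have := g_nonneg b hb
    linarith

theorem need_two_left (b : ℕ) : need 2 b = 1 / 4 - 1 / (2 * (b : ℝ)) := by
  rw [need_left 2 b (Or.inl rfl)]
  norm_num

theorem need_le_g (a b : ℕ) (ha : 3 ≤ a) (hb : 3 ≤ b) : need a b ≤ 1 / 6 := by
  rw [need_right a b (by omega)]
  have := g_bound a ha
  have := g_bound b hb
  linarith

theorem need_sum_aux (a b : ℕ) (ha : 2 ≤ a) (hb : 2 ≤ b) :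
    need 2 a + need 2 b + need a b ≤ 1 / 2 := by
  rw [need_two_left, need_two_left]
  have h1 := g_le a ha
  have h2 := g_le b hb
  have p1 : (0 : ℝ) < 1 / (2 * (a : ℝ)) := by
    have : (0 : ℝ) < a := by exact_mod_cast (by omega : 0 < a)
    positivity
  have p2 : (0 : ℝ) < 1 / (2 * (b : ℝ)) := by
    have : (0 : ℝ) < b := by exact_mod_cast (by omega : 0 < b)
    positivity
  unfold need
  split_ifs with h
  · have := half_inv_bound a ha
    have := half_inv_bound b hb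
    rcases h with h | h
    · subst h
      have e : (1 : ℝ) / (2 * ((2 : ℕ) : ℝ)) = 1 / 4 := by norm_num
      rw [e] at *
      linarith
    · subst h
      have e : (1 : ℝ) / (2 * ((2 : ℕ) : ℝ)) = 1 / 4 := by norm_num
      rw [e] at *
      linarith
  · linarith

theorem need_sum (a b c : ℕ) (ha : 2 ≤ a) (hb : 2 ≤ b) (hc : 2 ≤ c) :
    need a b + need a c + need b c ≤ 1 / 2 := by
  by_cases h1 : a = 2
  · subst h1; exact need_sum_aux b c hb hc
  by_cases h2 : b = 2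
  · subst h2
    have := need_sum_aux a c ha hc
    rw [need_symm a 2]; linarith
  by_cases h3 : c = 2
  · subst h3
    have := need_sum_aux a b ha hb
    rw [need_symm a 2, need_symm b 2]; linarith
  have := need_le_g a b (by omega) (by omega)
  have := need_le_g a c (by omega) (by omega)
  have := need_le_g b c (by omega) (by omega)
  linarith

end Pool.Agent.Helper660.FU
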