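import Pool.Agent.Helper660.FU.Num

set_option autoImplicit false

namespace Pool.Agent.Helper660.FU

theorem av_zero (b : ℕ) : av 0 b = 1 / (b : ℝ) - 1 / 2 := by unfold av; simp

theorem av_pos (p b : ℕ) (hp : 1 ≤ p) :
    av p b = 1 - 2 * (1 / (1 + (p : ℝ))) + 1 / (b : ℝ) := by
  unfold av
  rw [if_neg (by omega), ph_eq]
  ring

/-- half/X + half/X' <= 1/2 + 1/(X+X') for X, X' >= 1 -/
theorem zero_aux (x y : ℝ) (hx : 1 ≤ x) (hy : 1 ≤ y) :
    1 / (2 * x) + 1 / (2 * y) ≤ 1 / 2 + 1 / (x + y) := by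
  obtain ⟨a, ha⟩ : ∃ a, a = x - 1 := ⟨_, rfl⟩
  obtain ⟨b, hb⟩ : ∃ b, b = y - 1 := ⟨_, rfl⟩
  have ex : x = 1 + a := by linarith
  have ey : y = 1 + b := by linarith
  have ha' : 0 ≤ a := by linarith
  have hb' : 0 ≤ b := by linarith
  subst ex ey
  rw [← sub_nonneg]
  have : 1 / 2 + 1 / (1 + a + (1 + b)) - (1 / (2 * (1 + a)) + 1 / (2 * (1 + b)))
      = (a + b + a * b * (4 + a + b)) / (2 * (1 + a) * (1 + b) * (2 + a + b)) := by
    have h1 : (1 + a) ≠ 0 := by positivity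
    have h2 : (1 + b) ≠ 0 := by positivity
    have h3 : (1 + a + (1 + b)) ≠ 0 := by positivity
    have h4 : (2 + a + b) ≠ 0 := by positivity
    field_simp
    ring
  rw [this]
  positivity

/-- theta for the special rule: either >= 1/2 or >= half/(X)+half/(X') -/
theorem theta (a b : ℕ) (ha : 2 ≤ a) (hb : 2 ≤ b) :
    (need a b + 1 / (2 * (a : ℝ)) + 1 / (2 * (b : ℝ)) = 1 / 2) ∨
    (3 ≤ a ∧ 3 ≤ b ∧ need a b + 1 / (2 * (a : ℝ)) + 1 / (2 * (b : ℝ))
      = 1 / (2 * ((a : ℝ) - 1)) + 1 / (2 * ((b : ℝ) - 1))) := by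
  by_cases h : a = 2 ∨ b = 2
  · left; rw [need_left a b h]; ring
  · right; rw [need_right a b h]
    refine ⟨by omega, by omega, by ring⟩

theorem inv_sub_bound (a p : ℕ) (ha : 3 ≤ a) (h : a ≤ 2 + p) :
    1 / (2 * (1 + (p : ℝ))) ≤ 1 / (2 * ((a : ℝ) - 1)) := by
  have h1 : (3 : ℝ) ≤ a := by exact_mod_cast ha
  have h2 : (a : ℝ) ≤ 2 + p := by exact_mod_cast h
  apply one_div_le_one_div_of_le
  · linarith
  · linarith

theorem zJ (p q a b : ℕ) (ha : 2 ≤ a) (ha' : a ≤ 2 + q) (hb : 2 ≤ b) (hb' : b ≤ 2 + p) :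
    0 ≤ 1 / (2 + (p : ℝ) + q) + need a b - (1 / 2) * (1 / (1 + (p : ℝ)) - 1 / (b : ℝ))
      - (1 / 2) * (1 / (1 + (q : ℝ)) - 1 / (a : ℝ)) := by
  have hz := zero_aux (1 + p) (1 + q) (by have : (0 : ℝ) ≤ p := by positivity
                                          linarith) (by have : (0 : ℝ) ≤ q := by positivity
                                                        linarith)
  have e : (1 : ℝ) + p + (1 + q) = 2 + p + q := by ring
  rw [e] at hz
  have e1 : (1 : ℝ) / (2 * (1 + p)) = (1 / 2) * (1 / (1 + (p : ℝ))) := by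
    rw [one_div_mul_one_div_rev, mul_comm]
  have e2 : (1 : ℝ) / (2 * (1 + q)) = (1 / 2) * (1 / (1 + (q : ℝ))) := by
    rw [one_div_mul_one_div_rev, mul_comm]
  have e3 : (1 : ℝ) / (2 * a) = (1 / 2) * (1 / (a : ℝ)) := by
    rw [one_div_mul_one_div_rev, mul_comm]
  have e4 : (1 : ℝ) / (2 * b) = (1 / 2) * (1 / (b : ℝ)) := by
    rw [one_div_mul_one_div_rev, mul_comm]
  rw [e1, e2] at hz
  rcases theta a b ha hb with h | ⟨h3, h4, h⟩
  · rw [e3, e4] at h
    linarith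
  · have i1 := inv_sub_bound a q h3 ha'
    have i2 := inv_sub_bound b p h4 hb'
    rw [e3, e4] at h
    rw [e2] at i1
    rw [e1] at i2
    have : 0 < 1 / (2 + (p : ℝ) + q) := by positivity
    linarith

theorem z3 (p q a b : ℕ) (hp : 1 ≤ p) (hq : 1 ≤ q) (ha : 2 ≤ a) (ha' : a ≤ 2 + q) (hb : 2 ≤ b)
    (hb' : b ≤ 2 + p) :
    (2 : ℝ) / 3 ≤ av p b / 2 + av q a / 2 + 1 / (2 + (p : ℝ) + q) + need a b := by
  have hp' : (1 : ℝ) ≤ p := by exact_mod_cast hp
  have hq' : (1 : ℝ) ≤ q := by exact_mod_cast hq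
  have hz := n2' (1 + p) (1 + q) (by linarith) (by linarith)
  have e : (1 : ℝ) + p + (1 + q) = 2 + p + q := by ring
  rw [e] at hz
  have e1 : (1 : ℝ) / (2 * (1 + p)) = (1 / 2) * (1 / (1 + (p : ℝ))) := by
    rw [one_div_mul_one_div_rev, mul_comm]
  have e2 : (1 : ℝ) / (2 * (1 + q)) = (1 / 2) * (1 / (1 + (q : ℝ))) := by
    rw [one_div_mul_one_div_rev, mul_comm]
  have e3 : (1 : ℝ) / (2 * a) = (1 / 2) * (1 / (a : ℝ)) := by
    rw [one_div_mul_one_div_rev, mul_comm]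
  have e4 : (1 : ℝ) / (2 * b) = (1 / 2) * (1 / (b : ℝ)) := by
    rw [one_div_mul_one_div_rev, mul_comm]
  rw [e1, e2] at hz
  rw [av_pos p b hp, av_pos q a hq]
  have j1 : 1 / (1 + (p : ℝ)) ≤ 1 / 2 := by
    apply one_div_le_one_div_of_le <;> linarith
  have j2 : 1 / (1 + (q : ℝ)) ≤ 1 / 2 := by
    apply one_div_le_one_div_of_le <;> linarith
  rcases theta a b ha hb with h | ⟨h3, h4, h⟩
  · rw [e3, e4] at h
    linarith
  · have i1 := inv_sub_bound a q h3 ha'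
    have i2 := inv_sub_bound b p h4 hb'
    rw [e3, e4] at h
    rw [e2] at i1
    rw [e1] at i2
    linarith

theorem z2a (p b : ℕ) (hp : 1 ≤ p) (hb : 2 ≤ b) :
    (7 : ℝ) / 12 ≤ av p b / 2 + av 0 2 / 2 + 1 / (2 + (p : ℝ) + (0 : ℕ)) + need 2 b := by
  have hp' : (1 : ℝ) ≤ p := by exact_mod_cast hp
  rw [av_pos p b hp, av_zero, need_two_left]
  have e4 : (1 : ℝ) / (2 * b) = (1 / 2) * (1 / (b : ℝ)) := by
    rw [one_div_mul_one_div_rev, mul_comm]
  rw [e4]
  push_cast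
  have key : 1 / (1 + (p : ℝ)) ≤ 1 / 6 + 1 / (2 + (p : ℝ) + 0) := by
    rw [← sub_nonneg]
    have : 1 / 6 + 1 / (2 + (p : ℝ) + 0) - 1 / (1 + (p : ℝ))
        = ((p - 1) * (p + 4)) / (6 * (1 + p) * (2 + p)) := by
      field_simp
      ring
    rw [this]
    apply div_nonneg _ (by positivity)
    apply mul_nonneg <;> linarith
  linarith

theorem z2 (p q a b : ℕ) (hp : 1 ≤ p) (ha : 2 ≤ a) (ha' : a ≤ 2 + q) (hb : 2 ≤ b)
    (hb' : b ≤ 2 + p) :
    (7 : ℝ) / 12 ≤ av p b / 2 + av q a / 2 + 1 / (2 + (p : ℝ) + q) + need a b := by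
  rcases Nat.eq_zero_or_pos q with h | h
  · subst h
    have : a = 2 := by omega
    subst this
    exact z2a p b hp hb
  · have := z3 p q a b hp h ha ha' hb hb'
    linarith

theorem z1 (p q a b : ℕ) (ha : 2 ≤ a) (ha' : a ≤ 2 + q) (hb : 2 ≤ b)
    (hb' : b ≤ 2 + p) :
    (1 : ℝ) / 2 ≤ av p b / 2 + av q a / 2 + 1 / (2 + (p : ℝ) + q) + need a b := by
  rcases Nat.eq_zero_or_pos p with h | h
  · rcases Nat.eq_zero_or_pos q with h' | h'
    · subst h; subst h'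
      have : a = 2 := by omega
      subst this
      have : b = 2 := by omega
      subst this
      rw [av_zero, need_two_left]
      norm_num
    · have := z2 q p b a h' hb hb' ha ha'
      rw [need_symm] at this
      have e : (2 : ℝ) + q + p = 2 + p + q := by ring
      rw [e] at this
      linarith
  · have := z2 p q a b h ha ha' hb hb'
    linarith

end Pool.Agent.Helper660.FU
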