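import Pool.Agent.Helper660.FU.Num2

set_option autoImplicit false

namespace Pool.Agent.Helper660.FU

theorem inv_b (b m p : ℕ) (hb : 1 ≤ b) (h : b ≤ m + p) : 1 / ((m : ℝ) + p) ≤ 1 / (b : ℝ) :=
  inv_le_cast hb (by exact_mod_cast h)

theorem tight (m : ℕ) (hm : 2 ≤ m) : (1 : ℝ) ≤ 2 * (1 / (m : ℝ)) + ((m : ℝ) - 1) / 6 := by
  have hm' : (2 : ℝ) ≤ m := by exact_mod_cast hm
  have h : (0 : ℝ) ≤ ((m : ℝ) - 4) * ((m : ℝ) - 4 + 1) := by
    have := int_sq m 4
    simpa using this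
  have h0 : (0 : ℝ) < m := by linarith
  rw [← sub_nonneg]
  have : 2 * (1 / (m : ℝ)) + ((m : ℝ) - 1) / 6 - 1 = (((m : ℝ) - 4) * ((m : ℝ) - 4 + 1)) / (6 * m) := by
    field_simp
    ring
  rw [this]
  exact div_nonneg h (by positivity)

/-- (m-1)/6 >= (m-1)/((1+p)(m+p)) for p >= 1 -/
theorem ub (m p : ℕ) (hm : 2 ≤ m) (hp : 1 ≤ p) :
    1 / (1 + (p : ℝ)) - 1 / ((m : ℝ) + p) ≤ ((m : ℝ) - 1) / (2 * (m + 1)) := by
  have hm' : (2 : ℝ) ≤ m := by exact_mod_cast hm
  have hp' : (1 : ℝ) ≤ p := by exact_mod_cast hp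
  rw [div_sub_div _ _ (by positivity) (by positivity), div_le_div_iff₀ (by positivity) (by positivity)]
  have : (1 * ((m : ℝ) + p) - (1 + p) * 1) = m - 1 := by ring
  rw [this]
  apply mul_le_mul_of_nonneg_left _ (by linarith)
  nlinarith

theorem ub6 (m p : ℕ) (hm : 2 ≤ m) (hp : 1 ≤ p) :
    1 / (1 + (p : ℝ)) - 1 / ((m : ℝ) + p) ≤ ((m : ℝ) - 1) / 6 := by
  have hm' : (2 : ℝ) ≤ m := by exact_mod_cast hm
  refine (ub m p hm hp).trans ?_
  apply div_le_div_of_nonneg_left <;> linarith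

theorem u3 (p q m a b : ℕ) (hm : 2 ≤ m) (hp : 1 ≤ p) (hq : 1 ≤ q) (ha : 1 ≤ a) (ha' : a ≤ m + q)
    (hb : 1 ≤ b) (hb' : b ≤ m + p) :
    (2 : ℝ) / 3 ≤ av p b / 2 + av q a / 2 + 1 / ((m : ℝ) + p + q) + ((m : ℝ) - 1) / 6 := by
  have hm' : (2 : ℝ) ≤ m := by exact_mod_cast hm
  have hp' : (1 : ℝ) ≤ p := by exact_mod_cast hp
  have hq' : (1 : ℝ) ≤ q := by exact_mod_cast hq
  rw [av_pos p b hp, av_pos q a hq]
  have i1 := inv_b b m p hb hb'
  have i2 := inv_b a m q ha ha'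
  have k1 := ub m p hm hp
  have k2 := ub m q hm hq
  have hz := n2' (1 + p) (1 + q) (by linarith) (by linarith)
  have e : (1 : ℝ) + p + (1 + q) = 2 + p + q := by ring
  rw [e] at hz
  have e1 : (1 : ℝ) / (2 * (1 + p)) = (1 / 2) * (1 / (1 + (p : ℝ))) := by
    rw [one_div_mul_one_div_rev, mul_comm]
  have e2 : (1 : ℝ) / (2 * (1 + q)) = (1 / 2) * (1 / (1 + (q : ℝ))) := by
    rw [one_div_mul_one_div_rev, mul_comm]
  rw [e1, e2] at hz
  rcases Nat.lt_or_ge m 3 with h | h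
  · have : m = 2 := by omega
    subst this
    simp only [one_div] at *
    push_cast at *
    norm_num at k1 k2 hz i1 i2 ⊢
    linarith
  rcases Nat.lt_or_ge m 4 with h4 | h4
  · have : m = 3 := by omega
    subst this
    push_cast at *
    have : 1 / (2 + (p : ℝ) + q) - 1 / (3 + (p : ℝ) + q) ≤ 1 / 20 := by
      rw [div_sub_div _ _ (by positivity) (by positivity), div_le_div_iff₀ (by positivity) (by positivity)]
      nlinarith
    simp only [one_div] at *
    norm_num at this i1 i2 hz k1 k2 ⊢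
    linarith
  · have j1 : 1 / (1 + (p : ℝ)) ≤ 1 / 2 := by
      apply one_div_le_one_div_of_le <;> linarith
    have j2 : 1 / (1 + (q : ℝ)) ≤ 1 / 2 := by
      apply one_div_le_one_div_of_le <;> linarith
    rcases Nat.lt_or_ge m 5 with h5 | h5
    · have : m = 4 := by omega
      subst this
      push_cast at *
      have : 0 ≤ 1 / (4 + (p : ℝ) + q) - 1 / (2 + (p : ℝ) + q) + 1 / 12 := by
        have : 1 / (4 + (p : ℝ) + q) - 1 / (2 + (p : ℝ) + q) + 1 / 12 = ((p + q - 2) * (p + q + 2) + 6 * (p + q) - 12 ) / (12 * (4 + (p : ℝ) + q) * (2 + (p : ℝ) + q)) := by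
          field_simp
          ring
        rw [this]
        apply div_nonneg _ (by positivity)
        nlinarith
      simp only [one_div] at *
      norm_num at k1 k2 this i1 i2 hz j1 j2 ⊢
      linarith
    · have h5' : (5 : ℝ) ≤ m := by exact_mod_cast h5
      have pos : 0 < 1 / ((m : ℝ) + p + q) := by positivity
      have kk : ((m : ℝ) - 1) / 6 - ((m : ℝ) - 1) / (2 * (m + 1)) ≥ 1 / 3 := by
        have : ((m : ℝ) - 1) / 6 - ((m : ℝ) - 1) / (2 * (m + 1)) - 1 / 3 = (m * (m - 5)) / (6 * (m + 1)) := by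
          field_simp
          ring
        have : 0 ≤ (m * ((m : ℝ) - 5)) / (6 * (m + 1)) := by
          apply div_nonneg _ (by positivity)
          apply mul_nonneg <;> linarith
        linarith
      linarith


theorem u2a (p m a b : ℕ) (hm : 2 ≤ m) (hp : 1 ≤ p) (ha : 1 ≤ a) (ha' : a ≤ m)
    (hb : 1 ≤ b) (hb' : b ≤ m + p) :
    (7 : ℝ) / 12 ≤ av p b / 2 + av 0 a / 2 + 1 / ((m : ℝ) + p) + ((m : ℝ) - 1) / 6 := by
  have hm' : (2 : ℝ) ≤ m := by exact_mod_cast hm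
  have hp' : (1 : ℝ) ≤ p := by exact_mod_cast hp
  rw [av_pos p b hp, av_zero]
  have i1 := inv_b b m p hb hb'
  have i2 : 1 / (m : ℝ) ≤ 1 / (a : ℝ) := inv_le_cast ha (by exact_mod_cast ha')
  have key : (7 : ℝ) / 12 ≤ 1 / 4 - 1 / (1 + (p : ℝ)) + (3 / 2) * (1 / ((m : ℝ) + p)) + (1 / 2) * (1 / (m : ℝ)) + ((m : ℝ) - 1) / 6 := by
    have pos : 0 < 1 / ((m : ℝ) + p) := by positivity
    have j1 : 1 / (1 + (p : ℝ)) ≤ 1 / 2 := by
      apply one_div_le_one_div_of_le <;> linarith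
    have posm : 0 < 1 / (m : ℝ) := by positivity
    rcases Nat.lt_or_ge m 6 with h6 | h6
    · have h3 : m = 2 ∨ m = 3 ∨ m = 4 ∨ m = 5 := by omega
      rcases h3 with h | h | h | h
      · subst h
        push_cast
        have : 1 / 4 - 1 / (1 + (p : ℝ)) + (3 / 2) * (1 / ((2 : ℝ) + p)) + (1 / 2) * (1 / (2 : ℝ)) + ((2 : ℝ) - 1) / 6 - 7 / 12
            = (p * p + 9 * p - 4) / (12 * (1 + p) * (2 + p)) := by
          field_simp
          ring
        have h2 : (0 : ℝ) ≤ (p * p + 9 * p - 4) / (12 * (1 + p) * (2 + p)) := by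
          apply div_nonneg _ (by positivity)
          nlinarith
        linarith
      · subst h
        push_cast
        have : 1 / 4 - 1 / (1 + (p : ℝ)) + (3 / 2) * (1 / ((3 : ℝ) + p)) + (1 / 2) * (1 / (3 : ℝ)) + ((3 : ℝ) - 1) / 6 - 7 / 12
            = (p * p + 7 * p - 6) / (6 * (1 + p) * (3 + p)) := by
          field_simp
          ring
        have h2 : (0 : ℝ) ≤ (p * p + 7 * p - 6) / (6 * (1 + p) * (3 + p)) := by
          apply div_nonneg _ (by positivity)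
          nlinarith
        linarith
      · subst h
        push_cast
        have : 1 / 4 - 1 / (1 + (p : ℝ)) + (3 / 2) * (1 / ((4 : ℝ) + p)) + (1 / 2) * (1 / (4 : ℝ)) + ((4 : ℝ) - 1) / 6 - 7 / 12
            = (7 * p * p + 47 * p - 32) / (24 * (1 + p) * (4 + p)) := by
          field_simp
          ring
        have h2 : (0 : ℝ) ≤ (7 * p * p + 47 * p - 32) / (24 * (1 + p) * (4 + p)) := by
          apply div_nonneg _ (by positivity)
          nlinarith
        linarith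
      · subst h
        push_cast
        have : 1 / 4 - 1 / (1 + (p : ℝ)) + (3 / 2) * (1 / ((5 : ℝ) + p)) + (1 / 2) * (1 / (5 : ℝ)) + ((5 : ℝ) - 1) / 6 - 7 / 12
            = (13 * (1 + p) * (5 + p) - 30 * (5 + p) + 45 * (1 + p)) / (30 * (1 + p) * (5 + p)) := by
          field_simp
          ring
        have h2 : (0 : ℝ) ≤ (13 * (1 + p) * (5 + p) - 30 * (5 + p) + 45 * (1 + p)) / (30 * (1 + p) * (5 + p)) := by
          apply div_nonneg _ (by positivity)
          nlinarith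
        linarith
    · have h6' : (6 : ℝ) ≤ m := by exact_mod_cast h6
      linarith
  linarith

theorem u2 (p q m a b : ℕ) (hm : 2 ≤ m) (hp : 1 ≤ p) (ha : 1 ≤ a) (ha' : a ≤ m + q)
    (hb : 1 ≤ b) (hb' : b ≤ m + p) :
    (7 : ℝ) / 12 ≤ av p b / 2 + av q a / 2 + 1 / ((m : ℝ) + p + q) + ((m : ℝ) - 1) / 6 := by
  rcases Nat.eq_zero_or_pos q with h | h
  · subst h
    have := u2a p m a b hm hp ha (by omega) hb hb'
    push_cast
    rw [add_zero]
    exact this
  · have := u3 p q m a b hm hp h ha ha' hb hb'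
    linarith

theorem u1 (p q m a b : ℕ) (hm : 2 ≤ m) (ha : 1 ≤ a) (ha' : a ≤ m + q)
    (hb : 1 ≤ b) (hb' : b ≤ m + p) :
    (1 : ℝ) / 2 ≤ av p b / 2 + av q a / 2 + 1 / ((m : ℝ) + p + q) + ((m : ℝ) - 1) / 6 := by
  rcases Nat.eq_zero_or_pos p with h | h
  · rcases Nat.eq_zero_or_pos q with h' | h'
    · subst h; subst h'
      rw [av_zero, av_zero]
      have i2 : 1 / (m : ℝ) ≤ 1 / (a : ℝ) := inv_le_cast ha (by exact_mod_cast (by omega : a ≤ m))
      have i1 : 1 / (m : ℝ) ≤ 1 / (b : ℝ) := inv_le_cast hb (by exact_mod_cast (by omega : b ≤ m))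
      have := tight m hm
      push_cast
      rw [add_zero, add_zero]
      linarith
    · have := u2 q p m b a hm h' hb hb' ha ha'
      have e : (m : ℝ) + q + p = m + p + q := by ring
      rw [e] at this
      linarith
  · have := u2 p q m a b hm h ha ha' hb hb'
    linarith

theorem uJa (p m : ℕ) (hm : 3 ≤ m) (hp : 1 ≤ p) :
    0 ≤ 1 / ((m : ℝ) + p) + ((m : ℝ) - 1) / 6 - (1 / 2) * (1 / (1 + (p : ℝ)) - 1 / ((m : ℝ) + p))
      - (1 / 2) * (1 - 1 / (m : ℝ)) := by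
  have hm' : (3 : ℝ) ≤ m := by exact_mod_cast hm
  have hp' : (1 : ℝ) ≤ p := by exact_mod_cast hp
  have pos : 0 < 1 / ((m : ℝ) + p) := by positivity
  have posm : 0 < 1 / (m : ℝ) := by positivity
  have j1 : 1 / (1 + (p : ℝ)) ≤ 1 / 2 := by
    apply one_div_le_one_div_of_le <;> linarith
  rcases Nat.lt_or_ge m 6 with h6 | h6
  · have h3 : m = 3 ∨ m = 4 ∨ m = 5 := by omega
    rcases h3 with h | h | h
    · subst h
      push_cast
      have : 1 / ((3 : ℝ) + p) + ((3 : ℝ) - 1) / 6 - (1 / 2) * (1 / (1 + (p : ℝ)) - 1 / ((3 : ℝ) + p))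
          - (1 / 2) * (1 - 1 / (3 : ℝ)) = p / ((1 + p) * (3 + p)) := by
        field_simp
        ring
      rw [this]
      positivity
    · subst h
      push_cast
      have : 1 / ((4 : ℝ) + p) + ((4 : ℝ) - 1) / 6 - (1 / 2) * (1 / (1 + (p : ℝ)) - 1 / ((4 : ℝ) + p))
          - (1 / 2) * (1 - 1 / (4 : ℝ)) = ((1 + p) * (4 + p) + 12 * (1 + p) - 4 * (4 + p)) / (8 * (1 + p) * (4 + p)) := by
        field_simp
        ring
      rw [this]
      apply div_nonneg _ (by positivity)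
      nlinarith
    · subst h
      push_cast
      have : 1 / ((5 : ℝ) + p) + ((5 : ℝ) - 1) / 6 - (1 / 2) * (1 / (1 + (p : ℝ)) - 1 / ((5 : ℝ) + p))
          - (1 / 2) * (1 - 1 / (5 : ℝ)) = (8 * (1 + p) * (5 + p) + 45 * (1 + p) - 15 * (5 + p)) / (30 * (1 + p) * (5 + p)) := by
        field_simp
        ring
      rw [this]
      apply div_nonneg _ (by positivity)
      nlinarith
  · have h6' : (6 : ℝ) ≤ m := by exact_mod_cast h6
    linarith

theorem uJ (p q m a b : ℕ) (hm : 3 ≤ m) (ha : 1 ≤ a) (ha' : a ≤ m + q)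
    (hb : 1 ≤ b) (hb' : b ≤ m + p) :
    0 ≤ 1 / ((m : ℝ) + p + q) + ((m : ℝ) - 1) / 6 - (1 / 2) * (1 / (1 + (p : ℝ)) - 1 / (b : ℝ))
      - (1 / 2) * (1 / (1 + (q : ℝ)) - 1 / (a : ℝ)) := by
  have hm' : (3 : ℝ) ≤ m := by exact_mod_cast hm
  have i1 := inv_b b m p hb hb'
  have i2 := inv_b a m q ha ha'
  rcases Nat.eq_zero_or_pos p with h | h
  · rcases Nat.eq_zero_or_pos q with h' | h'
    · subst h; subst h'
      have := tight m (by omega)
      push_cast at *
      simp only [add_zero, div_one] at *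
      linarith
    · subst h
      have := uJa q m hm h'
      push_cast at *
      simp only [add_zero, div_one] at *
      linarith
  · rcases Nat.eq_zero_or_pos q with h' | h'
    · subst h'
      have := uJa p m hm h
      push_cast at *
      simp only [add_zero, div_one] at *
      linarith
    · have k1 := ub6 m p (by omega) h
      have k2 := ub6 m q (by omega) h'
      have pos : 0 < 1 / ((m : ℝ) + p + q) := by positivity
      linarith

theorem aw_zero (b c : ℕ) : aw 0 b c = 1 / (b : ℝ) + 1 / (c : ℝ) - 2 / 3 := by unfold aw; simp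

theorem aw_pos (p b c : ℕ) (hp : 1 ≤ p) :
    aw p b c = 1 - 3 * (1 / (1 + (p : ℝ))) + 1 / (b : ℝ) + 1 / (c : ℝ) := by
  unfold aw
  rw [if_neg (by omega), ph_eq]
  ring

theorem aw_bound (p b c : ℕ) (hb : 1 ≤ b) (hb' : b ≤ 2 + p) (hc : 1 ≤ c) (hc' : c ≤ 2 + p) :
    (p = 0 ∧ 1 / 6 ≤ aw p b c / 2) ∨ (p = 1 ∧ 1 / 12 ≤ aw p b c / 2) ∨ (2 ≤ p ∧ 1 / 4 ≤ aw p b c / 2) := by
  have i1 := inv_b b 2 p hb hb'
  have i2 := inv_b c 2 p hc hc'
  rcases Nat.lt_or_ge p 2 with h | h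
  · have : p = 0 ∨ p = 1 := by omega
    rcases this with h | h
    · left
      subst h
      rw [aw_zero]
      push_cast at *
      norm_num at i1 i2 ⊢
      linarith
    · right; left
      subst h
      rw [aw_pos _ _ _ le_rfl]
      push_cast at *
      norm_num at i1 i2 ⊢
      linarith
  · right; right
    refine ⟨h, ?_⟩
    rw [aw_pos _ _ _ (by omega)]
    have hp' : (2 : ℝ) ≤ p := by exact_mod_cast h
    have key : 3 * (1 / (1 + (p : ℝ))) - 2 * (1 / (2 + (p : ℝ))) ≤ 1 / 2 := by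
      have : 1 / 2 - (3 * (1 / (1 + (p : ℝ))) - 2 * (1 / (2 + (p : ℝ)))) = ((p - 2) * (p + 3)) / (2 * (1 + p) * (2 + p)) + 0 := by
        field_simp
        ring
      have h2 : (0 : ℝ) ≤ ((p - 2) * (p + 3)) / (2 * (1 + p) * (2 + p)) := by
        apply div_nonneg _ (by positivity)
        apply mul_nonneg <;> linarith
      linarith
    push_cast at *
    linarith

theorem w1 (p q b c d e : ℕ) (hb : 1 ≤ b) (hb' : b ≤ 2 + p) (hc : 1 ≤ c) (hc' : c ≤ 2 + p)
    (hd : 1 ≤ d) (hd' : d ≤ 2 + q) (he : 1 ≤ e) (he' : e ≤ 2 + q) :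
    (2 : ℝ) / 3 ≤ aw p b c / 2 + aw q d e / 2 + 1 / (3 + (p : ℝ) + q) + 1 / 3 := by
  have pos : 0 < 1 / (3 + (p : ℝ) + q) := by positivity
  rcases aw_bound p b c hb hb' hc hc' with ⟨h1, h2⟩ | ⟨h1, h2⟩ | ⟨h1, h2⟩ <;>
  rcases aw_bound q d e hd hd' he he' with ⟨h3, h4⟩ | ⟨h3, h4⟩ | ⟨h3, h4⟩
  · linarith
  · subst h1; subst h3
    norm_num at *
    linarith
  · linarith
  · subst h1; subst h3
    norm_num at *
    linarith
  · subst h1; subst h3
    norm_num at *
    linarith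
  · linarith
  · linarith
  · linarith
  · linarith

end Pool.Agent.Helper660.FU
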