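import Pool.Agent.Helper660.FU.Basic

set_option autoImplicit false

namespace Pool.Agent.Helper660.FU

open Finset

variable {V : Type} (S : Sys V)

namespace Sys

variable [Fintype V]

/-- condition for the uniform share -/
def Cond (i w j k v : V) : Prop :=
  3 ≤ (S.Xs j k v).card ∨ (S.E i j w ∧ S.E i k w) ∨ (S.E i j w ∧ S.E i v w) ∨
    (S.E i k w ∧ S.E i v w)

open Classical in
noncomputable def bt (i w j k v : V) : ℝ :=
  if S.Cond i w j k v then 1 / 6 else need (S.co j k v) (S.co k j v)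

open Classical in
noncomputable def Th (i j k w : V) : Finset V := univ.filter (fun v => S.Third i j k w v)

theorem mem_Th (i j k w v : V) : v ∈ S.Th i j k w ↔ S.Third i j k w v := by
  unfold Th; simp

open Classical in
noncomputable def sh (i w j k : V) : ℝ :=
  if 2 ≤ S.co k i w ∧ 2 ≤ S.co j i w then
    ∑ v ∈ S.Th i j k w, S.bt i w j k v
  else 1 / (2 * ((max (S.co k i w) (S.co j i w) : ℕ) : ℝ))

noncomputable def g (i j k : V) : ℝ :=
  1 / ((S.Nn j k).card : ℝ) + ∑ w ∈ S.Ns i j k, S.sh i w j k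

noncomputable def Hs (i j k : V) : ℝ := ∑ w ∈ S.Pt i j k, 1 / (S.co k i w : ℝ)

noncomputable def TS (i j k : V) : ℝ := ∑ w ∈ S.Tt i j k, S.sh i w j k

noncomputable def W (i j k : V) : ℝ :=
  1 / (1 + ((S.Pt i j k).card : ℝ) + (S.Pt i k j).card + (S.Tt i j k).card + (S.St i j k).card)
    + ((S.St i j k).card : ℝ) / 2 + S.TS i j k

theorem Xs_comm (j k v : V) : S.Xs j k v = S.Xs k j v := by
  classical
  ext x
  rw [mem_Xs, mem_Xs, S.c23 x j k]
  tauto

theorem Xs_comm' (j k v : V) : S.Xs j k v = S.Xs j v k := by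
  classical
  ext x
  rw [mem_Xs, mem_Xs, S.c23 x k v]
  tauto

theorem Cond_comm (i w j k v : V) : S.Cond i w j k v ↔ S.Cond i w k j v := by
  unfold Cond
  rw [S.Xs_comm j k v]
  tauto

theorem Cond_comm' (i w j k v : V) : S.Cond i w j k v ↔ S.Cond i w j v k := by
  unfold Cond
  rw [S.Xs_comm' j k v]
  tauto

theorem bt_comm (i w j k v : V) : S.bt i w j k v = S.bt i w k j v := by
  unfold bt
  by_cases h : S.Cond i w j k v
  · rw [if_pos h, if_pos ((S.Cond_comm i w j k v).1 h)]
  · rw [if_neg h, if_neg (fun h' => h ((S.Cond_comm i w j k v).2 h')), need_symm]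

theorem Third_comm (i j k w v : V) : S.Third i j k w v ↔ S.Third i k j w v := by
  unfold Third; tauto

theorem Tt_comm (i j k : V) : S.Tt i j k = S.Tt i k j := by
  ext w
  rw [mem_Tt, mem_Tt, S.c12 j k w]
  tauto

theorem St_comm (i j k : V) : S.St i j k = S.St i k j := by
  ext w
  rw [mem_St, mem_St, S.c12 j k w]
  tauto

theorem sh_comm (i w j k : V) : S.sh i w j k = S.sh i w k j := by
  unfold sh
  have h1 : S.Th i j k w = S.Th i k j w := by
    ext v
    rw [mem_Th, mem_Th]
    exact S.Third_comm i j k w v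
  by_cases h : 2 ≤ S.co k i w ∧ 2 ≤ S.co j i w
  · rw [if_pos h, if_pos h.symm, h1]
    apply Finset.sum_congr rfl
    intro v _
    exact S.bt_comm i w j k v
  · rw [if_neg h, if_neg (fun h' => h h'.symm), max_comm]

theorem Nn_comm (j k : V) : S.Nn j k = S.Nn k j := by
  ext x
  rw [mem_Nn, mem_Nn, S.c12]

theorem Ns_comm (i j k : V) : S.Ns i j k = S.Ns i k j := by
  ext x
  rw [mem_Ns, mem_Ns, S.c12 j k x]

theorem g_comm (i j k : V) : S.g i j k = S.g i k j := by
  unfold g
  rw [S.Nn_comm, S.Ns_comm]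
  congr 1
  apply Finset.sum_congr rfl
  intro w _
  exact S.sh_comm i w j k

theorem W_comm (i j k : V) : S.W i j k = S.W i k j := by
  unfold W TS
  rw [S.Tt_comm, S.St_comm]
  have : ∑ w ∈ S.Tt i k j, S.sh i w j k = ∑ w ∈ S.Tt i k j, S.sh i w k j :=
    Finset.sum_congr rfl (fun w _ => S.sh_comm i w j k)
  rw [this]
  ring

theorem Nn_card {i j k : V} (h : S.E i j k) : (S.Nn j k).card = 1 + (S.Ns i j k).card := by
  classical
  have : S.Nn j k = insert i (S.Ns i j k) := by
    ext x
    rw [mem_Nn, Finset.mem_insert, mem_Ns]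
    constructor
    · intro hx
      by_cases hxi : x = i
      · exact Or.inl hxi
      · exact Or.inr ⟨hxi, hx⟩
    · rintro (hx | hx)
      · subst hx; simpa only [S.c12, S.c23] using h
      · exact hx.2
  rw [this, Finset.card_insert_of_notMem]
  · omega
  · rw [mem_Ns]; tauto

open Classical in
theorem sum_split {i j k : V} (h : S.E i j k) (F : V → ℝ) :
    ∑ w ∈ S.Ns i j k, F w = ∑ w ∈ S.Pt i j k, F w + ∑ w ∈ S.Pt i k j, F w
      + ∑ w ∈ S.Tt i j k, F w + ∑ w ∈ S.St i j k, F w := by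
  have key : ∀ w ∈ S.Ns i j k, F w = (if w ∈ S.Pt i j k then F w else 0)
      + (if w ∈ S.Pt i k j then F w else 0) + (if w ∈ S.Tt i j k then F w else 0)
      + (if w ∈ S.St i j k then F w else 0) := by
    intro w hw
    rw [mem_Ns] at hw
    have h1 := S.co_one_k h hw.2
    have h2 := S.co_one_j h hw.2
    have hkjw : S.E k j w := by simpa only [S.c12, S.c23] using hw.2
    rcases Nat.lt_or_ge (S.co k i w) 2 with h3 | h3 <;>
    rcases Nat.lt_or_ge (S.co j i w) 2 with h4 | h4
    · have e1 : w ∉ S.Pt i j k := by rw [mem_Pt]; omega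
      have e2 : w ∉ S.Pt i k j := by rw [mem_Pt]; omega
      have e3 : w ∉ S.Tt i j k := by rw [mem_Tt]; omega
      have e4 : w ∈ S.St i j k := by rw [mem_St]; exact ⟨hw.1, hw.2, by omega, by omega⟩
      simp [e1, e2, e3, e4]
    · have e1 : w ∉ S.Pt i j k := by rw [mem_Pt]; omega
      have e2 : w ∈ S.Pt i k j := by rw [mem_Pt]; exact ⟨hw.1, hkjw, by omega, by omega⟩
      have e3 : w ∉ S.Tt i j k := by rw [mem_Tt]; omega
      have e4 : w ∉ S.St i j k := by rw [mem_St]; omega
      simp [e1, e2, e3, e4]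
    · have e1 : w ∈ S.Pt i j k := by rw [mem_Pt]; exact ⟨hw.1, hw.2, by omega, by omega⟩
      have e2 : w ∉ S.Pt i k j := by rw [mem_Pt]; omega
      have e3 : w ∉ S.Tt i j k := by rw [mem_Tt]; omega
      have e4 : w ∉ S.St i j k := by rw [mem_St]; omega
      simp [e1, e2, e3, e4]
    · have e1 : w ∉ S.Pt i j k := by rw [mem_Pt]; omega
      have e2 : w ∉ S.Pt i k j := by rw [mem_Pt]; omega
      have e3 : w ∈ S.Tt i j k := by rw [mem_Tt]; exact ⟨hw.1, hw.2, by omega, by omega⟩
      have e4 : w ∉ S.St i j k := by rw [mem_St]; omega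
      simp [e1, e2, e3, e4]
  rw [Finset.sum_congr rfl key]
  rw [Finset.sum_add_distrib, Finset.sum_add_distrib, Finset.sum_add_distrib]
  rw [Finset.sum_ite_mem, Finset.sum_ite_mem, Finset.sum_ite_mem, Finset.sum_ite_mem]
  have s1 : S.Ns i j k ∩ S.Pt i j k = S.Pt i j k := by
    apply Finset.inter_eq_right.2
    intro w hw
    rw [mem_Pt] at hw
    rw [mem_Ns]; exact ⟨hw.1, hw.2.1⟩
  have s2 : S.Ns i j k ∩ S.Pt i k j = S.Pt i k j := by
    apply Finset.inter_eq_right.2
    intro w hw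
    rw [mem_Pt] at hw
    rw [mem_Ns, S.c12 j k w]; exact ⟨hw.1, hw.2.1⟩
  have s3 : S.Ns i j k ∩ S.Tt i j k = S.Tt i j k := by
    apply Finset.inter_eq_right.2
    intro w hw
    rw [mem_Tt] at hw
    rw [mem_Ns]; exact ⟨hw.1, hw.2.1⟩
  have s4 : S.Ns i j k ∩ S.St i j k = S.St i j k := by
    apply Finset.inter_eq_right.2
    intro w hw
    rw [mem_St] at hw
    rw [mem_Ns]; exact ⟨hw.1, hw.2.1⟩
  rw [s1, s2, s3, s4]

theorem g_eq {i j k : V} (h : S.E i j k) :
    S.g i j k = S.W i j k + S.Hs i j k / 2 + S.Hs i k j / 2 := by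
  have hc : ((S.Ns i j k).card : ℝ) = (S.Pt i j k).card + (S.Pt i k j).card + (S.Tt i j k).card
      + (S.St i j k).card := by
    have := S.sum_split h (fun _ => (1 : ℝ))
    simpa using this
  unfold g
  rw [S.Nn_card h, S.sum_split h]
  have e1 : ∑ w ∈ S.Pt i j k, S.sh i w j k = S.Hs i j k / 2 := by
    unfold Hs
    rw [Finset.sum_div]
    apply Finset.sum_congr rfl
    intro w hw
    rw [mem_Pt] at hw
    unfold sh
    rw [if_neg (by omega)]
    have : max (S.co k i w) (S.co j i w) = S.co k i w := by omega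
    rw [this]
    ring
  have e2 : ∑ w ∈ S.Pt i k j, S.sh i w j k = S.Hs i k j / 2 := by
    unfold Hs
    rw [Finset.sum_div]
    apply Finset.sum_congr rfl
    intro w hw
    rw [mem_Pt] at hw
    unfold sh
    rw [if_neg (by omega)]
    have : max (S.co k i w) (S.co j i w) = S.co j i w := by omega
    rw [this]
    ring
  have e3 : ∑ w ∈ S.St i j k, S.sh i w j k = ((S.St i j k).card : ℝ) / 2 := by
    have : ∀ w ∈ S.St i j k, S.sh i w j k = 1 / 2 := by
      intro w hw
      rw [mem_St] at hw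
      unfold sh
      rw [if_neg (by omega)]
      have : max (S.co k i w) (S.co j i w) = 1 := by omega
      rw [this]
      norm_num
    rw [Finset.sum_congr rfl this, Finset.sum_const, nsmul_eq_mul]
    ring
  rw [e1, e2, e3]
  unfold W TS
  push_cast
  rw [hc]
  ring

end Sys

end Pool.Agent.Helper660.FU
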