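import Pool.Agent.Helper660.FU.Center

set_option autoImplicit false

namespace Pool.Agent.Helper660.FU

open Finset

variable {V : Type} (S : Sys V)

namespace Sys

variable [Fintype V]

noncomputable def Side (i j k : V) : ℝ := S.W i j k + S.ak i j k / 2 + S.ak i k j / 2

theorem Side_comm (i j k : V) : S.Side i j k = S.Side i k j := by
  unfold Side
  rw [S.W_comm]; ring

theorem Th_eq {i j k w v : V} (h : S.E i j k) (hwi : w ≠ i) (ht : S.Third i j k w v) :
    S.Th i j k w = {v} := by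
  ext x
  rw [mem_Th, Finset.mem_singleton]
  constructor
  · intro hx; exact S.third_unique h hwi hx ht
  · rintro rfl; exact ht

theorem sh_eq {i j k w v : V} (h : S.E i j k) (hw : w ∈ S.Tt i j k) (ht : S.Third i j k w v) :
    S.sh i w j k = S.bt i w j k v := by
  have hw' := hw
  rw [mem_Tt] at hw'
  unfold sh
  rw [if_pos ⟨hw'.2.2.1, hw'.2.2.2⟩, S.Th_eq h hw'.1 ht, Finset.sum_singleton]

theorem bt_cond {i w j k v : V} (h : S.Cond i w j k v) : S.bt i w j k v = 1 / 6 := by
  unfold bt; rw [if_pos h]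

theorem bt_need {i w j k v : V} (h : ¬ S.Cond i w j k v) :
    S.bt i w j k v = need (S.co j k v) (S.co k j v) := by
  unfold bt; rw [if_neg h]

/-- attachments: every attachment of the triangle-type elements is a third vertex -/
theorem Zt_third {i j k v : V} (h : S.E i j k) (hv : v ∈ S.Zt i j k) :
    ∃ w ∈ S.Tt i j k, S.Third i j k w v := by
  rw [mem_Zt] at hv
  obtain ⟨hp, w, hw, he⟩ := hv
  obtain ⟨x, hx⟩ := S.exists_third h hw
  refine ⟨w, hw, ?_⟩
  rw [mem_Pt] at hp
  rw [mem_Tt] at hw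
  have := S.third_nbr_k h hw.1 hx (x := v) (by simpa only [S.c12, S.c23] using hp.2.1) he
  rcases this with h' | h'
  · exact absurd h' hp.1
  · rw [h']; exact hx

theorem mem_Zt_of_third {i j k w v : V} (hw : w ∈ S.Tt i j k)
    (ht : S.Third i j k w v) (hp : v ∈ S.Pt j i k) : v ∈ S.Zt i j k := by
  rw [mem_Zt]
  exact ⟨hp, w, hw, by simpa only [S.c12, S.c23] using ht.2.2.2.2.2⟩

/-- a third vertex lies on side j and has codegree at least two there -/
theorem third_side {i j k w v : V} (h : S.E i j k) (hw : w ∈ S.Tt i j k)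
    (ht : S.Third i j k w v) : v ≠ j ∧ S.E i k v ∧ 2 ≤ S.co k j v ∧ 1 ≤ S.co i j v := by
  rw [mem_Tt] at hw
  refine ⟨ht.1, ht.2.2.2.1, ?_, ?_⟩
  · exact (S.edge_co h hw.1 hw.2.1 ht.1 ht.2.2.2.1 (by simpa only [S.c12, S.c23] using ht.2.2.2.2.2)).2
  · apply S.co_pos (x := k)
    · exact h
    · simpa only [S.c12, S.c23] using ht.2.2.2.1

theorem third_pure_or_T {i j k w v : V} (h : S.E i j k) (hw : w ∈ S.Tt i j k)
    (ht : S.Third i j k w v) : v ∈ S.Pt j i k ∨ v ∈ S.Tt j i k := by
  obtain ⟨h1, h2, h3, h4⟩ := S.third_side h hw ht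
  rcases Nat.lt_or_ge (S.co i j v) 2 with h5 | h5
  · left; rw [mem_Pt]; exact ⟨h1, h2, h3, by omega⟩
  · right; rw [mem_Tt]; exact ⟨h1, h2, h3, h5⟩

theorem Zt_one {i j k w v : V} (h : S.E i j k) (hw : w ∈ S.Tt i j k)
    (hall : ∀ x ∈ S.Tt i j k, S.Third i j k x v) (hp : v ∈ S.Pt j i k) : S.Zt i j k = {v} := by
  ext x
  rw [Finset.mem_singleton]
  constructor
  · intro hx
    obtain ⟨y, hy, ht⟩ := S.Zt_third h hx
    have hy' := hy
    rw [mem_Tt] at hy'
    exact S.third_unique h hy'.1 ht (hall y hy)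
  · rintro rfl
    exact S.mem_Zt_of_third hw (hall w hw) hp

theorem Zt_none {i j k v : V} (h : S.E i j k)
    (hall : ∀ x ∈ S.Tt i j k, S.Third i j k x v) (hp : v ∉ S.Pt j i k) : S.Zt i j k = ∅ := by
  apply Finset.eq_empty_of_forall_notMem
  intro x hx
  obtain ⟨y, hy, ht⟩ := S.Zt_third h hx
  have hy' := hy
  rw [mem_Tt] at hy'
  have := S.third_unique h hy'.1 ht (hall y hy)
  subst this
  exact hp (S.Zt_sub i j k hx)

theorem ak_empty {i j k : V} (h : S.Zt i j k = ∅) : S.ak i j k = ph (S.Pt i j k).card := by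
  unfold ak
  rw [h]
  split_ifs with h0
  · rw [h0]; simp [ph]
  · simp

theorem ak_one {i j k v : V} (h : S.Zt i j k = {v}) :
    S.ak i j k = av (S.Pt i j k).card (S.co k j v) := by
  unfold ak av
  rw [h]
  split_ifs with h0
  · simp; norm_num
  · simp

theorem ak_two {i j k a b : V} [DecidableEq V] (hab : a ≠ b) (h : S.Zt i j k = {a, b}) :
    S.ak i j k = aw (S.Pt i j k).card (S.co k j a) (S.co k j b) := by
  unfold ak aw
  rw [h]
  split_ifs with h0
  · rw [Finset.sum_pair hab, Finset.card_pair hab]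
    norm_num
  · rw [Finset.sum_pair hab]
    ring

theorem Xs_eq {i j k w v : V} (h : S.E i j k) (hw : w ∈ S.Tt i j k)
    (hall : ∀ x ∈ S.Tt i j k, S.Third i j k x v) : (S.Xs j k v).card = 1 + (S.Tt i j k).card := by
  classical
  have ht := hall w hw
  have : S.Xs j k v = insert i (S.Tt i j k) := by
    ext x
    rw [mem_Xs, Finset.mem_insert]
    constructor
    · rintro ⟨h1, h2, h3⟩
      by_cases hxi : x = i
      · exact Or.inl hxi
      right
      apply S.mem_Tt_of_third h hxi (v := v)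
      · simpa only [S.c12, S.c23] using h1
      · exact ⟨ht.1, ht.2.1, ht.2.2.1, ht.2.2.2.1, h2, h3⟩
    · rintro (hx | hx)
      · subst hx
        exact ⟨h, ht.2.2.1, ht.2.2.2.1⟩
      · have h1 := hall x hx
        rw [mem_Tt] at hx
        exact ⟨by simpa only [S.c12, S.c23] using hx.2.1, h1.2.2.2.2.1, h1.2.2.2.2.2⟩
  rw [this, Finset.card_insert_of_notMem]
  · omega
  · rw [mem_Tt]; tauto

theorem co_le_one {i j k v : V} (h : S.E i j k) (hv : v ∈ S.Pt j i k) :
    S.co k j v ≤ (1 + (S.Tt i j k).card) + (S.Pt i j k).card :=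
  S.coPt_le_t h hv (S.Tt i j k) (fun w hw _ => hw)

/-- value of the triangle-type total when all third vertices agree -/
theorem TS_one {i j k w v : V} (h : S.E i j k) (hw : w ∈ S.Tt i j k)
    (hall : ∀ x ∈ S.Tt i j k, S.Third i j k x v) :
    (S.TS i j k = ((1 + (S.Tt i j k).card : ℕ) - 1 : ℝ) / 6) ∨
    ((S.Tt i j k).card = 1 ∧ ¬ S.Cond i w j k v ∧
      S.TS i j k = need (S.co j k v) (S.co k j v)) := by
  have hX := S.Xs_eq h hw hall
  have hpos : 1 ≤ (S.Tt i j k).card := Finset.card_pos.2 ⟨w, hw⟩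
  rcases Nat.lt_or_ge (S.Tt i j k).card 2 with h2 | h2
  · have h1 : (S.Tt i j k).card = 1 := by omega
    obtain ⟨y, hy⟩ := Finset.card_eq_one.1 h1
    have hwy : w = y := by rw [hy] at hw; exact Finset.mem_singleton.1 hw
    subst hwy
    have hTS : S.TS i j k = S.bt i w j k v := by
      unfold TS
      rw [hy, Finset.sum_singleton]
      exact S.sh_eq h hw (hall w hw)
    by_cases hc : S.Cond i w j k v
    · left
      rw [hTS, S.bt_cond hc, h1]
      norm_num
    · right
      exact ⟨h1, hc, by rw [hTS, S.bt_need hc]⟩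
  · left
    unfold TS
    have : ∀ x ∈ S.Tt i j k, S.sh i x j k = 1 / 6 := by
      intro x hx
      rw [S.sh_eq h hx (hall x hx)]
      apply S.bt_cond
      left
      omega
    rw [Finset.sum_congr rfl this, Finset.sum_const, nsmul_eq_mul]
    push_cast
    ring

theorem TS_nonneg (i j k : V) (h : S.E i j k) : 0 ≤ S.TS i j k := by
  unfold TS
  apply Finset.sum_nonneg
  intro w hw
  obtain ⟨v, hv⟩ := S.exists_third h hw
  rw [S.sh_eq h hw hv]
  by_cases hc : S.Cond i w j k v
  · rw [S.bt_cond hc]; norm_num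
  · rw [S.bt_need hc]
    obtain ⟨_, _, h3, _⟩ := S.third_side h hw hv
    obtain ⟨_, _, h5, _⟩ := S.third_side (S.s2 _ _ _ h) (by rw [← S.Tt_comm]; exact hw) hv.swap
    exact need_nonneg _ _ h5 h3

theorem side_one {i j k w v : V} (h : S.E i j k) (hw : w ∈ S.Tt i j k)
    (hall : ∀ x ∈ S.Tt i j k, S.Third i j k x v) (hp : v ∈ S.Pt j i k) (hp' : v ∈ S.Pt k i j) :
    1 / 2 ≤ S.Side i j k ∧ (1 ≤ (S.Pt i j k).card → 7 / 12 ≤ S.Side i j k) ∧
    (1 ≤ (S.Pt i j k).card → 1 ≤ (S.Pt i k j).card → 2 / 3 ≤ S.Side i j k) := by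
  have h' : S.E i k j := S.s2 _ _ _ h
  have hw' : w ∈ S.Tt i k j := by rw [← S.Tt_comm]; exact hw
  have hall' : ∀ x ∈ S.Tt i k j, S.Third i k j x v := by
    intro x hx; rw [← S.Tt_comm] at hx; exact (hall x hx).swap
  have e1 := S.ak_one (S.Zt_one h hw hall hp)
  have e2 := S.ak_one (S.Zt_one h' hw' hall' hp')
  have b1 := S.co_le_one h hp
  have b2 := S.co_le_one h' hp'
  rw [← S.Tt_comm] at b2
  have hpos : 1 ≤ (S.Tt i j k).card := Finset.card_pos.2 ⟨w, hw⟩
  have l1 : 2 ≤ S.co k j v := (S.third_side h hw (hall w hw)).2.2.1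
  have l2 : 2 ≤ S.co j k v := (S.third_side h' hw' (hall' w hw')).2.2.1
  have hW := S.W_lower i j k
  unfold Side
  rw [e1, e2]
  rcases S.TS_one h hw hall with hT | ⟨hT1, _, hT⟩
  · have eqd : (1 : ℝ) + ((S.Pt i j k).card : ℝ) + (S.Pt i k j).card + (S.Tt i j k).card
        = ((1 + (S.Tt i j k).card : ℕ) : ℝ) + (S.Pt i j k).card + (S.Pt i k j).card := by
      push_cast; ring
    rw [eqd, hT] at hW
    refine ⟨?_, ?_, ?_⟩
    · have := u1 (S.Pt i j k).card (S.Pt i k j).card (1 + (S.Tt i j k).card) (S.co j k v)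
        (S.co k j v) (by omega) (by omega) b2 (by omega) b1
      linarith
    · intro hP
      have := u2 (S.Pt i j k).card (S.Pt i k j).card (1 + (S.Tt i j k).card) (S.co j k v)
        (S.co k j v) (by omega) hP (by omega) b2 (by omega) b1
      linarith
    · intro hP hP'
      have := u3 (S.Pt i j k).card (S.Pt i k j).card (1 + (S.Tt i j k).card) (S.co j k v)
        (S.co k j v) (by omega) hP hP' (by omega) b2 (by omega) b1
      linarith
  · rw [hT1] at b1 b2 hW
    have eqd : (1 : ℝ) + ((S.Pt i j k).card : ℝ) + (S.Pt i k j).card + ((1 : ℕ) : ℝ)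
        = 2 + ((S.Pt i j k).card : ℝ) + (S.Pt i k j).card := by
      push_cast; ring
    rw [eqd, hT] at hW
    refine ⟨?_, ?_, ?_⟩
    · have := z1 (S.Pt i j k).card (S.Pt i k j).card (S.co j k v)
        (S.co k j v) l2 (by omega) l1 (by omega)
      linarith
    · intro hP
      have := z2 (S.Pt i j k).card (S.Pt i k j).card (S.co j k v)
        (S.co k j v) hP l2 (by omega) l1 (by omega)
      linarith
    · intro hP hP'
      have := z3 (S.Pt i j k).card (S.Pt i k j).card (S.co j k v)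
        (S.co k j v) hP hP' l2 (by omega) l1 (by omega)
      linarith

theorem side_none {i j k : V} (h0 : S.Tt i j k = ∅) :
    ph (S.Pt i j k).card / 2 + ph (S.Pt i k j).card / 2
      + 1 / (1 + ((S.Pt i j k).card : ℝ) + (S.Pt i k j).card) ≤ S.Side i j k := by
  have hz : S.Zt i j k = ∅ := by
    apply Finset.eq_empty_of_forall_notMem
    intro v hv
    rw [mem_Zt] at hv
    obtain ⟨_, w, hw, _⟩ := hv
    rw [h0] at hw
    exact absurd hw (Finset.notMem_empty _)
  have hz' : S.Zt i k j = ∅ := by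
    apply Finset.eq_empty_of_forall_notMem
    intro v hv
    rw [mem_Zt] at hv
    obtain ⟨_, w, hw, _⟩ := hv
    rw [← S.Tt_comm, h0] at hw
    exact absurd hw (Finset.notMem_empty _)
  have hW := S.W_lower i j k
  have hT : S.TS i j k = 0 := by unfold TS; rw [h0]; simp
  rw [h0, hT] at hW
  simp only [card_empty, Nat.cast_zero, add_zero] at hW
  unfold Side
  rw [S.ak_empty hz, S.ak_empty hz']
  linarith

/-- a side whose single triangle-type element is attached to a pure element at most once -/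
theorem side_tt {i j k w v : V} (h : S.E i j k) (hT : S.Tt i j k = {w})
    (ht : S.Third i j k w v) (hc : S.Cond i w j k v) (hp : v ∉ S.Pt j i k) :
    2 / 3 ≤ S.Side i j k := by
  have h' : S.E i k j := S.s2 _ _ _ h
  have hw : w ∈ S.Tt i j k := by rw [hT]; simp
  have hw' : w ∈ S.Tt i k j := by rw [← S.Tt_comm]; exact hw
  have hall : ∀ x ∈ S.Tt i j k, S.Third i j k x v := by
    intro x hx; rw [hT, Finset.mem_singleton] at hx; subst hx; exact ht
  have hall' : ∀ x ∈ S.Tt i k j, S.Third i k j x v := by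
    intro x hx; rw [← S.Tt_comm] at hx; exact (hall x hx).swap
  have e1 := S.ak_empty (S.Zt_none h hall hp)
  have hW := S.W_lower i j k
  have hTS : S.TS i j k = 1 / 6 := by
    unfold TS
    rw [hT, Finset.sum_singleton, S.sh_eq h hw ht, S.bt_cond hc]
  rw [hT, hTS] at hW
  have eqd : (1 : ℝ) + ((S.Pt i j k).card : ℝ) + (S.Pt i k j).card + (({w} : Finset V).card : ℝ)
      = 2 + ((S.Pt i j k).card : ℝ) + (S.Pt i k j).card := by
    simp; ring
  rw [eqd] at hW
  unfold Side
  rw [e1]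
  by_cases hp' : v ∈ S.Pt k i j
  · have e2 := S.ak_one (S.Zt_one h' hw' hall' hp')
    have b2 := S.co_le_one h' hp'
    rw [← S.Tt_comm, hT, Finset.card_singleton] at b2
    have l2 : 2 ≤ S.co j k v := (S.third_side h' hw' (hall' w hw')).2.2.1
    rw [e2]
    have := c1 (S.Pt i j k).card (S.Pt i k j).card (S.co j k v) l2 (by omega)
    linarith
  · have e2 := S.ak_empty (S.Zt_none h' hall' hp')
    rw [e2]
    have := tt1 (S.Pt i j k).card (S.Pt i k j).card
    linarith

end Sys

end Pool.Agent.Helper660.FU
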