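import Pool.Agent.Helper660.FU.Sides

set_option autoImplicit false

namespace Pool.Agent.Helper660.FU

open Finset

variable {V : Type} (S : Sys V)

namespace Sys

variable [Fintype V]

theorem Tt_two {i j k a b : V} [DecidableEq V] (h : S.E i j k) (ha : a ∈ S.Tt i j k)
    (hb : b ∈ S.Tt i j k) (hab : S.Third i j k a b) (hba : S.Third i j k b a) (hne : a ≠ b) :
    S.Tt i j k = {a, b} := by
  ext x
  rw [Finset.mem_insert, Finset.mem_singleton]
  constructor
  · intro hx
    obtain ⟨y, hy⟩ := S.exists_third h hx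
    rw [mem_Tt] at hx ha hb
    by_cases hyb : b = y
    · subst hyb
      left
      exact (S.third_pair h hb.1 hx.1 hba hy hne).2.symm
    · right
      exact (S.third_pair h ha.1 hx.1 hab hy hyb).2.symm
  · rintro (hx | hx) <;> subst hx <;> assumption

theorem TS_two {i j k a b : V} (h : S.E i j k) (ha : a ∈ S.Tt i j k)
    (hb : b ∈ S.Tt i j k) (hab : S.Third i j k a b) (hba : S.Third i j k b a) (hne : a ≠ b) :
    S.TS i j k = 1 / 3 := by
  classical
  unfold TS
  rw [S.Tt_two h ha hb hab hba hne, Finset.sum_pair hne, S.sh_eq h ha hab, S.sh_eq h hb hba]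
  have c1 : S.Cond i a j k b := Or.inr (Or.inl ⟨hba.2.2.1, hba.2.2.2.1⟩)
  have c2 : S.Cond i b j k a := Or.inr (Or.inl ⟨hab.2.2.1, hab.2.2.2.1⟩)
  rw [S.bt_cond c1, S.bt_cond c2]
  norm_num

theorem co_two {i j k a b : V} (h : S.E i j k) (ha : a ∈ S.Tt i j k)
    (hb : b ∈ S.Tt i j k) (hab : S.Third i j k a b) (hba : S.Third i j k b a) (hne : a ≠ b)
    (hp : a ∈ S.Pt j i k) : S.co k j a ≤ 2 + (S.Pt i j k).card := by
  classical
  have := S.coPt_le_t h hp {b} (by
    intro w hw he
    rw [S.Tt_two h ha hb hab hba hne] at hw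
    rw [Finset.mem_insert, Finset.mem_singleton] at hw
    rcases hw with hw | hw
    · subst hw
      exact absurd rfl (S.ne23 he)
    · rw [hw]; simp)
  rw [Finset.card_singleton] at this
  omega

theorem Zt_two {i j k a b : V} [DecidableEq V] (h : S.E i j k) (ha : a ∈ S.Tt i j k)
    (hb : b ∈ S.Tt i j k) (hab : S.Third i j k a b) (hba : S.Third i j k b a) (hne : a ≠ b)
    (hp : a ∈ S.Pt j i k) (hp' : b ∈ S.Pt j i k) : S.Zt i j k = {a, b} := by
  ext x
  rw [Finset.mem_insert, Finset.mem_singleton]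
  constructor
  · intro hx
    obtain ⟨y, hy, ht⟩ := S.Zt_third h hx
    have hy' := hy
    rw [mem_Tt] at hy'
    rw [S.Tt_two h ha hb hab hba hne] at hy
    rw [Finset.mem_insert, Finset.mem_singleton] at hy
    rcases hy with hy | hy
    · subst hy
      right; exact S.third_unique h hy'.1 ht hab
    · subst hy
      left; exact S.third_unique h hy'.1 ht hba
  · rintro (hx | hx)
    · subst hx; exact S.mem_Zt_of_third hb hba hp
    · subst hx; exact S.mem_Zt_of_third ha hab hp'

theorem Zt_two_none {i j k a b : V} (h : S.E i j k) (ha : a ∈ S.Tt i j k)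
    (hb : b ∈ S.Tt i j k) (hab : S.Third i j k a b) (hba : S.Third i j k b a) (hne : a ≠ b)
    (hp : a ∉ S.Pt j i k) (hp' : b ∉ S.Pt j i k) : S.Zt i j k = ∅ := by
  classical
  apply Finset.eq_empty_of_forall_notMem
  intro x hx
  obtain ⟨y, hy, ht⟩ := S.Zt_third h hx
  have hy' := hy
  rw [mem_Tt] at hy'
  rw [S.Tt_two h ha hb hab hba hne] at hy
  rw [Finset.mem_insert, Finset.mem_singleton] at hy
  have hx' := S.Zt_sub i j k hx
  rcases hy with hy | hy
  · subst hy
    have := S.third_unique h hy'.1 ht hab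
    subst this
    exact hp' hx'
  · subst hy
    have := S.third_unique h hy'.1 ht hba
    subst this
    exact hp hx'

theorem W_two {i j k a b : V} (h : S.E i j k) (ha : a ∈ S.Tt i j k)
    (hb : b ∈ S.Tt i j k) (hab : S.Third i j k a b) (hba : S.Third i j k b a) (hne : a ≠ b) :
    1 / (3 + ((S.Pt i j k).card : ℝ) + (S.Pt i k j).card) + 1 / 3 ≤ S.W i j k := by
  classical
  have hW := S.W_lower i j k
  rw [S.TS_two h ha hb hab hba hne, S.Tt_two h ha hb hab hba hne, Finset.card_pair hne] at hW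
  have eqd : (1 : ℝ) + ((S.Pt i j k).card : ℝ) + (S.Pt i k j).card + ((2 : ℕ) : ℝ)
      = 3 + ((S.Pt i j k).card : ℝ) + (S.Pt i k j).card := by
    push_cast; ring
  rw [eqd] at hW
  exact hW

theorem side_two {i j k a b : V} (h : S.E i j k) (ha : a ∈ S.Tt i j k)
    (hb : b ∈ S.Tt i j k) (hab : S.Third i j k a b) (hba : S.Third i j k b a) (hne : a ≠ b)
    (hp : a ∈ S.Pt j i k) (hp' : b ∈ S.Pt j i k) (hq : a ∈ S.Pt k i j) (hq' : b ∈ S.Pt k i j) :
    2 / 3 ≤ S.Side i j k := by
  classical
  have h' : S.E i k j := S.s2 _ _ _ h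
  have ha' : a ∈ S.Tt i k j := by rw [← S.Tt_comm]; exact ha
  have hb' : b ∈ S.Tt i k j := by rw [← S.Tt_comm]; exact hb
  have e1 := S.ak_two hne (S.Zt_two h ha hb hab hba hne hp hp')
  have e2 := S.ak_two hne (S.Zt_two h' ha' hb' hab.swap hba.swap hne hq hq')
  have hW := S.W_two h ha hb hab hba hne
  have p1 := S.co_two h ha hb hab hba hne hp
  have p2 := S.co_two h hb ha hba hab hne.symm hp'
  have p3 := S.co_two h' ha' hb' hab.swap hba.swap hne hq
  have p4 := S.co_two h' hb' ha' hba.swap hab.swap hne.symm hq'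
  rw [mem_Pt] at hp hp' hq hq'
  have := w1 (S.Pt i j k).card (S.Pt i k j).card (S.co k j a) (S.co k j b) (S.co j k a) (S.co j k b)
    (by omega) p1 (by omega) p2 (by omega) p3 (by omega) p4
  unfold Side
  rw [e1, e2]
  linarith

theorem side_tt2 {i j k a b : V} (h : S.E i j k) (ha : a ∈ S.Tt i j k)
    (hb : b ∈ S.Tt i j k) (hab : S.Third i j k a b) (hba : S.Third i j k b a) (hne : a ≠ b)
    (hp : a ∉ S.Pt j i k) (hp' : b ∉ S.Pt j i k) (hq : a ∉ S.Pt k i j) (hq' : b ∉ S.Pt k i j) :
    2 / 3 ≤ S.Side i j k := by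
  have h' : S.E i k j := S.s2 _ _ _ h
  have ha' : a ∈ S.Tt i k j := by rw [← S.Tt_comm]; exact ha
  have hb' : b ∈ S.Tt i k j := by rw [← S.Tt_comm]; exact hb
  have e1 := S.ak_empty (S.Zt_two_none h ha hb hab hba hne hp hp')
  have e2 := S.ak_empty (S.Zt_two_none h' ha' hb' hab.swap hba.swap hne hq hq')
  have hW := S.W_two h ha hb hab hba hne
  have := tt2 (S.Pt i j k).card (S.Pt i k j).card
  unfold Side
  rw [e1, e2]
  linarith

/-- total of the local weights -/
noncomputable def f (i j k : V) : ℝ := S.g i j k + S.g j k i + S.g k i j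

theorem f_ge_sides {i j k : V} (h : S.E i j k) :
    S.Side i j k + S.Side j i k + S.Side k i j ≤ S.f i j k := by
  have h1 : S.E j k i := by simpa only [S.c12, S.c23] using h
  have h2 : S.E k i j := by simpa only [S.c12, S.c23] using h
  have hjik : S.E j i k := by simpa only [S.c12, S.c23] using h
  have hikj : S.E i k j := by simpa only [S.c12, S.c23] using h
  have hkji : S.E k j i := by simpa only [S.c12, S.c23] using h
  unfold f
  rw [S.g_eq h, S.g_eq h1, S.g_eq h2]
  have c1 := S.center h          -- centre k, sides i j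
  have c2 := S.center hikj       -- centre j, sides i k
  have c3 := S.center h1         -- centre i, sides j k
  rw [S.W_comm j k i]
  unfold Side
  linarith

end Sys

end Pool.Agent.Helper660.FU
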